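import Pool.Agent.MP_5d9b3c_ag.P3K.Kit
import Pool.Agent.MP_5d9b3c_ag.H72.Defs

/-! Statements of the integration kit. -/

namespace Pool.Agent.MP_5d9b3c_ag.P3K

open Set Metric MeasureTheory Topology Filter H48G
open scoped ENNReal

section

variable {p : ℕ} [Fact p.Prime] {L : Type} [Field L] [Algebra ℚ_[p] L] {n : ℕ} {ι ι' : Type}

/-- `b'` refines `b` along `π`. -/
structure Rfn (b : ι → Box p L n) (b' : ι' → Box p L n) (π : ι' → ι) : Prop where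
  sub : ∀ i, ∀ t ∈ Bl p n, ∃ s ∈ Bl p n, (b (π i)).Φ s = (b' i).Φ t
  cov : ∀ i, ∀ s ∈ Bl p n, ∃ j, π j = i ∧ ∃ t ∈ Bl p n, (b' j).Φ t = (b i).Φ s
  dis : ∀ i j, π i = π j → ∀ t ∈ Bl p n, ∀ s ∈ Bl p n, (b' i).Φ t = (b' j).Φ s → i = j

/-- The common part of two boxes. -/
def Box.Ov (b b' : Box p L n) : Set (Fin n → ℚ_[p]) :=
  {t ∈ Bl p n | ∃ s ∈ Bl p n, b'.Φ s = b.Φ t}

/-- The function `g` is bounded along `F`. -/
def Bd (F : Filter (Pt p L)) (g : L) : Prop := ∃ M : ℝ, ∀ᶠ y in F, g ∈ y.O ∧ ‖y.ev g‖ ≤ M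

/-- No point dominates two points of `K`. -/
def SepS (K : Set (Pt p L)) : Prop := ∀ x ∈ K, ∀ y ∈ K, ∀ w, x ≤ w → y ≤ w → x = y

/-- `B` is etale over the polynomial ring in `z`. -/
def Eta (B : Subalgebra ℚ_[p] L) (z : Fin n → L) : Prop := ∃ h : ∀ i, z i ∈ B,
  (MvPolynomial.aeval (R := ℚ_[p]) fun i => (⟨z i, h i⟩ : B)).toRingHom.Etale

/-- The functions `z - t` generate the maximal ideal at `x`. -/
def Mx (x : Pt p L) (z : Fin n → L) (t : Fin n → ℚ_[p]) : Prop :=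
  ∀ g ∈ x.O, x.ev g = 0 → ∃ h : Fin n → L, (∀ i, h i ∈ x.O) ∧
    g = ∑ i, (z i - algebraMap ℚ_[p] L (t i)) * h i

/-- The data of a small ball. -/
structure MD.Cut {I : Type} (d : MD I n) (c : Fin n → ℚ_[p]) (d' : MD I n) : Prop where
  ν0 : ∀ l, c l = 0 → d'.ν l = d.ν l
  ν1 : ∀ l, c l ≠ 0 → d'.ν l = 1
  A0 : ∀ i l, c l = 0 → d'.A i l = d.A i l
  A1 : ∀ i l, c l ≠ 0 → d'.A i l = 0

end

/-- The point of a homomorphism. -/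
def RLOC : Prop := ∀ {p : ℕ} [Fact p.Prime] {L : Type} [Field L] [Algebra ℚ_[p] L]
  (A : Subalgebra ℚ_[p] L) (φ : A →ₐ[ℚ_[p]] ℚ_[p]), (∀ g : L, ∃ s ∈ A, s ≠ 0 ∧ s * g ∈ A) →
  ∃ x : Pt p L, LocOf A x ∧ ∀ a : A, x.ev a = φ a

/-- The pull-back of points along a place. -/
def RPUL : Prop := ∀ {p : ℕ} [Fact p.Prime] {L k : Type} [Field L] [Algebra ℚ_[p] L] [Field k]
  [Algebra ℚ_[p] k] (P : Plc p L k), (∀ g : L, ∃ s ∈ P.O, s ≠ 0 ∧ s * g ∈ P.O) →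
  ∃ w : Pt p k → Pt p L, ∀ x, (∀ g, g ∈ (w x).O ↔ g ∈ P.O ∧ P.π g ∈ x.O) ∧
    ∀ g ∈ P.O, (w x).ev g = x.ev (P.π g)

/-- A non-zero function is a unit almost everywhere. -/
def RNUL : Prop := ∀ {p : ℕ} [Fact p.Prime] {L : Type} [Field L] [Algebra ℚ_[p] L] {n : ℕ}
  (b : Box p L n) (g : L), g ≠ 0 → ∀ᵐ t ∂(mN p n).restrict (Bl p n), (b.Φ t).ev g ≠ 0

/-- Two boxes agree at general points. -/
def RGEN : Prop := ∀ {p : ℕ} [Fact p.Prime] {L : Type} [Field L] [Algebra ℚ_[p] L] {n : ℕ}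
  (b b' : Box p L n), ∃ σ : L, σ ≠ 0 ∧ ∀ t ∈ Bl p n, ∀ s ∈ Bl p n, ∀ x, x.ev σ ≠ 0 →
    b.Φ t ≤ x → b'.Φ s ≤ x → b.Φ t = b'.Φ s

def RLIE : Prop := ∀ {p : ℕ} [Fact p.Prime] {L : Type} [Field L] [Algebra ℚ_[p] L] {n : ℕ}
  {ι ι' : Type} [Finite ι'] (b : ι → Box p L n) (b' : ι' → Box p L n), Lies b b' → Sb b b'

/-- Complete families are equivalent. -/
def RCOV : Prop := ∀ {p : ℕ} [Fact p.Prime] {L : Type} [Field L] [Algebra ℚ_[p] L] {n : ℕ}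
  {ι ι' : Type} [Finite ι] [Finite ι'] (b : ι → Box p L n) (b' : ι' → Box p L n) (X₀ : Set L),
  Itg b X₀ → Cov b X₀ → Itg b' X₀ → Cov b' X₀ → Eqv b b'

/-- A box is equivalent to the family of the boxes over it. -/
def RFIB : Prop := ∀ {p : ℕ} [Fact p.Prime] {L : Type} [Field L] [Algebra ℚ_[p] L] {n : ℕ}
  {ι ι' : Type} [Finite ι'] (b : ι → Box p L n) (b' : ι' → Box p L n) (π : ι' → ι),
  Sb b b' → Dis b → (∀ j, (b' j).Over (b (π j))) →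
  ∀ i, Eqv (fun _ : Unit => b i) fun j : {j // π j = i} => b' j

/-- The derivations of a box span all derivations; chain rule; independence. -/
structure RSPN : Prop where
  span : ∀ {p : ℕ} [Fact p.Prime] {L : Type} [Field L] [Algebra ℚ_[p] L] {n : ℕ}
    (b : Box p L n) (δ : Derivation ℚ_[p] L L) (g : L), δ g = ∑ i, δ (b.z i) * b.D i g
  chain : ∀ {p : ℕ} [Fact p.Prime] {L : Type} [Field L] [Algebra ℚ_[p] L] {n : ℕ}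
    (b b' : Box p L n) (r : Fin n → L), b.jac r = b.jac b'.z * b'.jac r
  self : ∀ {p : ℕ} [Fact p.Prime] {L : Type} [Field L] [Algebra ℚ_[p] L] {n : ℕ}
    (b : Box p L n), b.jac b.z = 1
  smul : ∀ {p : ℕ} [Fact p.Prime] {L : Type} [Field L] [Algebra ℚ_[p] L] {n : ℕ}
    (b : Box p L n) (v : Fin n → ℚ_[p]) (r : Fin n → L),
    (b.jac fun l => v l • r l) = (∏ l, v l) • b.jac r
  ind : ∀ {p : ℕ} [Fact p.Prime] {L : Type} [Field L] [Algebra ℚ_[p] L] {n : ℕ}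
    (b : Box p L n), AlgebraicIndependent ℚ_[p] b.z
  sub : ∀ {p : ℕ} [Fact p.Prime] {L : Type} [Field L] [Algebra ℚ_[p] L] {n : ℕ}
    {b b' : Box p L n} {c : Fin n → ℚ_[p]} {e : ℕ}, b.IsSub c e b' →
    (∀ i g, b'.D i g = (p : L) ^ e * b.D i g) ∧ ∀ r, b'.jac r = (p : L) ^ (e * n) * b.jac r
  map : ∀ {p : ℕ} [Fact p.Prime] {L k : Type} [Field L] [Algebra ℚ_[p] L] [Field k]
    [Algebra ℚ_[p] k] {n : ℕ} {b : Box p L n} {e : L ≃ₐ[ℚ_[p]] k} {b' : Box p k n}, b.IsMap e b' →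
    (∀ i g, b'.D i (e g) = e (b.D i g)) ∧ ∀ r, (b'.jac fun l => e (r l)) = e (b.jac r)

/-- Change of variables on the common part of two boxes. -/
def RCMP : Prop := ∀ {p : ℕ} [Fact p.Prime] {L : Type} [Field L] [Algebra ℚ_[p] L] {n : ℕ}
  (b b' : Box p L n), IsOpen (b.Ov b') ∧ ∀ F : Pt p L → ℝ≥0∞,
    ∫⁻ s in b'.Ov b, F (b'.Φ s) ∂mN p n =
      ∫⁻ t in b.Ov b', F (b.Φ t) * ‖(b.Φ t).ev (b.jac b'.z)‖ₑ ∂mN p n

def RTRS : Prop := ∀ {p : ℕ} [Fact p.Prime] {L : Type} [Field L] [Algebra ℚ_[p] L] {n : ℕ}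
  {ι ι' ι'' : Type} [Finite ι'] (b : ι → Box p L n) (b' : ι' → Box p L n)
  (b'' : ι'' → Box p L n), Sb b b' → Sb b' b'' → Sb b b''

/-- The volume does not depend on the family. -/
def RIND : Prop := ∀ {p : ℕ} [Fact p.Prime] {L : Type} [Field L] [Algebra ℚ_[p] L] {n : ℕ}
  {ι ι' : Type} [Fintype ι] [Fintype ι'] (b : ι → Box p L n) (b' : ι' → Box p L n) (j : L)
  (r : Fin n → L) (S : Set (Pt p L)), IsOpen S → Eqv b b' → Dis b → Dis b' →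
  ∑ i, (b i).vol j r S = ∑ i, (b' i).vol j r S

/-- The volume of a level set in an adapted box. -/
def RFRM : Prop := ∀ {p : ℕ} [Fact p.Prime] {L : Type} [Field L] [Algebra ℚ_[p] L] {n : ℕ}
  {I : Type} [Fintype I] (b : Box p L n) (j : L) (r : Fin n → L) (h : I → L) (d : MD I n),
  b.Adp j r h d → ∀ a, b.vol j r (Lv h a) = d.ser p a

/-- The regularised integral does not depend on the family. -/
def RPV : Prop := ∀ {p : ℕ} [Fact p.Prime] {L : Type} [Field L] [Algebra ℚ_[p] L] {n : ℕ}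
  {ι ι' I K : Type} [Fintype ι] [Fintype ι'] [Fintype I] [CommRing K] [Algebra ℂ K]
  (b : ι → Box p L n) (b' : ι' → Box p L n) (j : L) (r : Fin n → L) (h : I → L) (χ : I → Kˣ)
  (d : ι → MD I n) (d' : ι' → MD I n), Eqv b b' → Dis b → Dis b' → Fit b j r h χ d →
  Fit b' j r h χ d' → ∑ i, (d i).val p χ = ∑ i, (d' i).val p χ

/-- Small balls exist. -/
def RSUB : Prop := ∀ {p : ℕ} [Fact p.Prime] {L : Type} [Field L] [Algebra ℚ_[p] L] {n : ℕ}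
  (b : Box p L n) (c : Fin n → ℚ_[p]) (e : ℕ), c ∈ Bl p n → ∃ b', b.IsSub c e b'

/-- What passes to small balls. -/
structure RHER : Prop where
  mem : ∀ {p : ℕ} [Fact p.Prime] {n : ℕ} {c t : Fin n → ℚ_[p]} (e : ℕ), c ∈ Bl p n →
    t ∈ Bl p n → c + (p : ℚ_[p]) ^ e • t ∈ Bl p n
  nm : ∀ {p : ℕ} [Fact p.Prime] {n : ℕ} (c : Fin n → ℚ_[p]), ∃ e₀, ∀ e, e₀ ≤ e → Nm c e
  mono : ∀ {p : ℕ} [Fact p.Prime] {L : Type} [Field L] [Algebra ℚ_[p] L] {n : ℕ}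
    {b b' : Box p L n} {c : Fin n → ℚ_[p]} {e : ℕ} {g : L} {m : ℤ} {A : Fin n → ℤ},
    b.IsSub c e b' → Nm c e → b.Mono g m A →
    ∃ m' A', b'.Mono g m' A' ∧ ∀ l, (c l = 0 → A' l = A l) ∧ (c l ≠ 0 → A' l = 0)
  adp : ∀ {p : ℕ} [Fact p.Prime] {L : Type} [Field L] [Algebra ℚ_[p] L] {n : ℕ} {I : Type}
    {b b' : Box p L n} {c : Fin n → ℚ_[p]} {e : ℕ} {j : L} {r : Fin n → L} {h : I → L}
    {d : MD I n}, b.IsSub c e b' → Nm c e → b.Adp j r h d → ∃ d', b'.Adp j r h d' ∧ d.Cut c d'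
  tame : ∀ {p : ℕ} [Fact p.Prime] {n : ℕ} {I : Type} {c : Fin n → ℚ_[p]} {d d' : MD I n},
    d.Cut c d' → d.Tame → d'.Tame
  nd : ∀ {p : ℕ} [Fact p.Prime] {n : ℕ} {I K : Type} [Fintype I] [CommRing K] [Algebra ℂ K]
    {c : Fin n → ℚ_[p]} {d d' : MD I n} {χ : I → Kˣ}, d.Cut c d' → d.ND p χ → d'.ND p χ
  on : ∀ {p : ℕ} [Fact p.Prime] {L k : Type} [Field L] [Algebra ℚ_[p] L] [Field k]
    [Algebra ℚ_[p] k] {n : ℕ} {b b' : Box p L n} {c : Fin n → ℚ_[p]} {e : ℕ} {P : Plc p L k}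
    {i : Fin n}, b.IsSub c e b' → c i = 0 → b.On P i → b'.On P i
  face : ∀ {p : ℕ} [Fact p.Prime] {L k : Type} [Field L] [Algebra ℚ_[p] L] [Field k]
    [Algebra ℚ_[p] k] {n : ℕ} {b b' : Box p L (n + 1)} {c : Fin (n + 1) → ℚ_[p]} {e : ℕ}
    {P : Plc p L k} {i : Fin (n + 1)} {f f' : Box p k n}, b.IsSub c e b' → c i = 0 →
    b.IsFace P i f → b'.IsFace P i f' → f.IsSub (fun l => c (i.succAbove l)) e f'

/-- What holds on small balls. -/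
structure RGRM : Prop where
  nhds : ∀ {p : ℕ} [Fact p.Prime] {L : Type} [Field L] [Algebra ℚ_[p] L] {n : ℕ}
    (b : Box p L n) {c : Fin n → ℚ_[p]} {S : Set (Pt p L)}, c ∈ Bl p n → S ∈ 𝓝 (b.Φ c) →
    b.Ev c fun b' => ∀ t ∈ Bl p n, b'.Φ t ∈ S
  un : ∀ {p : ℕ} [Fact p.Prime] {L : Type} [Field L] [Algebra ℚ_[p] L] {n : ℕ}
    (b : Box p L n) {c : Fin n → ℚ_[p]} {g : L}, c ∈ Bl p n → (b.Φ c).ev g ≠ 0 →
    ∃ m, b.Ev c fun b' => b'.Un g m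
  mono : ∀ {p : ℕ} [Fact p.Prime] {L : Type} [Field L] [Algebra ℚ_[p] L] {n : ℕ}
    (b : Box p L n) {c : Fin n → ℚ_[p]} {g : L} {A : Fin n → ℤ}, c ∈ Bl p n →
    (b.Φ c).ev (g / ∏ l, (b.z l - algebraMap ℚ_[p] L (c l)) ^ A l) ≠ 0 →
    b.Ev c fun b' => ∃ m, b'.Mono g m A
  dom : ∀ {p : ℕ} [Fact p.Prime] {L : Type} [Field L] [Algebra ℚ_[p] L] {n : ℕ}
    (b b₀ : Box p L n) {c s : Fin n → ℚ_[p]}, c ∈ Bl p n → s ∈ Bl p n → b₀.Φ s ≤ b.Φ c →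
    b.Ev c fun b' => b'.Over b₀

/-- A divisor through the centre is a divisor of the small balls. -/
def RONG : Prop := ∀ {p : ℕ} [Fact p.Prime] {L k : Type} [Field L] [Algebra ℚ_[p] L] [Field k]
  [Algebra ℚ_[p] k] {n : ℕ} (b : Box p L n) (P : Plc p L k) (c : Fin n → ℚ_[p]) (i : Fin n),
  c ∈ Bl p n → Box.OnAt P (b.z i - algebraMap ℚ_[p] L (c i)) (b.Φ c) →
  b.Ev c fun b' => b'.On P i

/-- Refinement of a finite family into small balls. -/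
def RRFF : Prop := ∀ {p : ℕ} [Fact p.Prime] {L : Type} [Field L] [Algebra ℚ_[p] L] {n : ℕ}
  {ι : Type} [Finite ι] (b : ι → Box p L n) (Q : ι → Box p L n → Prop),
  (∀ i, ∀ c ∈ Bl p n, (b i).Ev c (Q i)) → ∃ (ι' : Type) (_ : Fintype ι') (π : ι' → ι)
    (b' : ι' → Box p L n) (c : ι' → Fin n → ℚ_[p]) (e : ι' → ℕ), Rfn b b' π ∧
    ∀ j, (b (π j)).IsSub (c j) (e j) (b' j) ∧ Nm (c j) (e j) ∧ Q (π j) (b' j)

/-- On a curve every function is a monomial on small balls. -/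
def RDVR : Prop := ∀ {p : ℕ} [Fact p.Prime] {L : Type} [Field L] [Algebra ℚ_[p] L]
  (b : Box p L 1) (c : Fin 1 → ℚ_[p]) (g : L), c ∈ Bl p 1 → g ≠ 0 →
  ∃ a : ℤ, (b.Φ c).ev (g / (b.z 0 - algebraMap ℚ_[p] L (c 0)) ^ a) ≠ 0

def RRF1 : Prop := ∀ {p : ℕ} [Fact p.Prime] {L : Type} [Field L] [Algebra ℚ_[p] L]
  {ι : Type} [Finite ι] (b : ι → Box p L 1) (T : ι → Finset L), (∀ i, 0 ∉ T i) →
  ∃ (ι' : Type) (_ : Fintype ι') (π : ι' → ι) (b' : ι' → Box p L 1) (c : ι' → Fin 1 → ℚ_[p])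
    (e : ι' → ℕ), Rfn b b' π ∧ ∀ j, (b (π j)).IsSub (c j) (e j) (b' j) ∧ Nm (c j) (e j) ∧
      ∀ g ∈ T (π j), ∃ m A, (b' j).Mono g m A

/-- The limit of an ultrafilter of points. -/
def RULT : Prop := ∀ {p : ℕ} [Fact p.Prime] {L : Type} [Field L] [Algebra ℚ_[p] L]
  (F : Ultrafilter (Pt p L)), (∀ g : L, ∃ s, s ≠ 0 ∧ Bd (F : Filter (Pt p L)) s ∧ Bd (F : Filter (Pt p L)) (s * g)) →
  ∃ w : Pt p L, (∀ g, g ∈ w.O ↔ Bd (F : Filter (Pt p L)) g) ∧ (F : Filter (Pt p L)) ≤ 𝓝 w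

/-- The valuative criterion of compactness. -/
def RCPT : Prop := ∀ {p : ℕ} [Fact p.Prime] {L : Type} [Field L] [Algebra ℚ_[p] L] {n : ℕ}
  (K : Set (Pt p L)) (X₀ : Set L), SepS K → (∀ x ∈ K, ∀ c ∈ X₀, c ∈ x.O ∧ ‖x.ev c‖ ≤ 1) →
  (∀ w : Pt p L, (∀ g, g ∈ w.O ∨ g⁻¹ ∈ w.O) → (∀ c ∈ X₀, c ∈ w.O ∧ ‖w.ev c‖ ≤ 1) →
    ∃ x ∈ K, x ≤ w) →
  (∀ x ∈ K, ∃ b : Box p L n, (∃ t ∈ Bl p n, b.Φ t = x) ∧ ∀ t ∈ Bl p n, b.Φ t ∈ K) → IsCompact K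

/-- A compact set of points is a finite disjoint union of good boxes. -/
def RREF : Prop := ∀ {p : ℕ} [Fact p.Prime] {L : Type} [Field L] [Algebra ℚ_[p] L] {n : ℕ}
  (K : Set (Pt p L)) (Q : Box p L n → Prop), IsCompact K → SepS K →
  (∀ x ∈ K, ∃ b : Box p L n, (∃ t ∈ Bl p n, b.Φ t = x) ∧ (∀ t ∈ Bl p n, b.Φ t ∈ K) ∧
    ∀ c ∈ Bl p n, b.Ev c Q) →
  ∃ (ι : Type) (_ : Fintype ι) (b : ι → Box p L n), (∀ i, Q (b i)) ∧ Sep b ∧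
    (∀ i, ∀ t ∈ Bl p n, (b i).Φ t ∈ K) ∧ ∀ x ∈ K, ∃ i, ∃ t ∈ Bl p n, (b i).Φ t = x

/-- Transport along an isomorphism. -/
structure RTRP : Prop where
  ex : ∀ {p : ℕ} [Fact p.Prime] {L k : Type} [Field L] [Algebra ℚ_[p] L] [Field k]
    [Algebra ℚ_[p] k] {n : ℕ} (b : Box p L n) (e : L ≃ₐ[ℚ_[p]] k), ∃ b', b.IsMap e b'
  mono : ∀ {p : ℕ} [Fact p.Prime] {L k : Type} [Field L] [Algebra ℚ_[p] L] [Field k]
    [Algebra ℚ_[p] k] {n : ℕ} {b : Box p L n} {e : L ≃ₐ[ℚ_[p]] k} {b' : Box p k n},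
    b.IsMap e b' → ∀ g, (b'.Reg (e g) ↔ b.Reg g) ∧ ∀ m, (b'.Un (e g) m ↔ b.Un g m) ∧
      ∀ A, b'.Mono (e g) m A ↔ b.Mono g m A
  adp : ∀ {p : ℕ} [Fact p.Prime] {L k : Type} [Field L] [Algebra ℚ_[p] L] [Field k]
    [Algebra ℚ_[p] k] {n : ℕ} {I : Type} {b : Box p L n} {e : L ≃ₐ[ℚ_[p]] k} {b' : Box p k n}
    {j : L} {r : Fin n → L} {h : I → L} {d : MD I n}, b.IsMap e b' → b.Adp j r h d →
    b'.Adp (e j) (fun l => e (r l)) (fun i => e (h i)) d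
  fam : ∀ {p : ℕ} [Fact p.Prime] {L k : Type} [Field L] [Algebra ℚ_[p] L] [Field k]
    [Algebra ℚ_[p] k] {n : ℕ} {ι : Type} {b : ι → Box p L n} {e : L ≃ₐ[ℚ_[p]] k}
    {b' : ι → Box p k n}, (∀ i, (b i).IsMap e (b' i)) → (Dis b → Dis b') ∧ (Sep b → Sep b') ∧
    ∀ X₀, (Itg b X₀ → Itg b' (e '' X₀)) ∧ (Cov b X₀ → Cov b' (e '' X₀))

/-- The regularised integral of an eigenform vanishes. -/
def REIG : Prop := ∀ {p : ℕ} [Fact p.Prime] {L : Type} [Field L] [Algebra ℚ_[p] L] {n : ℕ}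
  {ι I K : Type} [Fintype ι] [Fintype I] [CommRing K] [Algebra ℂ K] (b : ι → Box p L n)
  (X₀ : Set L) (e : L ≃ₐ[ℚ_[p]] L) (j : L) (r : Fin n → L) (h : I → L) (χ : I → Kˣ)
  (d : ι → MD I n) (u : I → ℚ_[p]) (a : I → ℤ) (w : ℚ_[p]) (a₀ : ℤ), Dis b → Itg b X₀ →
  Cov b X₀ → Fit b j r h χ d → (∀ c ∈ X₀, e c = c) →
  (∀ i, e (h i) = u i • h i ∧ ‖u i‖ = (p : ℝ) ^ (-a i)) →
  (∀ b' : Box p L n, e j * (b'.jac fun l => e (r l)) = w • (j * b'.jac r)) →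
  ‖w‖ = (p : ℝ) ^ (-a₀) →
  (1 - algebraMap ℂ K ((p : ℂ) ^ (-a₀)) * (∏ i, χ i ^ a i : Kˣ)) * ∑ i, (d i).val p χ = 0

/-- The derivations of a box act on the ring of a face and on its residue field. -/
def RFD : Prop := ∀ {p : ℕ} [Fact p.Prime] {L k : Type} [Field L] [Algebra ℚ_[p] L] [Field k]
  [Algebra ℚ_[p] k] {n : ℕ} (b : Box p L n) (P : Plc p L k) (i : Fin n), b.On P i →
  (∀ l, ∀ g ∈ P.O, b.D l g ∈ P.O) ∧ (∀ g ∈ P.O, P.π g = 0 → g / b.z i ∈ P.O) ∧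
  ∀ l, l ≠ i → ∃ δ : Derivation ℚ_[p] k k, ∀ g ∈ P.O, δ (P.π g) = P.π (b.D l g)

/-- The residue field is algebraic over the remaining coordinates. -/
def RFA : Prop := ∀ {p : ℕ} [Fact p.Prime] {L k : Type} [Field L] [Algebra ℚ_[p] L] [Field k]
  [Algebra ℚ_[p] k] {n : ℕ} (b : Box p L (n + 1)) (P : Plc p L k) (i : Fin (n + 1)), b.On P i →
  ∀ y : k, IsAlgebraic (Algebra.adjoin ℚ_[p] (range fun l => P.π (b.z (i.succAbove l)))) y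

/-- Faces exist. -/
def RRST : Prop := ∀ {p : ℕ} [Fact p.Prime] {L k : Type} [Field L] [Algebra ℚ_[p] L] [Field k]
  [Algebra ℚ_[p] k] {n : ℕ} (b : Box p L (n + 1)) (P : Plc p L k) (i : Fin (n + 1)), b.On P i →
  ∃ f, b.IsFace P i f

/-- What passes to faces. -/
structure RFP : Prop where
  D : ∀ {p : ℕ} [Fact p.Prime] {L k : Type} [Field L] [Algebra ℚ_[p] L] [Field k]
    [Algebra ℚ_[p] k] {n : ℕ} {b : Box p L (n + 1)} {P : Plc p L k} {i : Fin (n + 1)}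
    {f : Box p k n}, b.IsFace P i f → ∀ l, ∀ g ∈ P.O, f.D l (P.π g) = P.π (b.D (i.succAbove l) g)
  un : ∀ {p : ℕ} [Fact p.Prime] {L k : Type} [Field L] [Algebra ℚ_[p] L] [Field k]
    [Algebra ℚ_[p] k] {n : ℕ} {b : Box p L (n + 1)} {P : Plc p L k} {i : Fin (n + 1)}
    {f : Box p k n}, b.IsFace P i f → ∀ g, (b.Reg g → g ∈ P.O ∧ f.Reg (P.π g)) ∧
      ∀ m, b.Un g m → f.Un (P.π g) m
  mono : ∀ {p : ℕ} [Fact p.Prime] {L k : Type} [Field L] [Algebra ℚ_[p] L] [Field k]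
    [Algebra ℚ_[p] k] {n : ℕ} {b : Box p L (n + 1)} {P : Plc p L k} {i : Fin (n + 1)}
    {f : Box p k n} {g : L} {m : ℤ} {A : Fin (n + 1) → ℤ}, b.IsFace P i f → b.Mono g m A →
    g / b.z i ^ A i ∈ P.O ∧ f.Mono (P.π (g / b.z i ^ A i)) m fun l => A (i.succAbove l)
  sep : ∀ {p : ℕ} [Fact p.Prime] {L k : Type} [Field L] [Algebra ℚ_[p] L] [Field k]
    [Algebra ℚ_[p] k] {n : ℕ} {ι : Type} {b : ι → Box p L (n + 1)} {P : Plc p L k}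
    {i : ι → Fin (n + 1)} {f : ι → Box p k n}, (∀ a, (b a).IsFace P (i a) (f a)) → Sep b → Sep f
  one : ∀ {p : ℕ} [Fact p.Prime] {L k : Type} [Field L] [Algebra ℚ_[p] L] [Field k]
    [Algebra ℚ_[p] k] {n : ℕ} {b : Box p L n} {P : Plc p L k} {i i' : Fin n},
    b.On P i → b.On P i' → i = i'
  dom : ∀ {p : ℕ} [Fact p.Prime] {L k : Type} [Field L] [Algebra ℚ_[p] L] [Field k]
    [Algebra ℚ_[p] k] {n : ℕ} {b b₀ : Box p L (n + 1)} {P : Plc p L k} {i i₀ : Fin (n + 1)}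
    {f f₀ : Box p k n}, b.IsFace P i f → b₀.IsFace P i₀ f₀ → b.Over b₀ → f.Over f₀
  rsd : ∀ {p : ℕ} [Fact p.Prime] {L k : Type} [Field L] [Algebra ℚ_[p] L] [Field k]
    [Algebra ℚ_[p] k] {n : ℕ} {b : Box p L (n + 1)} {P : Plc p L k} {i : Fin (n + 1)}
    {f : Box p k n} (r : Fin (n + 1) → L) (i' : Fin (n + 1)), b.IsFace P i f →
    (∀ l, r l ∈ P.O) → P.π (r i') = 0 → b.jac r ∈ P.O ∧ P.π (b.jac r) =
      (-1) ^ ((i : ℕ) + i') * P.π (r i' / b.z i) * f.jac fun l => P.π (r (i'.succAbove l))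

/-- An etale chart at a regular point. -/
def RET1 : Prop := ∀ {p : ℕ} [Fact p.Prime] {L : Type} [Field L] [Algebra ℚ_[p] L] {n : ℕ}
  (A : Subalgebra ℚ_[p] L) (x : Pt p L) (z : Fin n → L) (D : Fin n → Derivation ℚ_[p] L L),
  A.FG → LocOf A x → (∀ i, z i ∈ x.O ∧ x.ev (z i) = 0) →
  (∀ i j, D i (z j) = if i = j then 1 else 0) → (∀ i, ∀ g ∈ x.O, D i g ∈ x.O) → Mx x z 0 →
  ∃ B : Subalgebra ℚ_[p] L, B.FG ∧ LocOf B x ∧ Eta B z ∧ (∀ i, ∀ g ∈ B, D i g ∈ B) ∧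
    ∀ y, LocOf B y → LocOf A y

/-- The points of an etale chart are regular; the field is algebraic over the coordinates. -/
def RET2 : Prop := ∀ {p : ℕ} [Fact p.Prime] {L : Type} [Field L] [Algebra ℚ_[p] L] {n : ℕ}
  (B : Subalgebra ℚ_[p] L) (y : Pt p L) (z : Fin n → L), Eta B z → LocOf B y →
  Mx y z (fun i => y.ev (z i)) ∧ ∀ g : L, IsAlgebraic (Algebra.adjoin ℚ_[p] (range z)) g

/-- The box of an etale chart. -/
def RET3 : Prop := ∀ {p : ℕ} [Fact p.Prime] {L : Type} [Field L] [Algebra ℚ_[p] L] {n : ℕ}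
  (B : Subalgebra ℚ_[p] L) (x : Pt p L) (z : Fin n → L) (D : Fin n → Derivation ℚ_[p] L L),
  B.FG → LocOf B x → Eta B z → (∀ i, x.ev (z i) = 0) →
  (∀ i j, D i (z j) = if i = j then 1 else 0) → (∀ i, ∀ g ∈ B, D i g ∈ B) →
  ∃ (e : ℕ) (b : Box p L n), b.Φ 0 = x ∧ (∀ i, b.z i = z i / (p : L) ^ e) ∧
    (∀ i g, b.D i g = (p : L) ^ e * D i g) ∧ ∀ t ∈ Bl p n, LocOf B (b.Φ t)

/-- The box at a regular point. -/
def RETB : Prop := ∀ {p : ℕ} [Fact p.Prime] {L : Type} [Field L] [Algebra ℚ_[p] L] {n : ℕ}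
  (A : Subalgebra ℚ_[p] L) (x : Pt p L) (z : Fin n → L) (D : Fin n → Derivation ℚ_[p] L L),
  A.FG → LocOf A x → (∀ i, z i ∈ x.O ∧ x.ev (z i) = 0) →
  (∀ i j, D i (z j) = if i = j then 1 else 0) → (∀ i, ∀ g ∈ x.O, D i g ∈ x.O) → Mx x z 0 →
  ∃ (e : ℕ) (b : Box p L n), b.Φ 0 = x ∧ (∀ i, b.z i = z i / (p : L) ^ e) ∧
    (∀ i g, b.D i g = (p : L) ^ e * D i g) ∧ ∀ t ∈ Bl p n, LocOf A (b.Φ t)

/-- The standard box of a rational function field. -/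
def RSTD : Prop := ∀ {p : ℕ} [Fact p.Prime] {L : Type} [Field L] [Algebra ℚ_[p] L] {n : ℕ}
  (x : Fin n → L) (D : Fin n → Derivation ℚ_[p] L L), AlgebraicIndependent ℚ_[p] x →
  (∀ i j, D i (x j) = if i = j then 1 else 0) →
  (∀ g : L, ∃ s ∈ Algebra.adjoin ℚ_[p] (range x), s ≠ 0 ∧ s * g ∈ Algebra.adjoin ℚ_[p] (range x)) →
  ∃ b : Box p L n, b.z = x ∧ (∀ t ∈ Bl p n, LocOf (Algebra.adjoin ℚ_[p] (range x)) (b.Φ t)) ∧
    ∀ y : Pt p L, (∀ i, x i ∈ y.O ∧ ‖y.ev (x i)‖ ≤ 1) → b.Φ (fun i => y.ev (x i)) ≤ y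

/-- From box sums to the Poincare series. -/
def RIGU : Prop := ∀ {p : ℕ} [Fact p.Prime] {L : Type} [Field L] [Algebra ℚ_[p] L] {n : ℕ}
  {ι : Type} [Fintype ι] (x : Fin n → L) (D : Fin n → Derivation ℚ_[p] L L)
  (f : MvPolynomial (Fin n) ℤ) (b : ι → Box p L n) (d : ι → MD Unit n),
  AlgebraicIndependent ℚ_[p] x → (∀ i j, D i (x j) = if i = j then 1 else 0) →
  (∀ g : L, ∃ s ∈ Algebra.adjoin ℚ_[p] (range x), s ≠ 0 ∧ s * g ∈ Algebra.adjoin ℚ_[p] (range x)) →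
  f ≠ 0 → Dis b → Itg b (range x) → Cov b (range x) →
  (∀ i, (b i).Adp 1 x (fun _ => MvPolynomial.aeval x f) (d i)) →
  (∃ A B : Polynomial ℚ, IsCoprime A B ∧ (B : PowerSeries ℚ) * H72.poincare f p = A) ∧
  ∀ {K : Type} [CommRing K] [Algebra ℂ K] (ξ : Kˣ) (O : Subalgebra ℂ K) (ε : O →ₐ[ℂ] ℂ)
    (hξ : (ξ : K) ∈ O), (∀ i, (d i).ND p fun _ => ξ) → ∑ i, (d i).val p (fun _ => ξ) ∈ O →
    ∃ Q P : Polynomial ℂ, Q.eval (ε ⟨ξ, hξ⟩) ≠ 0 ∧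
      (Q : PowerSeries ℂ) * (H72.poincare f p).map (algebraMap ℚ ℂ) = P

end Pool.Agent.MP_5d9b3c_ag.P3K
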