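import Pool.Agent.MP_5d9b3c_ag.P3K.Kit

/-! The face of a box along a place is a box. -/

namespace Pool.Agent.MP_5d9b3c_ag.P3K

open Set Metric Topology Filter

noncomputable section

variable {p : ℕ} [Fact p.Prime] {L k : Type} [Field L] [Algebra ℚ_[p] L] [Field k]
  [Algebra ℚ_[p] k] {n : ℕ}

namespace Plc

variable (P : Plc p L k) {f g z : L}

/-- The residue map as a homomorphism. -/
def πH : P.O →ₐ[ℚ_[p]] k where
  toFun g := P.π g
  map_one' := by simpa using P.cst 1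
  map_zero' := by simpa using P.cst 0
  map_mul' f g := P.mul _ f.2 _ g.2
  map_add' f g := P.add _ f.2 _ g.2
  commutes' := P.cst

theorem π_one : P.π 1 = 1 := map_one P.πH

theorem π_zero : P.π 0 = 0 := map_zero P.πH

theorem π_sub (hf : f ∈ P.O) (hg : g ∈ P.O) : P.π (f - g) = P.π f - P.π g :=
  map_sub P.πH ⟨f, hf⟩ ⟨g, hg⟩

theorem π_smul (c : ℚ_[p]) (hg : g ∈ P.O) : P.π (c • g) = c • P.π g := map_smul P.πH c ⟨g, hg⟩

theorem π_inv (hg : g ∈ P.O) (h : P.π g ≠ 0) : P.π g⁻¹ = (P.π g)⁻¹ := by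
  refine eq_inv_of_mul_eq_one_right ?_
  rw [← P.mul _ hg _ (P.inv_mem g hg h), mul_inv_cancel₀ fun e => h (by rw [e, P.π_zero]), P.π_one]

theorem π_sum {ι : Type} (s : Finset ι) {g : ι → L} (hg : ∀ i ∈ s, g i ∈ P.O) :
    P.π (∑ i ∈ s, g i) = ∑ i ∈ s, P.π (g i) := by
  induction s using Finset.cons_induction with
  | empty => simpa using P.π_zero
  | cons i s hi ih =>
    have h := fun j hj => hg j (Finset.mem_cons.2 (.inr hj))
    rw [Finset.sum_cons, Finset.sum_cons, P.add _ (hg i (Finset.mem_cons_self _ _)) _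
      (sum_mem h), ih h]

open Classical in
/-- The point of `L` given by a point of the residue field. -/
def lift (hP : ∀ g : L, ∃ s ∈ P.O, s ≠ 0 ∧ s * g ∈ P.O) (y : Pt p k) : Pt p L where
  O :=
    { carrier := {g | g ∈ P.O ∧ P.π g ∈ y.O}
      mul_mem' := fun ha hb => ⟨mul_mem ha.1 hb.1, P.mul _ ha.1 _ hb.1 ▸ mul_mem ha.2 hb.2⟩
      add_mem' := fun ha hb => ⟨add_mem ha.1 hb.1, P.add _ ha.1 _ hb.1 ▸ add_mem ha.2 hb.2⟩
      algebraMap_mem' := fun c => ⟨P.O.algebraMap_mem c, P.cst c ▸ y.O.algebraMap_mem c⟩ }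
  ev g := if g ∈ P.O then y.ev (P.π g) else 0
  ev_add f hf g hg := by
    rw [if_pos (add_mem hf.1 hg.1), if_pos hf.1, if_pos hg.1, P.add _ hf.1 _ hg.1,
      y.ev_add _ hf.2 _ hg.2]
  ev_mul f hf g hg := by
    rw [if_pos (mul_mem hf.1 hg.1), if_pos hf.1, if_pos hg.1, P.mul _ hf.1 _ hg.1,
      y.ev_mul _ hf.2 _ hg.2]
  ev_alg r := by rw [if_pos (P.O.algebraMap_mem r), P.cst, y.ev_alg]
  ev_out f hf := by
    split_ifs with h
    exacts [y.ev_out _ fun e => hf ⟨h, e⟩, rfl]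
  inv_mem f hf h := by
    rw [if_pos hf.1] at h
    exact ⟨P.inv_mem f hf.1 (Pt.ne_zero h), P.π_inv hf.1 (Pt.ne_zero h) ▸ Pt.inv_mem' h⟩
  fr g := by
    obtain ⟨s, h1, h2, h3⟩ := hP g
    obtain ⟨a, a1, a2, a3⟩ := y.fr (P.π s)
    obtain ⟨a', b1, b2, b3⟩ := y.fr (P.π (s * g))
    obtain ⟨c, c1, c2⟩ := P.surj (a * a')
    have c3 : c ≠ 0 := fun e => mul_ne_zero a2 b2 (by rw [← c2, e, P.π_zero])
    refine ⟨c * s, ⟨mul_mem c1 h1, ?_⟩, mul_ne_zero c3 h2, ?_⟩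
    · rw [P.mul _ c1 _ h1, c2, mul_right_comm]
      exact mul_mem a3 b1
    · rw [mul_assoc]
      refine ⟨mul_mem c1 h3, ?_⟩
      rw [P.mul _ c1 _ h3, c2, mul_assoc]
      exact mul_mem a1 b3

theorem lift_ev (hP) (y : Pt p k) (hg : g ∈ P.O) : (P.lift hP y).ev g = y.ev (P.π g) := if_pos hg

variable {P} {x : Pt p L}

/-- The point lies on the divisor of `z`, which is the place `P`. -/
structure At (P : Plc p L k) (z : L) (x : Pt p L) : Prop extends Box.OnAt P z x where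
  zm : z ∈ x.O
  ze : x.ev z = 0

theorem At.ne (h : P.At z x) (hz : z ≠ 0) (hg : g ∈ x.O) (h0 : P.π g = 0) : x.ev g = 0 := by
  rw [← mul_div_cancel₀ g hz, x.ev_mul _ h.zm _ (h.dv g hg h0), h.ze, zero_mul]

theorem At.frac (h : P.At z x) (g : L) : ∃ s ∈ P.O, s ≠ 0 ∧ s * g ∈ P.O :=
  let ⟨s, h1, h2, h3⟩ := x.fr g
  ⟨s, h.le h1, h2, h.le h3⟩

open Classical in
theorem At.ev (h : P.At z x) (hz : z ≠ 0) (hg : g ∈ x.O) :
    (if e : ∃ g' ∈ x.O, P.π g' = P.π g then x.ev e.choose else 0) = x.ev g := by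
  have e : ∃ g' ∈ x.O, P.π g' = P.π g := ⟨g, hg, rfl⟩
  have h1 := h.ne hz (sub_mem e.choose_spec.1 hg)
    (by rw [P.π_sub (h.le e.choose_spec.1) (h.le hg), e.choose_spec.2, sub_self])
  rw [dif_pos e, ← sub_eq_zero, ← x.ev_sub e.choose_spec.1 hg, h1]

open Classical in
/-- The point of the residue field given by a point on the divisor. -/
def At.res (h : P.At z x) (hz : z ≠ 0) : Pt p k where
  O :=
    { carrier := {y | ∃ g ∈ x.O, P.π g = y}
      mul_mem' := by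
        rintro _ _ ⟨a, ha, rfl⟩ ⟨b, hb, rfl⟩
        exact ⟨_, mul_mem ha hb, P.mul _ (h.le ha) _ (h.le hb)⟩
      add_mem' := by
        rintro _ _ ⟨a, ha, rfl⟩ ⟨b, hb, rfl⟩
        exact ⟨_, add_mem ha hb, P.add _ (h.le ha) _ (h.le hb)⟩
      algebraMap_mem' := fun c => ⟨_, x.O.algebraMap_mem c, P.cst c⟩ }
  ev y := if e : ∃ g ∈ x.O, P.π g = y then x.ev e.choose else 0
  ev_add := by
    rintro _ ⟨a, ha, rfl⟩ _ ⟨b, hb, rfl⟩
    rw [← P.add _ (h.le ha) _ (h.le hb), h.ev hz ha, h.ev hz hb, h.ev hz (add_mem ha hb),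
      x.ev_add _ ha _ hb]
  ev_mul := by
    rintro _ ⟨a, ha, rfl⟩ _ ⟨b, hb, rfl⟩
    rw [← P.mul _ (h.le ha) _ (h.le hb), h.ev hz ha, h.ev hz hb, h.ev hz (mul_mem ha hb),
      x.ev_mul _ ha _ hb]
  ev_alg r := by rw [← P.cst, h.ev hz (x.O.algebraMap_mem r), x.ev_alg]
  ev_out y hy := dif_neg hy
  inv_mem := by
    rintro _ ⟨a, ha, rfl⟩ h0
    rw [h.ev hz ha] at h0
    exact ⟨_, x.inv_mem a ha h0, P.π_inv (h.le ha) fun e => h0 (h.ne hz ha e)⟩
  fr y := by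
    obtain ⟨g, hg, rfl⟩ := P.surj y
    obtain ⟨s, h1, h2, h3⟩ := h.fr g hg
    exact ⟨_, ⟨s, h1, rfl⟩, h2, _, h3, P.mul _ (h.le h1) _ hg⟩

theorem At.mem_res (h : P.At z x) (hz : z ≠ 0) {y : k} :
    y ∈ (h.res hz).O ↔ ∃ g ∈ x.O, P.π g = y := Iff.rfl

theorem At.res_ev (h : P.At z x) (hz : z ≠ 0) (hg : g ∈ x.O) :
    (h.res hz).ev (P.π g) = x.ev g := h.ev hz hg

variable {D : Derivation ℚ_[p] L L}

theorem At.der_mem (h : P.At z x) (hD : ∀ g ∈ x.O, D g ∈ x.O) (hg : g ∈ P.O) : D g ∈ P.O := by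
  obtain ⟨s, h1, h2, h3⟩ := h.fr g hg
  have h0 : s ≠ 0 := fun e => h2 (e ▸ P.π_zero)
  have e : D g = s⁻¹ * (D (s * g) - g * D s) := by
    rw [D.leibniz, smul_eq_mul, smul_eq_mul]
    field_simp
    ring
  exact e ▸ mul_mem (P.inv_mem s (h.le h1) h2)
    (sub_mem (h.le (hD _ h3)) (mul_mem hg (h.le (hD _ h1))))

theorem At.der_zero (h : P.At z x) (hz : z ≠ 0) (hD : ∀ g ∈ x.O, D g ∈ x.O) (h0 : D z = 0)
    (hg : g ∈ P.O) (e : P.π g = 0) : P.π (D g) = 0 := by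
  obtain ⟨s, h1, h2, h3⟩ := h.fr g hg
  have h4 := h.dv _ h3 (by rw [P.mul _ (h.le h1) _ hg, e, mul_zero])
  have h5 : s * D g + g * D s = z * D (s * g / z) := by
    have := D.leibniz z (s * g / z)
    rw [mul_div_cancel₀ _ hz, h0, smul_zero, add_zero, D.leibniz] at this
    exact this
  have h6 := congrArg P.π h5
  have a1 := h.der_mem hD hg
  have a2 := h.le (hD _ h1)
  rw [P.add _ (mul_mem (h.le h1) a1) _ (mul_mem hg a2), P.mul _ (h.le h1) _ a1, P.mul _ hg _ a2,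
    P.mul _ (h.le h.zm) _ (h.le (hD _ h4)), e, h.z0, zero_mul, zero_mul, add_zero] at h6
  exact (mul_eq_zero.1 h6).resolve_left h2

/-- A derivation that kills the equation descends to the residue field. -/
theorem At.der (h : P.At z x) (hz : z ≠ 0) (hD : ∀ g ∈ x.O, D g ∈ x.O) (h0 : D z = 0) :
    ∃ E : Derivation ℚ_[p] k k, ∀ g ∈ P.O, E (P.π g) = P.π (D g) := by
  choose s s1 s2 using P.surj
  have m := fun g (hg : g ∈ P.O) => h.der_mem hD hg
  have key : ∀ g ∈ P.O, P.π (D (s (P.π g))) = P.π (D g) := fun g hg => by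
    rw [← sub_eq_zero, ← P.π_sub (m _ (s1 _)) (m _ hg), ← map_sub]
    exact h.der_zero hz hD h0 (sub_mem (s1 _) hg) (by rw [P.π_sub (s1 _) hg, s2, sub_self])
  refine ⟨Derivation.mk' ⟨⟨fun y => P.π (D (s y)), fun a b => ?_⟩, fun c a => ?_⟩ fun a b => ?_,
    key⟩
  · have := key _ (add_mem (s1 a) (s1 b))
    rwa [P.add _ (s1 a) _ (s1 b), s2, s2, map_add, P.add _ (m _ (s1 a)) _ (m _ (s1 b))] at this
  · have := key _ (P.O.smul_mem (s1 a) c)
    rwa [P.π_smul c (s1 a), s2, D.map_smul, P.π_smul c (m _ (s1 a))] at this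
  · have := key _ (mul_mem (s1 a) (s1 b))
    rwa [P.mul _ (s1 a) _ (s1 b), s2, s2, D.leibniz, smul_eq_mul, smul_eq_mul,
      P.add _ (mul_mem (s1 a) (m _ (s1 b))) _ (mul_mem (s1 b) (m _ (s1 a))),
      P.mul _ (s1 a) _ (m _ (s1 b)), P.mul _ (s1 b) _ (m _ (s1 a)), s2, s2] at this

end Plc

theorem mem_Bl {t : Fin n → ℚ_[p]} : t ∈ Bl p n ↔ ∀ i, ‖t i‖ ≤ 1 := by
  rw [mem_closedBall_zero_iff, pi_norm_le_iff_of_nonneg zero_le_one]

theorem zero_Bl : (0 : Fin n → ℚ_[p]) ∈ Bl p n := mem_closedBall_self zero_le_one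

theorem Bl_nhds {t : Fin n → ℚ_[p]} (ht : t ∈ Bl p n) : Bl p n ∈ 𝓝 t :=
  (IsUltrametricDist.isOpen_closedBall _ one_ne_zero).mem_nhds ht

theorem ins_Bl (i : Fin (n + 1)) {t : Fin n → ℚ_[p]} (ht : t ∈ Bl p n) :
    (i.insertNth 0 t : Fin (n + 1) → ℚ_[p]) ∈ Bl p (n + 1) :=
  mem_Bl.2 ((Fin.forall_iff_succAbove i).2 ⟨by simp, fun l => by simpa using mem_Bl.1 ht l⟩)

/-- The inclusion of the face. -/
def insL (p : ℕ) [Fact p.Prime] (i : Fin (n + 1)) :
    (Fin n → ℚ_[p]) →L[ℚ_[p]] Fin (n + 1) → ℚ_[p] :=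
  ContinuousLinearMap.pi fun j => i.insertNth (α := fun _ => (Fin n → ℚ_[p]) →L[ℚ_[p]] ℚ_[p]) 0
    (fun l => ContinuousLinearMap.proj l) j

theorem insL_apply (i : Fin (n + 1)) (t : Fin n → ℚ_[p]) : insL p i t = i.insertNth 0 t :=
  funext ((Fin.forall_iff_succAbove i).2 ⟨by simp [insL], fun l => by simp [insL]⟩)

open MvPolynomial in
theorem X_dvd_of {i : Fin n} {q : MvPolynomial (Fin n) ℚ_[p]}
    (h : ∀ t ∈ Bl p n, t i = 0 → aeval t q = 0) : X i ∣ q := by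
  classical
  have h1 : ∀ q : MvPolynomial (Fin n) ℚ_[p], X i ∣ q - aeval (Function.update X i 0) q := by
    intro q
    induction q using MvPolynomial.induction_on with
    | C a => simp
    | add a b ha hb => rw [map_add, add_sub_add_comm]; exact dvd_add ha hb
    | mul_X a j ha =>
      rw [map_mul, aeval_X]
      by_cases e : j = i
      · subst e
        simp
      · rw [Function.update_of_ne e, ← sub_mul]
        exact ha.mul_right _
  have h2 : aeval (Function.update X i 0) q = (0 : MvPolynomial (Fin n) ℚ_[p]) := by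
    refine funext_set (fun _ => closedBall (0 : ℚ_[p]) 1) (fun _ => infinite_of_mem_nhds 0
      (closedBall_mem_nhds _ one_pos)) fun t ht => ?_
    have h3 : (fun j => aeval t (Function.update (X (R := ℚ_[p])) i 0 j)) = Function.update t i 0 :=
      funext fun j => by
        by_cases e : j = i
        · subst e
          simp
        · simp [Function.update_of_ne e]
    rw [map_zero, ← coe_aeval_eq_eval, RingHom.coe_coe, comp_aeval_apply, h3]
    refine h _ (mem_Bl.2 fun j => ?_) (Function.update_self _ _ _)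
    by_cases e : j = i
    · subst e
      simp
    · rw [Function.update_of_ne e]
      exact mem_closedBall_zero_iff.1 (ht j (mem_univ j))
  have h4 := h1 q
  rwa [h2, sub_zero] at h4

namespace Box

variable {b : Box p L (n + 1)} {P : Plc p L k} {i : Fin (n + 1)}

theorem On.at' (h : b.On P i) {t : Fin (n + 1) → ℚ_[p]} (ht : t ∈ Bl p (n + 1)) (h0 : t i = 0) :
    P.At (b.z i) (b.Φ t) := ⟨h t ht h0, b.zm t ht i, (b.sec t ht i).trans h0⟩

theorem On.at (h : b.On P i) {t : Fin n → ℚ_[p]} (ht : t ∈ Bl p n) :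
    P.At (b.z i) (b.Φ (i.insertNth 0 t)) := h.at' (ins_Bl i ht) (by simp)

theorem On.zm (h : b.On P i) (j : Fin (n + 1)) : b.z j ∈ P.O :=
  (h 0 zero_Bl rfl).le (b.zm 0 zero_Bl j)

open MvPolynomial in
theorem On.alg (h : b.On P i) (y : k) :
    IsAlgebraic (Algebra.adjoin ℚ_[p] (range fun l => P.π (b.z (i.succAbove l)))) y := by
  obtain ⟨g, hg, rfl⟩ := P.surj y
  obtain ⟨q, q0, q1⟩ := b.alg g
  let α : MvPolynomial (Fin (n + 1)) ℚ_[p] →ₐ[ℚ_[p]] Algebra.adjoin ℚ_[p] (range b.z) :=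
    aeval fun j => ⟨b.z j, Algebra.subset_adjoin ⟨j, rfl⟩⟩
  let ψ : MvPolynomial (Fin (n + 1)) ℚ_[p] →ₐ[ℚ_[p]] P.O := aeval fun j => ⟨b.z j, h.zm j⟩
  have e1 : (Algebra.adjoin ℚ_[p] (range b.z)).val.comp α = aeval b.z := algHom_ext fun j => by
    simp [α]
  have e2 : P.O.val.comp ψ = aeval b.z := algHom_ext fun j => by simp [ψ]
  have hα : Function.Surjective α := fun a => by
    obtain ⟨r, hr⟩ := (Algebra.adjoin_range_eq_range_aeval ℚ_[p] b.z).le a.2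
    exact ⟨r, Subtype.ext ((DFunLike.congr_fun e1 r).trans hr)⟩
  obtain ⟨q', rfl⟩ := Polynomial.map_surjective α.toRingHom hα q
  obtain ⟨e, q2, h1, rfl⟩ := WfDvdMonoid.max_power_factor' (a₀ := q') (x := Polynomial.C (X i))
    (fun e => q0 (by rw [e, Polynomial.map_zero])) fun e =>
      (X_prime (i := i)).not_isUnit (Polynomial.isUnit_C.1 e)
  have h2 : q2.eval₂ (aeval b.z : _ →ₐ[ℚ_[p]] L).toRingHom g = 0 := by
    rw [Polynomial.aeval_def, Polynomial.eval₂_map] at q1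
    have e3 : (algebraMap (Algebra.adjoin ℚ_[p] (range b.z)) L).comp α.toRingHom =
        (aeval b.z : _ →ₐ[ℚ_[p]] L).toRingHom := RingHom.ext fun a => DFunLike.congr_fun e1 a
    rw [e3, Polynomial.eval₂_mul, Polynomial.eval₂_pow, Polynomial.eval₂_C] at q1
    exact (mul_eq_zero.1 q1).resolve_left (pow_ne_zero _ (by simpa using b.z_ne i))
  have h3 : q2.eval₂ ψ.toRingHom ⟨g, hg⟩ = 0 := by
    refine Subtype.ext ?_
    have := Polynomial.hom_eval₂ q2 ψ.toRingHom P.O.val.toRingHom ⟨g, hg⟩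
    rw [show P.O.val.toRingHom.comp ψ.toRingHom = (aeval b.z : _ →ₐ[ℚ_[p]] L).toRingHom
      from RingHom.ext fun a => DFunLike.congr_fun e2 a]
      at this
    exact this.trans h2
  have hm : ∀ j, P.π (b.z j) ∈
      Algebra.adjoin ℚ_[p] (range fun l => P.π (b.z (i.succAbove l))) :=
    (Fin.forall_iff_succAbove i).2 ⟨(h 0 zero_Bl rfl).z0 ▸ zero_mem _,
      fun l => Algebra.subset_adjoin ⟨l, rfl⟩⟩
  let φ : MvPolynomial (Fin (n + 1)) ℚ_[p] →ₐ[ℚ_[p]]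
      Algebra.adjoin ℚ_[p] (range fun l => P.π (b.z (i.succAbove l))) :=
    aeval fun j => ⟨_, hm j⟩
  have e4 : (Subalgebra.val _).comp φ = P.πH.comp ψ := algHom_ext fun j => by
    simp [φ, ψ, Plc.πH]
  refine ⟨q2.map φ.toRingHom, fun e => h1 ((Polynomial.C_dvd_iff_dvd_coeff _ _).2 fun m =>
    X_dvd_of fun t ht t0 => ?_), ?_⟩
  · have a1 : φ (q2.coeff m) = 0 := by
      simpa using congrArg (Polynomial.coeff · m) e
    have a2 : P.π (aeval b.z (q2.coeff m)) = 0 := by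
      have := DFunLike.congr_fun e4 (q2.coeff m)
      rw [AlgHom.comp_apply, a1, map_zero] at this
      exact (congrArg P.π (DFunLike.congr_fun e2 _).symm).trans this.symm
    let χ : MvPolynomial (Fin (n + 1)) ℚ_[p] →ₐ[ℚ_[p]] (b.Φ t).O :=
      aeval fun j => ⟨b.z j, b.zm t ht j⟩
    have e5 : (b.Φ t).O.val.comp χ = aeval b.z := algHom_ext fun j => by simp [χ]
    have e6 : (b.Φ t).evH.comp χ = aeval t := algHom_ext fun j => by
      simpa [χ, Pt.evH] using b.sec t ht j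
    rw [← DFunLike.congr_fun e5] at a2
    exact (DFunLike.congr_fun e6 _).symm.trans ((h.at' ht t0).ne (b.z_ne i) (χ _).2 a2)
  · rw [Polynomial.aeval_def, Polynomial.eval₂_map]
    have := Polynomial.hom_eval₂ q2 ψ.toRingHom P.πH.toRingHom ⟨g, hg⟩
    rw [h3, map_zero, ← show (algebraMap _ k).comp φ.toRingHom = P.πH.toRingHom.comp ψ.toRingHom
      from RingHom.ext fun a => DFunLike.congr_fun e4 a] at this
    exact this.symm

open Classical in
/-- The points of the face. -/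
def On.Φ (h : b.On P i) (t : Fin n → ℚ_[p]) : Pt p k :=
  if ht : t ∈ Bl p n then (h.at ht).res (b.z_ne i) else (h.at zero_Bl).res (b.z_ne i)

theorem On.mem (h : b.On P i) {t : Fin n → ℚ_[p]} (ht : t ∈ Bl p n) {y : k} :
    y ∈ (h.Φ t).O ↔ ∃ g ∈ (b.Φ (i.insertNth 0 t)).O, P.π g = y := by
  rw [On.Φ, dif_pos ht]
  rfl

theorem On.ev (h : b.On P i) {t : Fin n → ℚ_[p]} (ht : t ∈ Bl p n) {g : L}
    (hg : g ∈ (b.Φ (i.insertNth 0 t)).O) :
    (h.Φ t).ev (P.π g) = (b.Φ (i.insertNth 0 t)).ev g := by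
  rw [On.Φ, dif_pos ht, Plc.At.res_ev _ _ hg]

theorem On.near (h : b.On P i) {t : Fin n → ℚ_[p]} (ht : t ∈ Bl p n) {g : L}
    (hg : g ∈ (b.Φ (i.insertNth 0 t)).O) : ∀ᶠ s in 𝓝 t, P.π g ∈ (h.Φ s).O ∧
      (b.Φ (insL p i s)).ev g = (h.Φ s).ev (P.π g) := by
  have h1 : Tendsto (fun s => b.Φ (insL p i s)) (𝓝 t) (𝓝 (b.Φ (i.insertNth 0 t))) :=
    (b.cont _ (ins_Bl i ht)).tendsto.comp (insL_apply i t ▸ (insL p i).continuous.tendsto t)
  filter_upwards [Bl_nhds ht, h1 (Pt.ev_mem hg)] with s hs h2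
  have h3 : g ∈ (b.Φ (i.insertNth 0 s)).O := insL_apply i s ▸ h2
  exact ⟨(h.mem hs).2 ⟨g, h3, rfl⟩, by rw [h.ev hs h3, insL_apply]⟩

theorem exists_face (b : Box p L (n + 1)) (P : Plc p L k) (i : Fin (n + 1)) (h : b.On P i) :
    ∃ f : Box p k n, b.IsFace P i f ∧
      ∀ l, ∀ g ∈ P.O, f.D l (P.π g) = P.π (b.D (i.succAbove l) g) := by
  choose E hE using fun l : Fin n => (h.at' zero_Bl rfl).der (D := b.D (i.succAbove l)) (b.z_ne i)
    (b.Dm 0 zero_Bl _) (by rw [b.dual, if_neg (i.succAbove_ne l)])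
  have sec : ∀ t ∈ Bl p n, ∀ l, (h.Φ t).ev (P.π (b.z (i.succAbove l))) = t l := fun t ht l => by
    rw [h.ev ht (b.zm _ (ins_Bl i ht) _), b.sec _ (ins_Bl i ht), Fin.insertNth_apply_succAbove]
  have zm : ∀ t ∈ Bl p n, ∀ l, P.π (b.z (i.succAbove l)) ∈ (h.Φ t).O := fun t ht l =>
    (h.mem ht).2 ⟨_, b.zm _ (ins_Bl i ht) _, rfl⟩
  have der : ∀ t ∈ Bl p n, ∀ g ∈ (h.Φ t).O, HasStrictFDerivAt (𝕜 := ℚ_[p])
      (fun s => (h.Φ s).ev g) (∑ l, (h.Φ t).ev (E l g) • ContinuousLinearMap.proj l) t := by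
    intro t ht y hy
    obtain ⟨g, hg, rfl⟩ := (h.mem ht).1 hy
    have h1 := b.der _ (ins_Bl i ht) g hg
    rw [← insL_apply] at h1
    refine ((h1.comp t (insL p i).hasStrictFDerivAt).congr_of_eventuallyEq
      ((h.near ht hg).mono fun _ e => e.2)).congr_fderiv (ContinuousLinearMap.ext fun s => ?_)
    simp only [ContinuousLinearMap.comp_apply, sum_apply, insL_apply,
      smul_apply, ContinuousLinearMap.proj_apply, add_apply, Fin.sum_univ_succAbove _ i,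
      Fin.insertNth_apply_same, Fin.insertNth_apply_succAbove, smul_zero, zero_add,
      hE _ g ((h.at ht).le hg), h.ev ht (b.Dm _ (ins_Bl i ht) _ g hg)]
  refine ⟨⟨fun l => P.π (b.z (i.succAbove l)), E, h.Φ, fun l m => ?_, h.alg, ?_, zm, sec,
    fun t ht l y hy => ?_, fun t ht y hy h0 => ?_, fun t ht => Pt.tendsto_iff.2 fun y hy => ?_,
    fun t ht => ?_, der⟩, ⟨h, fun _ => rfl, fun t ht _ => h.mem ht, fun t ht _ => h.ev ht⟩, hE⟩
  · rw [hE _ _ (h.zm _), b.dual]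
    simp only [Fin.succAbove_right_inj]
    split_ifs
    exacts [P.π_one, P.π_zero]
  · classical
    obtain ⟨A, ⟨s, rfl⟩, hA⟩ := b.fg
    have a0 : Algebra.adjoin ℚ_[p] (s : Set L) ≤ P.O :=
      (hA 0 zero_Bl).le.trans (h 0 zero_Bl rfl).le
    have a1 : ∀ g ∈ Algebra.adjoin ℚ_[p] (s : Set L),
        P.π g ∈ Algebra.adjoin ℚ_[p] ((s.image P.π : Finset k) : Set k) := fun g hg => by
      induction hg using Algebra.adjoin_induction with
      | mem g hg => exact Algebra.subset_adjoin (Finset.mem_image_of_mem _ hg)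
      | algebraMap r => exact P.cst r ▸ Subalgebra.algebraMap_mem _ r
      | add a c ha hc k1 k2 => exact P.add _ (a0 ha) _ (a0 hc) ▸ add_mem k1 k2
      | mul a c ha hc k1 k2 => exact P.mul _ (a0 ha) _ (a0 hc) ▸ mul_mem k1 k2
    refine ⟨_, ⟨s.image P.π, rfl⟩, fun t ht => ⟨Algebra.adjoin_le fun y hy => ?_, fun y hy => ?_⟩⟩
    · obtain ⟨g, hg, rfl⟩ := Finset.mem_image.1 hy
      exact (h.mem ht).2 ⟨g, (hA _ (ins_Bl i ht)).le (Algebra.subset_adjoin hg), rfl⟩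
    · obtain ⟨g, hg, rfl⟩ := (h.mem ht).1 hy
      obtain ⟨u, u1, u2, u3⟩ := (hA _ (ins_Bl i ht)).frac g hg
      exact ⟨_, a1 u u1, by rwa [h.ev ht (Pt.mem_of_ne u2)],
        P.mul _ (a0 u1) _ ((h.at ht).le hg) ▸ a1 _ u3⟩
  · obtain ⟨g, hg, rfl⟩ := (h.mem ht).1 hy
    exact (h.mem ht).2 ⟨_, b.Dm _ (ins_Bl i ht) _ g hg, (hE l g ((h.at ht).le hg)).symm⟩
  · obtain ⟨g, hg, rfl⟩ := (h.mem ht).1 hy
    rw [h.ev ht hg] at h0
    obtain ⟨c, c1, c2⟩ := b.mx _ (ins_Bl i ht) g hg h0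
    have c3 := fun j => (h.at ht).le (c1 j)
    have c4 := fun j r => sub_mem (h.zm j) (P.O.algebraMap_mem r)
    refine ⟨fun l => P.π (c (i.succAbove l)), fun l => (h.mem ht).2 ⟨_, c1 _, rfl⟩, ?_⟩
    rw [c2, P.π_sum _ fun j _ => mul_mem (c4 j _) (c3 j), Fin.sum_univ_succAbove _ i]
    simp only [P.mul _ (c4 _ _) _ (c3 _), P.mul _ (h.zm _) _ (c3 _),
      P.π_sub (h.zm _) (P.O.algebraMap_mem _), P.cst,
      Fin.insertNth_apply_same, Fin.insertNth_apply_succAbove, (h.at ht).z0, map_zero, sub_zero,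
      zero_mul, zero_add]
  · obtain ⟨g, hg, rfl⟩ := (h.mem ht).1 hy
    exact ⟨(h.near ht hg).mono fun _ e => e.1, (der t ht _ hy).continuousAt⟩
  · have hP := (h.at ht).frac
    have h1 : Tendsto (P.lift hP) (𝓝 (h.Φ t)) (𝓝 (b.Φ (i.insertNth 0 t))) :=
      Pt.tendsto_iff.2 fun g hg => by
        have a1 := (h.mem ht).2 ⟨g, hg, rfl⟩
        have a2 := (h.at ht).le hg
        simp only [P.lift_ev hP _ a2, ← h.ev ht hg]
        exact ⟨(Pt.ev_mem a1).mono fun _ e => ⟨a2, e⟩, Pt.contAt a1⟩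
    have h2 : Tendsto (fun x : Pt p k => fun l => x.ev (P.π (b.z (i.succAbove l))))
        (𝓝 (h.Φ t)) (𝓝 t) := tendsto_pi_nhds.2 fun l => sec t ht l ▸ Pt.contAt (zm t ht l)
    filter_upwards [h1 (b.opn _ (ins_Bl i ht)), h2 (Bl_nhds ht)] with x a1 a2 y hy
    obtain ⟨g, hg, rfl⟩ := (h.mem a2).1 hy
    have e : (i.insertNth 0 fun l => x.ev (P.π (b.z (i.succAbove l))) : Fin (n + 1) → ℚ_[p]) =
        fun j => (P.lift hP x).ev (b.z j) := funext ((Fin.forall_iff_succAbove i).2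
      ⟨by simp [P.lift_ev hP x (h.zm i), (h.at ht).z0, Pt.ev_zero],
        fun l => by simp [P.lift_ev hP x (h.zm _)]⟩)
    rw [e] at hg
    exact (a1 hg).2

end Box

end

end Pool.Agent.MP_5d9b3c_ag.P3K
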