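import Pool.Agent.MP_5d9b3c_ag.P3K.Cmp
import Pool.Agent.MP_5d9b3c_ag.P3K.Rst

/-! Monomial functions on boxes. -/

namespace Pool.Agent.MP_5d9b3c_ag.P3K

open Set Metric H72

variable {p : ℕ} [Fact p.Prime] {L k : Type} [Field L] [Algebra ℚ_[p] L] [Field k]
  [Algebra ℚ_[p] k] {n : ℕ}

theorem p_pos : (0 : ℝ) < p := zero_lt_one.trans one_lt_p

theorem zero_bl : (0 : Fin n → ℚ_[p]) ∈ Bl p n := mem_closedBall_self zero_le_one

theorem mem_bl {t : Fin n → ℚ_[p]} : t ∈ Bl p n ↔ ∀ l, ‖t l‖ ≤ 1 :=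
  mem_closedBall_zero_iff.trans (pi_norm_le_iff_of_nonneg zero_le_one)

namespace Plc

variable (P : Plc p L k) {g h : L}

theorem π_pow (hg : g ∈ P.O) (e : ℕ) : P.π (g ^ e) = P.π g ^ e := map_pow P.πH ⟨g, hg⟩ e

theorem π_zpow (hg : g ∈ P.O) (h0 : P.π g ≠ 0) (e : ℤ) :
    g ^ e ∈ P.O ∧ P.π (g ^ e) = P.π g ^ e := by
  rcases e with e | e
  · simpa using And.intro (pow_mem hg e) (P.π_pow hg e)
  · rw [zpow_negSucc, zpow_negSucc, ← inv_pow, P.π_pow (P.inv_mem _ hg h0), P.π_inv hg h0, inv_pow,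
      inv_pow, ← inv_pow]
    exact ⟨pow_mem (P.inv_mem _ hg h0) _, rfl⟩

theorem π_prod {ι : Type} (s : Finset ι) {g : ι → L} (hg : ∀ i ∈ s, g i ∈ P.O) :
    P.π (∏ i ∈ s, g i) = ∏ i ∈ s, P.π (g i) := by
  induction s using Finset.cons_induction with
  | empty => simpa using P.π_one
  | cons i s hi ih =>
    have h := fun j hj => hg j (Finset.mem_cons.2 (.inr hj))
    rw [Finset.prod_cons, Finset.prod_cons, P.mul _ (hg i (Finset.mem_cons_self _ _)) _
      (prod_mem h), ih h]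

end Plc

namespace Box

variable {b b₀ : Box p L n} {g g' : L} {m m' : ℤ} {A A' : Fin n → ℤ}

theorem Un.reg (h : b.Un g m) : b.Reg g := fun t ht => (h t ht).1

theorem Un.ne_zero (h : b.Un g m) : g ≠ 0 := Pt.ne_zero (h.ne zero_bl)

theorem Un.mul (h : b.Un g m) (h' : b.Un g' m') : b.Un (g * g') (m + m') := fun t ht =>
  ⟨mul_mem (h t ht).1 (h' t ht).1, by
    rw [Pt.ev_mul _ _ (h t ht).1 _ (h' t ht).1, norm_mul, (h t ht).2, (h' t ht).2, neg_add,
      zpow_add₀ p_pos.ne']⟩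

theorem Un.zpow (h : b.Un g m) (e : ℤ) : b.Un (g ^ e) (e * m) := fun t ht =>
  ⟨Pt.zpow_mem (h.ne ht) e, by
    rw [Pt.ev_zpow (h.ne ht), norm_zpow, (h t ht).2, ← zpow_mul, neg_mul, mul_comm]⟩

theorem Un.inv (h : b.Un g m) : b.Un g⁻¹ (-m) := by simpa using h.zpow (-1)

theorem Un.neg (h : b.Un g m) : b.Un (-g) m := fun t ht =>
  ⟨neg_mem (h t ht).1, by rw [Pt.ev_neg _ (h t ht).1, norm_neg, (h t ht).2]⟩

theorem un_cst (b : Box p L n) {c : ℚ_[p]} (hc : c ≠ 0) :
    b.Un (algebraMap ℚ_[p] L c) c.valuation := fun _ _ =>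
  ⟨Subalgebra.algebraMap_mem _ _, by rw [Pt.ev_alg, Padic.norm_eq_zpow_neg_valuation hc]⟩

theorem un_one (b : Box p L n) : b.Un 1 0 := by simpa using b.un_cst one_ne_zero

theorem un_p (b : Box p L n) : b.Un p 1 := by simpa using b.un_cst pp_ne

theorem Un.prod {ι : Type} (s : Finset ι) {g : ι → L} {m : ι → ℤ} (h : ∀ i ∈ s, b.Un (g i) (m i)) :
    b.Un (∏ i ∈ s, g i) (∑ i ∈ s, m i) := by
  induction s using Finset.cons_induction with
  | empty => simpa using b.un_one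
  | cons i s hi ih =>
    rw [Finset.prod_cons, Finset.sum_cons]
    exact (h i (Finset.mem_cons_self _ _)).mul (ih fun j hj => h j (Finset.mem_cons.2 (.inr hj)))

theorem Un.uniq (h : b.Un g m) (h' : b.Un g m') : m = m' :=
  neg_inj.1 (zpow_right_injective₀ p_pos one_lt_p.ne'
    ((h 0 zero_bl).2.symm.trans (h' 0 zero_bl).2))

theorem Un.over (h : b₀.Un g m) (ho : b.Over b₀) : b.Un g m := fun t ht => by
  obtain ⟨s, hs, e⟩ := ho t ht
  exact ⟨e (h s hs).1, by rw [Pt.ev_eq e (h s hs).1, (h s hs).2]⟩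

theorem Reg.over (h : b₀.Reg g) (ho : b.Over b₀) : b.Reg g := fun t ht =>
  (ho t ht).elim fun s hs => hs.2 (h s hs.1)

theorem mono_zero : b.Mono g m 0 ↔ b.Un g m := by simp [Mono]

theorem Un.mono (h : b.Un g m) : b.Mono g m 0 := mono_zero.2 h

theorem Mono.mul (h : b.Mono g m A) (h' : b.Mono g' m' A') : b.Mono (g * g') (m + m') (A + A') := by
  have := Un.mul h h'
  rw [div_mul_div_comm, ← Finset.prod_mul_distrib] at this
  simpa only [Mono, Pi.add_apply, zpow_add₀ (b.z_ne _)] using this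

theorem Mono.zpow (h : b.Mono g m A) (e : ℤ) : b.Mono (g ^ e) (e * m) (e • A) := by
  have := Un.zpow h e
  rw [div_zpow, ← Finset.prod_zpow] at this
  simpa only [Mono, Pi.smul_apply, smul_eq_mul, mul_comm e (A _), zpow_mul] using this

theorem Mono.pow (h : b.Mono g m A) (e : ℕ) : b.Mono (g ^ e) (e * m) ((e : ℤ) • A) := by
  simpa only [zpow_natCast] using h.zpow e

theorem Mono.inv (h : b.Mono g m A) : b.Mono g⁻¹ (-m) (-A) := by simpa using h.zpow (-1)

theorem Mono.div (h : b.Mono g m A) (h' : b.Mono g' m' A') : b.Mono (g / g') (m - m') (A - A') := by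
  simpa only [div_eq_mul_inv, sub_eq_add_neg] using h.mul h'.inv

theorem Mono.neg (h : b.Mono g m A) : b.Mono (-g) m A := by
  simpa only [Mono, neg_div] using Un.neg h

theorem mono_cst (b : Box p L n) {c : ℚ_[p]} (hc : c ≠ 0) :
    b.Mono (algebraMap ℚ_[p] L c) c.valuation 0 := (b.un_cst hc).mono

theorem mono_one (b : Box p L n) : b.Mono 1 0 0 := b.un_one.mono

theorem mono_mon (b : Box p L n) (A : Fin n → ℤ) : b.Mono (∏ l, b.z l ^ A l) 0 A := by
  rw [Mono, div_self (Finset.prod_ne_zero_iff.2 fun l _ => zpow_ne_zero _ (b.z_ne l))]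
  exact b.un_one

theorem mono_z (b : Box p L n) (i : Fin n) : b.Mono (b.z i) 0 (Pi.single i 1) := by
  simpa [Pi.single_apply] using b.mono_mon (Pi.single i 1)

theorem Mono.prod {ι : Type} (s : Finset ι) {g : ι → L} {m : ι → ℤ} {A : ι → Fin n → ℤ}
    (h : ∀ i ∈ s, b.Mono (g i) (m i) (A i)) :
    b.Mono (∏ i ∈ s, g i) (∑ i ∈ s, m i) (∑ i ∈ s, A i) := by
  induction s using Finset.cons_induction with
  | empty => simpa using b.mono_one
  | cons i s hi ih =>
    rw [Finset.prod_cons, Finset.sum_cons, Finset.sum_cons]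
    exact (h i (Finset.mem_cons_self _ _)).mul (ih fun j hj => h j (Finset.mem_cons.2 (.inr hj)))

theorem Mono.congr (h : b.Mono g m A) (e : m = m') (e' : A = A') : b.Mono g m' A' := e ▸ e' ▸ h

/-- A regular monomial has nonnegative exponents. -/
theorem Mono.nonneg (h : b.Mono g m A) (hr : b.Reg g) (l : Fin n) : 0 ≤ A l := by
  by_contra! hl
  let t : Fin n → ℚ_[p] := Function.update 1 l 0
  have ht : t ∈ Bl p n := mem_bl.2 fun i => by
    by_cases e : i = l <;> simp [t, e]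
  obtain ⟨e, he⟩ := Int.eq_ofNat_of_zero_le (neg_nonneg.2 hl.le)
  have h0 : ∀ i, (A + (e : ℤ) • Pi.single l 1 : Fin n → ℤ) i ≠ 0 → t i ≠ 0 := fun i hi => by
    by_cases k : i = l
    · exact (hi (by simp [k, ← he])).elim
    · simp [t, k]
  have := ((h.mul ((b.mono_z l).pow e)).ev ht h0).2
  rw [Pt.ev_mul _ _ (hr t ht) _ (pow_mem (b.zm t ht l) e), Pt.ev_pow _ (b.zm t ht l), b.sec t ht,
    show t l = 0 by simp [t], zero_pow (by omega), mul_zero, norm_zero] at this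
  refine mul_ne_zero (zpow_pos p_pos _).ne' (Finset.prod_ne_zero_iff.2 fun i _ => ?_) this.symm
  by_cases k : (A + (e : ℤ) • Pi.single l 1 : Fin n → ℤ) i = 0
  · rw [k, zpow_zero]
    exact one_ne_zero
  · exact zpow_ne_zero _ (norm_ne_zero_iff.2 (h0 i k))

theorem Mono.reg (h : b.Mono g m A) (hA : ∀ l, 0 ≤ A l) : b.Reg g := fun t ht => by
  have e : g = g / (∏ l, b.z l ^ A l) * ∏ l, b.z l ^ A l :=
    (div_mul_cancel₀ _ (b.mono_mon A).ne).symm
  rw [e]
  refine mul_mem (h t ht).1 (prod_mem fun l _ => ?_)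
  obtain ⟨e, he⟩ := Int.eq_ofNat_of_zero_le (hA l)
  rw [he, zpow_natCast]
  exact pow_mem (b.zm t ht l) e

theorem Mono.uniq (h : b.Mono g m A) (h' : b.Mono g m' A') : m = m' ∧ A = A' := by
  have k := h.div h'
  have k' := h'.div h
  rw [div_self h.ne] at k k'
  obtain rfl : A = A' := funext fun l => le_antisymm
    (sub_nonneg.1 (k'.nonneg b.un_one.reg l)) (sub_nonneg.1 (k.nonneg b.un_one.reg l))
  exact ⟨Un.uniq h h', rfl⟩

/-- A monomial on `b₀` is a monomial on a box over `b₀` where the coordinates are monomials. -/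
theorem Mono.over (h : b₀.Mono g m A) (ho : b.Over b₀) {μ : Fin n → ℤ} {B : Fin n → Fin n → ℤ}
    (hz : ∀ l, A l ≠ 0 → b.Mono (b₀.z l) (μ l) (B l)) :
    b.Mono g (m + ∑ l, A l * μ l) (∑ l, A l • B l) := by
  have := (Un.over h ho).mono.mul (Mono.prod Finset.univ (g := fun l => b₀.z l ^ A l)
    (m := fun l => A l * μ l) (A := fun l => A l • B l) fun l _ => by
      by_cases e : A l = 0
      · simpa [e] using b.mono_one
      · exact (hz l e).zpow _)
  rwa [div_mul_cancel₀ _ (b₀.mono_mon A).ne, zero_add] at this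

section Face

variable {b : Box p L (n + 1)} {P : Plc p L k} {i : Fin (n + 1)} {f : Box p k n}

theorem ins_bl (i : Fin (n + 1)) {t : Fin n → ℚ_[p]} (ht : t ∈ Bl p n) :
    (i.insertNth 0 t : Fin (n + 1) → ℚ_[p]) ∈ Bl p (n + 1) :=
  mem_bl.2 fun l => by
    refine Fin.succAboveCases i (by simp) (fun l => ?_) l
    simpa using mem_bl.1 ht l

theorem On.reg (h : b.On P i) (hg : b.Reg g) : g ∈ P.O :=
  (h 0 zero_bl rfl).le (hg 0 zero_bl)

theorem IsFace.reg (h : b.IsFace P i f) (hg : b.Reg g) : f.Reg (P.π g) := fun t ht =>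
  (h.O t ht _).2 ⟨g, hg _ (ins_bl i ht), rfl⟩

theorem IsFace.un (h : b.IsFace P i f) (hg : b.Un g m) : f.Un (P.π g) m := fun t ht =>
  ⟨h.reg hg.reg t ht, by rw [h.ev t ht _ (hg _ (ins_bl i ht)).1, (hg _ (ins_bl i ht)).2]⟩

/-- The restriction of a monomial to a face. -/
theorem IsFace.mono (h : b.IsFace P i f) {A : Fin (n + 1) → ℤ} (hg : b.Mono g m A) :
    g / b.z i ^ A i ∈ P.O ∧ f.Mono (P.π (g / b.z i ^ A i)) m fun l => A (i.succAbove l) := by
  have h1 : ∀ l, _ := fun l => P.π_zpow (h.on.reg fun t ht => b.zm t ht (i.succAbove l))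
    (h.z l ▸ f.z_ne l) (A (i.succAbove l))
  have e : g / b.z i ^ A i =
      g / (∏ l, b.z l ^ A l) * ∏ l, b.z (i.succAbove l) ^ A (i.succAbove l) := by
    rw [Fin.prod_univ_succAbove _ i, ← div_div, div_mul_cancel₀ _
      (Finset.prod_ne_zero_iff.2 fun l _ => zpow_ne_zero _ (b.z_ne _))]
  have h2 := h.on.reg (Un.reg hg)
  have h3 := prod_mem (t := Finset.univ) fun l _ => (h1 l).1
  rw [e, P.mul _ h2 _ h3, P.π_prod _ fun l _ => (h1 l).1]
  refine ⟨mul_mem h2 h3, ?_⟩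
  simpa only [(h1 _).2, ← h.z, add_zero, zero_add] using (h.un hg).mono.mul (f.mono_mon _)

end Face

end Box

end Pool.Agent.MP_5d9b3c_ag.P3K
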