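import Pool.Agent.MP_5d9b3c_ag.P3K.Spec
import Pool.Agent.MP_5d9b3c_ag.P3K.Mono

/-! The rows about places and faces. -/

namespace Pool.Agent.MP_5d9b3c_ag.P3K

open Set Metric

variable {p : ℕ} [Fact p.Prime] {L k : Type} [Field L] [Algebra ℚ_[p] L] [Field k]
  [Algebra ℚ_[p] k] {n : ℕ}

theorem Plc.At.div_mem {P : Plc p L k} {z g : L} {x : Pt p L} (h : P.At z x) (hg : g ∈ P.O)
    (e : P.π g = 0) : g / z ∈ P.O := by
  obtain ⟨s, h1, h2, h3⟩ := h.fr g hg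
  have h4 := h.dv _ h3 (by rw [P.mul _ (h.le h1) _ hg, e, mul_zero])
  have h0 : s ≠ 0 := fun e => h2 (e ▸ P.π_zero)
  have h5 : g / z = s⁻¹ * (s * g / z) := by rw [mul_div_assoc, inv_mul_cancel_left₀ h0]
  exact h5 ▸ mul_mem (P.inv_mem s (h.le h1) h2) (h.le h4)

theorem Plc.π_det (P : Plc p L k) {ι : Type} [Fintype ι] [DecidableEq ι] {M : Matrix ι ι L}
    (h : ∀ i j, M i j ∈ P.O) : M.det ∈ P.O ∧ P.π M.det = (M.map P.π).det := by
  let M' : Matrix ι ι P.O := fun i j => ⟨M i j, h i j⟩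
  have e : M.det = (M'.det : L) := (P.O.val.map_det M').symm
  rw [e]
  exact ⟨M'.det.2, P.πH.map_det M'⟩

namespace Box

theorem On.at0 {b : Box p L n} {P : Plc p L k} {i : Fin n} (h : b.On P i) :
    P.At (b.z i) (b.Φ 0) := ⟨h 0 zero_Bl rfl, b.zm 0 zero_Bl i, b.sec 0 zero_Bl i⟩

theorem On.der_mem {b : Box p L n} {P : Plc p L k} {i : Fin n} (h : b.On P i) (l : Fin n) {g : L}
    (hg : g ∈ P.O) : b.D l g ∈ P.O := h.at0.der_mem (b.Dm 0 zero_Bl l) hg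

theorem On.uniq {b : Box p L n} {P : Plc p L k} {i i' : Fin n} (h : b.On P i) (h' : b.On P i') :
    i = i' := by
  by_contra e
  have ht : (Pi.single i' 1 : Fin n → ℚ_[p]) ∈ Bl p n := mem_Bl.2 fun l => by
    by_cases e : l = i'
    · subst e
      simp
    · simp [Pi.single_eq_of_ne e]
  have h0 : (Pi.single i' 1 : Fin n → ℚ_[p]) i = 0 := Pi.single_eq_of_ne e _
  have h1 : P.At (b.z i) (b.Φ (Pi.single i' 1)) :=
    ⟨h _ ht h0, b.zm _ ht i, (b.sec _ ht i).trans h0⟩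
  have h2 := h1.ne (b.z_ne i) (b.zm _ ht i') h'.at0.z0
  rw [b.sec _ ht, Pi.single_eq_same] at h2
  exact one_ne_zero h2

variable {b b₀ : Box p L (n + 1)} {P : Plc p L k} {i i₀ : Fin (n + 1)} {f f₀ : Box p k n}

theorem IsFace.D (h : b.IsFace P i f) (l : Fin n) {g : L} (hg : g ∈ P.O) :
    f.D l (P.π g) = P.π (b.D (i.succAbove l) g) := by
  obtain ⟨E, hE⟩ := h.on.at0.der (D := b.D (i.succAbove l)) (b.z_ne i) (b.Dm 0 zero_Bl _)
    (by rw [b.dual, if_neg (i.succAbove_ne l)])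
  have := f.span (f.D l - E) fun m => by
    rw [Derivation.sub_apply, f.dual, h.z, hE _ (h.on.zm _), b.dual]
    simp only [Fin.succAbove_right_inj]
    split_ifs
    · rw [P.π_one, sub_self]
    · rw [P.π_zero, sub_self]
  rw [sub_eq_zero.1 this, hE g hg]

theorem IsFace.le_lift (h : b.IsFace P i f) (hP) {t : Fin n → ℚ_[p]} (ht : t ∈ Bl p n)
    {x : Pt p k} (hx : f.Φ t ≤ x) : b.Φ (i.insertNth 0 t) ≤ P.lift hP x := fun g hg =>
  ⟨(h.on.at ht).le hg, hx ((h.O t ht _).2 ⟨g, hg, rfl⟩)⟩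

/-- A point on the divisor that dominates a point of a box dominates a point of the face. -/
theorem IsFace.dom (h : b₀.IsFace P i₀ f₀) {s : Fin (n + 1) → ℚ_[p]} (hs : s ∈ Bl p (n + 1))
    {x : Pt p L} {z : L} (hx : P.At z x) (hz : z ≠ 0) (hle : b₀.Φ s ≤ x) :
    ∃ u ∈ Bl p n, s = i₀.insertNth 0 u := by
  refine ⟨fun l => s (i₀.succAbove l), mem_Bl.2 fun l => mem_Bl.1 hs _, ?_⟩
  have h1 : s i₀ = 0 := by
    rw [← b₀.sec s hs, ← Pt.ev_eq hle (b₀.zm s hs i₀)]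
    exact hx.ne hz (hle (b₀.zm s hs i₀)) h.on.at0.z0
  rw [← h1]
  exact (Fin.insertNth_self_removeNth i₀ s).symm

theorem IsFace.over (h : b.IsFace P i f) (h₀ : b₀.IsFace P i₀ f₀) (ho : b.Over b₀) :
    f.Over f₀ := fun t ht => by
  obtain ⟨s, hs, hle⟩ := ho _ (ins_Bl i ht)
  obtain ⟨u, hu, rfl⟩ := h₀.dom hs (h.on.at ht) (b.z_ne i) hle
  refine ⟨u, hu, fun y hy => ?_⟩
  obtain ⟨g, hg, rfl⟩ := (h₀.O u hu y).1 hy
  exact (h.O t ht _).2 ⟨g, hle hg, rfl⟩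

/-- The residue of a Jacobian determinant. -/
theorem IsFace.jac (h : b.IsFace P i f) (r : Fin (n + 1) → L) (i' : Fin (n + 1))
    (hr : ∀ l, r l ∈ P.O) (h0 : P.π (r i') = 0) : b.jac r ∈ P.O ∧ P.π (b.jac r) =
      (-1) ^ ((i : ℕ) + i') * P.π (r i' / b.z i) * f.jac fun l => P.π (r (i'.succAbove l)) := by
  obtain ⟨k1, k2⟩ := P.π_det (M := Matrix.of fun j l => b.D j (r l))
    fun j l => h.on.der_mem j (hr l)
  refine ⟨k1, k2.trans ?_⟩
  have h1 := h.on.at0.div_mem (hr i') h0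
  have h2 : P.π (b.D i (r i')) = P.π (r i' / b.z i) := by
    have := (b.D i).leibniz (b.z i) (r i' / b.z i)
    rw [mul_div_cancel₀ _ (b.z_ne i), b.dual, if_pos rfl, smul_eq_mul, smul_eq_mul, mul_one] at this
    rw [this, P.add _ (mul_mem (h.on.zm i) (h.on.der_mem i h1)) _ h1,
      P.mul _ (h.on.zm i) _ (h.on.der_mem i h1), h.on.at0.z0, zero_mul, zero_add]
  rw [Matrix.det_succ_column _ i', Fin.sum_univ_succAbove _ i, Finset.sum_eq_zero, add_zero]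
  · simp only [Matrix.map_apply, Matrix.of_apply, h2]
    refine congrArg _ (congrArg _ (Matrix.ext fun j l => ?_))
    exact (h.D j (hr _)).symm
  · intro j _
    simp only [Matrix.map_apply, Matrix.of_apply]
    rw [← h.D j (hr i'), h0, map_zero, mul_zero, zero_mul]

end Box

theorem rowPUL : RPUL := fun P hP =>
  ⟨P.lift hP, fun x => ⟨fun _ => Iff.rfl, fun _ hg => P.lift_ev hP x hg⟩⟩

theorem rowFD : RFD := fun b _ i h => ⟨fun l _ hg => h.der_mem l hg,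
  fun _ hg e => h.at0.div_mem hg e, fun l e =>
    h.at0.der (b.z_ne i) (b.Dm 0 zero_Bl l) (by rw [b.dual, if_neg e])⟩

theorem rowFA : RFA := fun _ _ _ h => h.alg

theorem rowRST : RRST := fun b P i h => (b.exists_face P i h).imp fun _ e => e.1

theorem rowFP : RFP where
  D h l _ hg := h.D l hg
  un h _ := ⟨fun hg => ⟨h.on.reg hg, h.reg hg⟩, fun _ hg => h.un hg⟩
  mono h hg := h.mono hg
  sep h hs a a' t ht s hs' _ h1 h2 := hs a a' _ (ins_Bl _ ht) _ (ins_Bl _ hs') _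
    ((h a).le_lift (h a).on.at0.frac ht h1) ((h a').le_lift _ hs' h2)
  one h h' := h.uniq h'
  dom h h₀ ho := h.over h₀ ho
  rsd r i' h hr h0 := h.jac r i' hr h0

end Pool.Agent.MP_5d9b3c_ag.P3K
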