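import Pool.Agent.MP_5d9b3c_ag.H48G.Meas

/-! Change of variables for measurable sets. -/

namespace Pool.Agent.MP_5d9b3c_ag.P3K

open Set Metric MeasureTheory MeasureTheory.Measure Topology H72 H48G Filter
open scoped ENNReal

variable {p : ℕ} [hp : Fact p.Prime] {N : ℕ}

theorem basis_co : TopologicalSpace.IsTopologicalBasis
    {T : Set (Fin N → ℚ_[p]) | IsCompact T ∧ IsOpen T} :=
  TopologicalSpace.isTopologicalBasis_of_isOpen_of_nhds (fun _ h => h.2) fun a u ha hu => by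
    obtain ⟨ε, e1, e2⟩ := nhds_basis_closedBall.mem_iff.1 (hu.mem_nhds ha)
    exact ⟨closedBall a ε, ⟨isCompact_closedBall _ _, IsUltrametricDist.isOpen_closedBall _ e1.ne'⟩,
      mem_closedBall_self e1.le, e2⟩

/-- Two measures that agree on the compact open subsets of a compact open set. -/
theorem ext_co {μ ν : Measure (Fin N → ℚ_[p])} {C : Set (Fin N → ℚ_[p])} (h1 : IsCompact C)
    (h2 : IsOpen C) (hf : μ C ≠ ∞) (h : ∀ T ⊆ C, IsCompact T → IsOpen T → μ T = ν T) :
    μ.restrict C = ν.restrict C := by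
  have : IsFiniteMeasure (μ.restrict C) := ⟨by rw [restrict_apply_univ]; exact hf.lt_top⟩
  refine ext_of_generate_finite _ (BorelSpace.measurable_eq.trans
    basis_co.borel_eq_generateFrom) (fun s hs t ht _ => ⟨hs.1.inter ht.1, hs.2.inter ht.2⟩)
    (fun T hT => ?_) (by rw [restrict_apply_univ, restrict_apply_univ, h C le_rfl h1 h2])
  rw [restrict_apply hT.2.measurableSet, restrict_apply hT.2.measurableSet]
  exact h _ inter_subset_right (hT.1.inter h1) (hT.2.inter h2)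

/-- Two measures that agree locally on an open set. -/
theorem ext_loc {μ ν : Measure (Fin N → ℚ_[p])} {U : Set (Fin N → ℚ_[p])}
    (h : ∀ t ∈ U, ∃ C ∈ 𝓝 t, μ.restrict C = ν.restrict C) : μ.restrict U = ν.restrict U := by
  choose! C c1 c2 using h
  obtain ⟨s, s1, s2, s3⟩ := TopologicalSpace.countable_cover_nhdsWithin
    (f := C) (s := U) fun t ht => mem_nhdsWithin_of_mem_nhds (c1 t ht)
  exact restrict_congr_mono s3 ((restrict_biUnion_congr s2).2 fun t ht => c2 t (s1 ht))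

/-- Change of variables. -/
theorem cvS {Θ : (Fin N → ℚ_[p]) → Fin N → ℚ_[p]} {U : Set (Fin N → ℚ_[p])} (hU : IsOpen U)
    (h3 : InjOn Θ U) {δ : (Fin N → ℚ_[p]) → ℝ≥0∞} (h4 : ∀ t ∈ U, δ t ≠ 0)
    (h6 : ∀ t ∈ U, ∀ᶠ s in 𝓝 t, δ s = δ t)
    (h5 : ∀ t ∈ U, ∃ A, HasStrictFDerivAt (𝕜 := ℚ_[p]) Θ A t ∧ ‖A.det‖ₑ = δ t)
    {S : Set (Fin N → ℚ_[p])} (hS : MeasurableSet S) (hSU : S ⊆ U) :
    mN p N (Θ '' S) = ∫⁻ t in S, δ t ∂mN p N := by
  have hc : ContinuousOn Θ U := fun t ht =>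
    (h5 t ht).elim fun _ h => h.1.continuousAt.continuousWithinAt
  have he : MeasurableEmbedding (U.domRestrict Θ) := hc.measurableEmbedding hU.measurableSet h3
  let μ : Measure (Fin N → ℚ_[p]) := ((mN p N).comap (U.domRestrict Θ)).map Subtype.val
  have hμ : ∀ T, MeasurableSet T → T ⊆ U → μ T = mN p N (Θ '' T) := fun T hT h => by
    rw [Measure.map_apply measurable_subtype_coe hT, he.comap_apply, image_domRestrict,
      inter_eq_left.2 h]
  have key : μ.restrict U = ((mN p N).withDensity δ).restrict U := ext_loc fun t ht => by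
    obtain ⟨C, c1, c2, c3⟩ := basis_co.mem_nhds_iff.1 (inter_mem (hU.mem_nhds ht) (h6 t ht))
    have k : ∀ T ⊆ C, IsCompact T → IsOpen T → μ T = δ t * mN p N T := fun T hT t1 t2 => by
      rw [hμ T t2.measurableSet fun x hx => (c3 (hT hx)).1]
      refine cv t1 t2 (h3.mono fun x hx => (c3 (hT hx)).1) (h4 t ht) fun x hx => ?_
      rw [← show δ x = δ t from (c3 (hT hx)).2]
      exact h5 x (c3 (hT hx)).1
    refine ⟨C, c1.2.mem_nhds c2, ext_co c1.1 c1.2 ?_ fun T hT t1 t2 => ?_⟩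
    · rw [k C le_rfl c1.1 c1.2]
      obtain ⟨A, -, hA⟩ := h5 t ht
      exact ENNReal.mul_ne_top (hA ▸ enorm_ne_top) c1.1.measure_lt_top.ne
    · rw [k T hT t1 t2, withDensity_apply _ t2.measurableSet,
        setLIntegral_congr_fun t2.measurableSet fun x hx => (c3 (hT hx)).2, setLIntegral_const]
  rw [← hμ S hS hSU, ← withDensity_apply _ hS, ← restrict_eq_self μ hSU, key, restrict_eq_self _ hSU]

end Pool.Agent.MP_5d9b3c_ag.P3K
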