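import Pool.Agent.MP_5d9b3c_ag.P3K.Frm
import Pool.Agent.MP_5d9b3c_ag.P3K.Cv

/-! The volume does not depend on the family of boxes. -/

namespace Pool.Agent.MP_5d9b3c_ag.P3K

open Set Metric MeasureTheory MeasureTheory.Measure Topology Filter H72 H48G
open scoped ENNReal

variable {p : ℕ} [Fact p.Prime] {L : Type} [Field L] [Algebra ℚ_[p] L] {n : ℕ}

/-- Change of variables for integrals. -/
theorem cvL {Θ : (Fin n → ℚ_[p]) → Fin n → ℚ_[p]} {U : Set (Fin n → ℚ_[p])} (hU : IsOpen U)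
    (h3 : InjOn Θ U) {δ : (Fin n → ℚ_[p]) → ℝ≥0∞} (h4 : ∀ t ∈ U, δ t ≠ 0)
    (h6 : ∀ t ∈ U, ∀ᶠ s in 𝓝 t, δ s = δ t)
    (h5 : ∀ t ∈ U, ∃ A, HasStrictFDerivAt (𝕜 := ℚ_[p]) Θ A t ∧ ‖A.det‖ₑ = δ t)
    (F : (Fin n → ℚ_[p]) → ℝ≥0∞) :
    ∫⁻ s in Θ '' U, F s ∂mN p n = ∫⁻ t in U, δ t * F (Θ t) ∂mN p n := by
  have hm := hU.measurableSet
  have hc : ContinuousOn Θ U := fun t ht =>
    (h5 t ht).elim fun _ h => h.1.continuousAt.continuousWithinAt
  have he : MeasurableEmbedding (U.domRestrict Θ) := hc.measurableEmbedding hm h3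
  have hv := MeasurableEmbedding.subtype_coe hm
  have key : (mN p n).comap (U.domRestrict Θ) = ((mN p n).withDensity δ).comap Subtype.val :=
    Measure.ext fun T hT => by
      rw [he.comap_apply, hv.comap_apply, withDensity_apply _ (hv.measurableSet_image.2 hT),
        ← cvS hU h3 h4 h6 h5 (hv.measurableSet_image.2 hT) (Subtype.coe_image_subset _ _),
        image_image]
      rfl
  rw [← range_domRestrict, ← he.map_comap, he.lintegral_map, key]
  refine (lintegral_subtype_comap hm fun t => F (Θ t)).trans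
    (setLIntegral_withDensity_eq_setLIntegral_mul_non_measurable₀ _ (ContinuousOn.aemeasurable
      (fun t ht => (continuousAt_const.congr (EventuallyEq.symm (h6 t ht))).continuousWithinAt) hm)
      _ hm ((ae_restrict_mem hm).mono fun t ht => ?_))
  obtain ⟨A, -, hA⟩ := h5 t ht
  exact hA ▸ enorm_lt_top

theorem der_zero {F : Type} [Field F] [CharZero F] [Algebra F L] {R : Subalgebra F L}
    (X : Derivation F L L) (hX : ∀ a ∈ R, X a = 0) {g : L} (hg : IsAlgebraic R g) : X g = 0 := by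
  by_contra h0
  have h1 : ∀ P : Polynomial R, X (Polynomial.aeval g P) =
      Polynomial.aeval g (Polynomial.derivative P) * X g := fun P => by
    induction P using Polynomial.induction_on' with
    | add P Q hP hQ => simp only [map_add, hP, hQ, add_mul]
    | monomial e a =>
      rw [Polynomial.derivative_monomial, Polynomial.aeval_monomial, Polynomial.aeval_monomial,
        X.leibniz, X.leibniz_pow, show X (algebraMap R L a) = 0 from hX _ a.2, map_mul, map_natCast]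
      simp only [smul_eq_mul, nsmul_eq_mul]
      ring
  obtain ⟨P, hP, e⟩ := hg
  have : CharZero R := charZero_of_injective_algebraMap (algebraMap F R).injective
  induction hd : P.natDegree using Nat.strong_induction_on generalizing P with
  | _ d ih =>
    by_cases k : P.natDegree = 0
    · rw [Polynomial.eq_C_of_natDegree_eq_zero k, Polynomial.aeval_C] at e
      exact hP (by rw [Polynomial.eq_C_of_natDegree_eq_zero k, show P.coeff 0 = 0 from
        Subtype.ext e, map_zero])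
    · refine ih _ (hd ▸ Polynomial.natDegree_derivative_lt k) _
        (fun e' => k (Polynomial.natDegree_eq_zero_of_derivative_eq_zero e')) ?_ rfl
      have := h1 P
      rw [e, map_zero] at this
      exact (mul_eq_zero.1 this.symm).resolve_right h0

namespace Box

variable (b b' : Box p L n)

theorem span (X : Derivation ℚ_[p] L L) (h : ∀ i, X (b.z i) = 0) : X = 0 :=
  Derivation.ext fun g => der_zero X (fun a ha => by
    induction ha using Algebra.adjoin_induction with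
    | mem _ k => exact k.elim fun i e => e ▸ h i
    | algebraMap c => exact X.map_algebraMap c
    | add _ _ _ _ k k' => rw [map_add, k, k', add_zero]
    | mul _ _ _ _ k k' => rw [X.leibniz, k, k', smul_zero, smul_zero, add_zero]) (b.alg g)

theorem der_eq (X : Derivation ℚ_[p] L L) (g : L) : X g = ∑ i, X (b.z i) * b.D i g := by
  have e : ∀ g, (∑ i, X (b.z i) • b.D i) g = ∑ i, X (b.z i) * b.D i g := fun g => by
    induction (Finset.univ : Finset (Fin n)) using Finset.cons_induction with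
    | empty => simp
    | cons i s hi ih => rw [Finset.sum_cons, Finset.sum_cons, Derivation.add_apply, ih]; rfl
  have := b.span (X - ∑ i, X (b.z i) • b.D i) fun i => by
    rw [Derivation.sub_apply, e]
    simp [b.dual]
  rw [sub_eq_zero.1 this, e, ← sub_eq_zero.1 this]

/-- The chain rule. -/
theorem jac_chain (r : Fin n → L) : b.jac r = b.jac b'.z * b'.jac r := by
  rw [jac, jac, jac, ← Matrix.det_mul]
  exact congrArg _ (Matrix.ext fun i l => b'.der_eq (b.D i) (r l))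

theorem jac_self : b.jac b.z = 1 := by
  rw [jac, ← Matrix.det_one (n := Fin n)]
  exact congrArg _ (Matrix.ext fun i l => b.dual i l)

theorem jac_mem {t : Fin n → ℚ_[p]} (ht : t ∈ Bl p n) {r : Fin n → L}
    (h : ∀ l, r l ∈ (b.Φ t).O) : b.jac r ∈ (b.Φ t).O :=
  (Pt.ev_det fun i l => b.Dm t ht i _ (h l)).1

/-- The derivative of a family of functions. -/
theorem der_fam {t : Fin n → ℚ_[p]} (ht : t ∈ Bl p n) {r : Fin n → L}
    (h : ∀ l, r l ∈ (b.Φ t).O) : ∃ A, HasStrictFDerivAt (𝕜 := ℚ_[p])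
      (fun s l => (b.Φ s).ev (r l)) A t ∧ A.det = (b.Φ t).ev (b.jac r) := by
  refine ⟨_, hasStrictFDerivAt_pi.2 fun l => b.der t ht _ (h l), ?_⟩
  rw [jac, (Pt.ev_det (M := Matrix.of fun i l => b.D i (r l)) fun i l => b.Dm t ht i _ (h l)).2,
    ← Matrix.det_transpose, ContinuousLinearMap.det, ← LinearMap.det_toMatrix']
  refine congrArg _ (Matrix.ext fun l i => ?_)
  simp [Pi.single_apply]

/-- The common part of two boxes. -/
def ov : Set (Fin n → ℚ_[p]) := {t ∈ Bl p n | ∃ s ∈ Bl p n, b'.Φ s = b.Φ t}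

theorem bl_nhds {t : Fin n → ℚ_[p]} (ht : t ∈ Bl p n) : Bl p n ∈ 𝓝 t :=
  (IsUltrametricDist.isOpen_closedBall _ one_ne_zero).mem_nhds ht

theorem tend {x : Pt p L} {s : Fin n → ℚ_[p]} (hs : s ∈ Bl p n) (h : b.Φ s ≤ x) :
    Tendsto (fun (y : Pt p L) i => y.ev (b.z i)) (𝓝 x) (𝓝 s) :=
  tendsto_pi_nhds.2 fun i => by
    have := Pt.contAt (h (b.zm s hs i))
    rwa [ContinuousAt, Pt.ev_eq h (b.zm s hs i), b.sec s hs] at this

theorem open_ov : IsOpen (b.ov b') := isOpen_iff_mem_nhds.2 fun t ⟨ht, s, hs, e⟩ => by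
  have h1 := b.cont t ht
  have h2 := (b'.tend hs e.le).comp h1
  have h3 := (b'.cont s hs).tendsto.comp h2
  rw [e] at h3
  filter_upwards [bl_nhds ht, h2 (bl_nhds hs), h1 (e ▸ b'.opn s hs), h3 (b.opn t ht),
    h3 (eventually_all.2 fun i => Pt.ev_mem (b.zm t ht i))] with u k1 k2 k3 k4 k5
  refine ⟨k1, _, k2, le_antisymm k3 (le_of_eq_of_le (congrArg b.Φ (funext fun i => ?_)) k4)⟩
  exact (b.sec u k1 i).symm.trans (Pt.ev_eq k3 (k5 i))

theorem ev_unit {x : Pt p L} {u g : L} (hu : x.ev u ≠ 0) : x.ev (u * g) = x.ev u * x.ev g := by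
  by_cases hg : g ∈ x.O
  · exact x.ev_mul _ (Pt.mem_of_ne hu) _ hg
  · rw [x.ev_out g hg, mul_zero, x.ev_out _ fun h => hg ?_]
    simpa [Pt.ne_zero hu] using mul_mem (Pt.inv_mem' hu) h

/-- Integrals over the common part. -/
theorem int_ov (j : L) (r : Fin n → L) (G : Pt p L → ℝ≥0∞) :
    ∫⁻ s in b'.ov b, G (b'.Φ s) * ‖(b'.Φ s).ev (j * b'.jac r)‖ₑ ∂mN p n =
      ∫⁻ t in b.ov b', G (b.Φ t) * ‖(b.Φ t).ev (j * b.jac r)‖ₑ ∂mN p n := by
  let Θ : (Fin n → ℚ_[p]) → Fin n → ℚ_[p] := fun t l => (b.Φ t).ev (b'.z l)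
  have h1 : ∀ t ∈ b.ov b', Θ t ∈ Bl p n ∧ b'.Φ (Θ t) = b.Φ t := fun t ⟨_, s, hs, e⟩ => by
    have : Θ t = s := funext fun l => by rw [← b'.sec s hs, e]
    exact this ▸ ⟨hs, e⟩
  have h2 : ∀ t ∈ b.ov b', ∀ l, b'.z l ∈ (b.Φ t).O := fun t ht l =>
    (h1 t ht).2 ▸ b'.zm _ (h1 t ht).1 l
  have h3 : ∀ t ∈ b.ov b', (b.Φ t).ev (b.jac b'.z) ≠ 0 := fun t ht h => by
    have := (b.Φ t).ev_mul _ (b.jac_mem ht.1 (h2 t ht)) _ ((h1 t ht).2 ▸ b'.jac_mem (h1 t ht).1
      fun l => (h1 t ht).2.symm ▸ b.zm t ht.1 l)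
    rw [← jac_chain, jac_self, h, zero_mul, Pt.ev_one] at this
    exact one_ne_zero this
  have h4 : b'.ov b = Θ '' b.ov b' := Set.ext fun s => ⟨fun ⟨hs, t, ht, e⟩ =>
    ⟨t, ⟨ht, s, hs, e.symm⟩, funext fun l => by rw [← b'.sec s hs, ← e]⟩, by
      rintro ⟨t, ht, rfl⟩
      exact ⟨(h1 t ht).1, t, ht.1, (h1 t ht).2.symm⟩⟩
  rw [h4, cvL (b.open_ov b') (δ := fun t => ‖(b.Φ t).ev (b.jac b'.z)‖ₑ) (fun t ht s hs e =>
    b.inj ht.1 hs.1 (by rw [← (h1 t ht).2, show Θ t = Θ s from e, (h1 s hs).2])) (fun t ht => by simpa using h3 t ht)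
    (fun t ht => ?_) fun t ht => (b.der_fam ht.1 (h2 t ht)).imp fun A h => ⟨h.1, by rw [h.2]⟩]
  · refine setLIntegral_congr_fun (b.open_ov b').measurableSet fun t ht => ?_
    rw [(h1 t ht).2, b.jac_chain b' r, mul_left_comm j, ev_unit (h3 t ht), enorm_mul, mul_left_comm]
  · refine (((Pt.contAt (b.jac_mem ht.1 (h2 t ht))).comp (b.cont t ht.1)).eventually
      (ball_mem_nhds _ (norm_pos_iff.2 (h3 t ht)))).mono fun s hs => ?_
    rw [← ofReal_norm, ← ofReal_norm]
    exact congrArg _ (norm_eq_of_lt (by rw [← dist_eq_norm]; exact hs))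

end Box

variable {ι ι' : Type} [Fintype ι] [Fintype ι'] {b : ι → Box p L n} {b' : ι' → Box p L n}

omit [Fintype ι] in
theorem int_split (hd : Dis b') (hs : Sb b b') (i : ι) (F : (Fin n → ℚ_[p]) → ℝ≥0∞) :
    ∫⁻ t in Bl p n, F t ∂mN p n = ∑ j, ∫⁻ t in (b i).ov (b' j), F t ∂mN p n := by
  have e : Bl p n =ᵐ[mN p n] ⋃ j, (b i).ov (b' j) := by
    filter_upwards [(ae_restrict_iff' isClosed_closedBall.measurableSet).1 (hs i)] with t ht
    exact propext ⟨fun h => (ht h).elim fun j k => mem_iUnion.2 ⟨j, h, k⟩,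
      fun h => (mem_iUnion.1 h).elim fun j k => k.1⟩
  rw [setLIntegral_congr e, lintegral_iUnion (fun j => (Box.open_ov _ _).measurableSet)
    fun j j' h => Set.disjoint_left.2 fun t ⟨_, s, k1, k2⟩ ⟨_, s', k3, k4⟩ =>
      h (hd j j' s k1 s' k3 (k2.trans k4.symm)), tsum_fintype]

/-- Equivalent families give the same integrals. -/
theorem cmp_int (hd : Dis b) (hd' : Dis b') (he : Eqv b b') (j : L) (r : Fin n → L)
    (G : Pt p L → ℝ≥0∞) :
    ∑ i, ∫⁻ t in Bl p n, G ((b i).Φ t) * ‖((b i).Φ t).ev (j * (b i).jac r)‖ₑ ∂mN p n =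
      ∑ i, ∫⁻ t in Bl p n, G ((b' i).Φ t) * ‖((b' i).Φ t).ev (j * (b' i).jac r)‖ₑ ∂mN p n := by
  rw [Finset.sum_congr rfl fun i _ => int_split hd' he.1 i _,
    Finset.sum_congr rfl fun i _ => int_split hd he.2 i _, Finset.sum_comm]
  exact Finset.sum_congr rfl fun _ _ => Finset.sum_congr rfl fun _ _ => Box.int_ov _ _ j r G

/-- Equivalent families give the same volumes. -/
theorem cmp (hd : Dis b) (hd' : Dis b') (he : Eqv b b') (j : L) (r : Fin n → L)
    {S : Set (Pt p L)} (hS : ∀ c : Box p L n, NullMeasurableSet (Bl p n ∩ c.Φ ⁻¹' S) (mN p n)) :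
    ∑ i, (b i).vol j r S = ∑ i, (b' i).vol j r S := by
  have e : ∀ c : Box p L n, c.vol j r S = ∫⁻ t in Bl p n,
      S.indicator 1 (c.Φ t) * ‖(c.Φ t).ev (j * c.jac r)‖ₑ ∂mN p n := fun c => by
    rw [c.vol_eq j r (hS c)]
    refine lintegral_congr fun t => ?_
    by_cases h : c.Φ t ∈ S <;> simp [h]
  simp only [e]
  exact cmp_int hd hd' he j r _

/-- Equivalent adapted families have the same value. -/
theorem pv {I K : Type} [Fintype I] [CommRing K] [Algebra ℂ K] {j : L} {r : Fin n → L} {h : I → L}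
    {χ : I → Kˣ} {d : ι → MD I n} {d' : ι' → MD I n} (hd : Dis b) (hd' : Dis b') (he : Eqv b b')
    (h1 : Fit b j r h χ d) (h2 : Fit b' j r h χ d') :
    ∑ i, (d i).val p χ = ∑ i, (d' i).val p χ :=
  lat (fun i => (h1 i).2) (fun i => (h2 i).2) fun a => by
    simp only [← frm (h1 _).1, ← frm (h2 _).1]
    exact cmp hd hd' he j r fun c => (c.open_Lv h a).measurableSet.nullMeasurableSet

end Pool.Agent.MP_5d9b3c_ag.P3K
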