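import Pool.Agent.MP_5d9b3c_ag.P3K.Spec

/-! Limits of ultrafilters and the valuative criterion of compactness. -/

namespace Pool.Agent.MP_5d9b3c_ag.P3K

open Set Metric MeasureTheory Topology Filter H48G

noncomputable section

namespace CPT

variable {p : ℕ} [Fact p.Prime] {L : Type} [Field L] [Algebra ℚ_[p] L] {n : ℕ}
  {F : Filter (Pt p L)} {f g : L}

theorem bd_of {a : ℚ_[p]} (h : ∀ᶠ y in F, g ∈ y.O) (h' : Tendsto (fun y => y.ev g) F (𝓝 a)) :
    Bd F g :=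
  ⟨‖a‖ + 1, h.and (h'.norm.eventually (Iic_mem_nhds (lt_add_one _)))⟩

theorem Bd.mem (h : Bd F g) : ∀ᶠ y in F, g ∈ y.O := h.choose_spec.mono fun _ x => x.1

theorem Bd.lim {F : Ultrafilter (Pt p L)} (h : Bd (F : Filter (Pt p L)) g) :
    ∃ a, Tendsto (fun y : Pt p L => y.ev g) F (𝓝 a) := by
  obtain ⟨M, h⟩ := h
  obtain ⟨a, -, ha⟩ := (isCompact_closedBall (0 : ℚ_[p]) M).ultrafilter_le_nhds
    (F.map fun y => y.ev g) (le_principal_iff.2 (h.mono fun _ x => mem_closedBall_zero_iff.2 x.2))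
  exact ⟨a, ha⟩

theorem t_add {a c : ℚ_[p]} (hf : Bd F f) (hg : Bd F g)
    (h : Tendsto (fun y => y.ev f) F (𝓝 a)) (h' : Tendsto (fun y => y.ev g) F (𝓝 c)) :
    Tendsto (fun y => y.ev (f + g)) F (𝓝 (a + c)) :=
  (h.add h').congr' ((Bd.mem hf).mp ((Bd.mem hg).mono fun y h1 h2 => (y.ev_add _ h2 _ h1).symm))

theorem t_mul {a c : ℚ_[p]} (hf : Bd F f) (hg : Bd F g)
    (h : Tendsto (fun y => y.ev f) F (𝓝 a)) (h' : Tendsto (fun y => y.ev g) F (𝓝 c)) :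
    Tendsto (fun y => y.ev (f * g)) F (𝓝 (a * c)) :=
  (h.mul h').congr' ((Bd.mem hf).mp ((Bd.mem hg).mono fun y h1 h2 => (y.ev_mul _ h2 _ h1).symm))

theorem t_alg (r : ℚ_[p]) :
    Tendsto (fun y : Pt p L => y.ev (algebraMap ℚ_[p] L r)) F (𝓝 r) := by
  simpa only [Pt.ev_alg] using tendsto_const_nhds

theorem bd_alg (r : ℚ_[p]) : Bd F (algebraMap ℚ_[p] L r) :=
  bd_of (.of_forall fun y => y.O.algebraMap_mem r) (t_alg r)

theorem bd_one : Bd F (1 : L) := by simpa using bd_alg (F := F) 1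

end CPT

open CPT in
theorem rULT : RULT := by
  intro p _ L _ _ F hF
  classical
  let e : L → ℚ_[p] := fun g => if h : Bd (F : Filter (Pt p L)) g then (Bd.lim h).choose else 0
  have he : ∀ {g}, Bd (F : Filter (Pt p L)) g → Tendsto (fun y : Pt p L => y.ev g) F (𝓝 (e g)) :=
    fun {g} h => by simpa only [e, dif_pos h] using (Bd.lim h).choose_spec
  have ha : ∀ {f g}, Bd (F : Filter (Pt p L)) f → Bd (F : Filter (Pt p L)) g →
      Bd (F : Filter (Pt p L)) (f + g) := fun hf hg =>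
    bd_of ((Bd.mem hf).mp ((Bd.mem hg).mono fun _ h1 h2 => add_mem h2 h1))
      (t_add hf hg (he hf) (he hg))
  have hm : ∀ {f g}, Bd (F : Filter (Pt p L)) f → Bd (F : Filter (Pt p L)) g →
      Bd (F : Filter (Pt p L)) (f * g) := fun hf hg =>
    bd_of ((Bd.mem hf).mp ((Bd.mem hg).mono fun _ h1 h2 => mul_mem h2 h1))
      (t_mul hf hg (he hf) (he hg))
  let w : Pt p L :=
    { O := { carrier := {g | Bd (F : Filter (Pt p L)) g}
             mul_mem' := hm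
             add_mem' := ha
             algebraMap_mem' := bd_alg }
      ev := e
      ev_add := fun f hf g hg =>
        tendsto_nhds_unique (he (ha hf hg)) (t_add hf hg (he hf) (he hg))
      ev_mul := fun f hf g hg =>
        tendsto_nhds_unique (he (hm hf hg)) (t_mul hf hg (he hf) (he hg))
      ev_alg := fun r => tendsto_nhds_unique (he (bd_alg r)) (t_alg r)
      ev_out := fun f hf => dif_neg hf
      inv_mem := fun f hf h0 => by
        have := (he hf).eventually_ne h0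
        exact bd_of (this.mono fun _ => Pt.inv_mem')
          (((he hf).inv₀ h0).congr' (this.mono fun _ x => (Pt.ev_inv x).symm))
      fr := fun g => (hF g).imp fun _ h => ⟨h.2.1, h.1, h.2.2⟩ }
  exact ⟨w, fun _ => Iff.rfl, Pt.tendsto_iff.2 fun g hg => ⟨Bd.mem hg, he hg⟩⟩

namespace CPT

variable {p : ℕ} [Fact p.Prime] {L : Type} [Field L] [Algebra ℚ_[p] L] {n : ℕ} {x y : Pt p L}
  {K C : Set (Pt p L)}

theorem bd_nhds {F : Filter (Pt p L)} (h : F ≤ 𝓝 x) {g : L} (hg : g ∈ x.O) : Bd F g :=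
  bd_of (h (Pt.ev_mem hg)) ((Pt.contAt hg).tendsto.mono_left h)

/-- Points that cannot be separated are dominated by a common point. -/
theorem t2 (h : (𝓝 x ⊓ 𝓝 y).NeBot) : ∃ w, x ≤ w ∧ y ≤ w := by
  have h1 : (Ultrafilter.of (𝓝 x ⊓ 𝓝 y) : Filter _) ≤ 𝓝 x := (Ultrafilter.of_le _).trans inf_le_left
  have h2 : (Ultrafilter.of (𝓝 x ⊓ 𝓝 y) : Filter _) ≤ 𝓝 y := (Ultrafilter.of_le _).trans inf_le_right
  obtain ⟨w, hw, -⟩ := rULT (Ultrafilter.of (𝓝 x ⊓ 𝓝 y)) fun g =>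
    (x.fr g).imp fun _ e => ⟨e.2.1, bd_nhds h1 e.1, bd_nhds h1 e.2.2⟩
  exact ⟨w, fun g hg => (hw g).2 (bd_nhds h1 hg), fun g hg => (hw g).2 (bd_nhds h2 hg)⟩

theorem eq_of (hK : SepS K) (hx : x ∈ K) (hy : y ∈ K) (h : (𝓝 x ⊓ 𝓝 y).NeBot) : x = y :=
  let ⟨w, h1, h2⟩ := t2 h
  hK x hx y hy w h1 h2

/-- A compact subset of a separated set is closed in it. -/
theorem closed (hK : SepS K) (hC : IsCompact C) (h : C ⊆ K) (hx : x ∈ K) (h' : x ∈ closure C) :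
    x ∈ C := by
  have : (𝓝 x ⊓ 𝓟 C).NeBot := mem_closure_iff_clusterPt.1 h'
  obtain ⟨y, hy, e⟩ := hC (f := 𝓝 x ⊓ 𝓟 C) inf_le_right
  exact eq_of hK (h hy) hx (e.mono inf_le_left) ▸ hy

theorem bl {t : Fin n → ℚ_[p]} (ht : t ∈ Bl p n) : Bl p n ∈ 𝓝 t :=
  (IsUltrametricDist.isOpen_closedBall _ one_ne_zero).mem_nhds ht

theorem img (b : Box p L n) {S : Set (Fin n → ℚ_[p])} (hS : IsCompact S) (h : S ⊆ Bl p n) :
    IsCompact (b.Φ '' S) :=
  hS.image_of_continuousOn fun t ht => (b.cont t (h ht)).continuousWithinAt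

/-- The image of a neighbourhood is a neighbourhood in `K`. -/
theorem nb (hK : SepS K) (b : Box p L n) (hb : ∀ t ∈ Bl p n, b.Φ t ∈ K) {t : Fin n → ℚ_[p]}
    (ht : t ∈ Bl p n) {S : Set (Fin n → ℚ_[p])} (hS : S ∈ 𝓝 t) :
    ∀ᶠ y in 𝓝 (b.Φ t), y ∈ K → y ∈ b.Φ '' S := by
  have h : Tendsto (fun (y : Pt p L) i => y.ev (b.z i)) (𝓝 (b.Φ t)) (𝓝 t) :=
    tendsto_pi_nhds.2 fun i => by
      have := (Pt.contAt (b.zm t ht i)).tendsto
      rwa [b.sec t ht] at this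
  filter_upwards [b.opn t ht, h hS, h (bl ht)] with y h1 h2 h3 hy
  exact ⟨_, h2, hK _ (hb _ h3) y hy y h1 le_rfl⟩

/-- The sets that contain almost all points of `K` in an open set of `U`. -/
def gen (n : ℕ) (K : Set (Pt p L)) (U : Filter (Pt p L)) : Filter (Pt p L) where
  sets := {S | ∃ V ∈ U, IsOpen V ∧ ∀ b : Box p L n, (∀ t ∈ Bl p n, b.Φ t ∈ K) →
    ∀ᵐ t ∂(mN p n).restrict (Bl p n), b.Φ t ∈ V → b.Φ t ∈ S}
  univ_sets := ⟨univ, univ_mem, isOpen_univ, fun _ _ => .of_forall fun _ _ => trivial⟩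
  sets_of_superset := fun ⟨V, h1, h2, h3⟩ h =>
    ⟨V, h1, h2, fun b hb => (h3 b hb).mono fun _ e e' => h (e e')⟩
  inter_sets := fun ⟨V, h1, h2, h3⟩ ⟨W, k1, k2, k3⟩ => ⟨V ∩ W, inter_mem h1 k1, h2.inter k2,
    fun b hb => (h3 b hb).mp ((k3 b hb).mono fun _ e e' x => ⟨e' x.1, e x.2⟩)⟩

end CPT

open CPT in
theorem rCPT (hN : RNUL) : RCPT := by
  intro p _ L _ _ n K X₀ hK hX hw hb
  refine isCompact_iff_ultrafilter_le_nhds.2 fun U hU => ?_
  have kU : K ∈ U := le_principal_iff.1 hU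
  have : (gen n K U).NeBot := by
    refine ⟨fun h => ?_⟩
    obtain ⟨V, h1, h2, h3⟩ := empty_mem_iff_bot.2 h
    obtain ⟨x, hx, hV⟩ := Filter.nonempty_of_mem (inter_mem kU h1)
    obtain ⟨b, ⟨t, ht, rfl⟩, b2⟩ := hb x hx
    have h4 := (ae_restrict_iff' measurableSet_closedBall).1 (h3 b b2)
    have h5 := inter_mem (bl ht) (b.cont t ht (h2.mem_nhds hV))
    refine (Measure.measure_pos_of_mem_nhds (mN p n) h5).ne' (measure_mono_null ?_ h4)
    exact fun s hs e => e hs.1 hs.2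
  have le := Ultrafilter.of_le (gen n K U)
  generalize Ultrafilter.of (gen n K U) = W at le
  have kW : K ∈ W := le ⟨univ, univ_mem, isOpen_univ, fun b hb =>
    (ae_restrict_mem measurableSet_closedBall).mono fun t ht _ => hb t ht⟩
  have val : ∀ g : L, Bd (W : Filter (Pt p L)) g ∨ Bd (W : Filter (Pt p L)) g⁻¹ := fun g => by
    by_cases g0 : g = 0
    · exact Or.inl (by simpa [g0] using bd_alg (F := (W : Filter (Pt p L))) 0)
    have h1 : ∀ᶠ y in (W : Filter (Pt p L)), y.ev g ≠ 0 :=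
      le ⟨univ, univ_mem, isOpen_univ, fun b _ => (hN b g g0).mono fun _ e _ => e⟩
    refine (W.em fun y => ‖y.ev g‖ ≤ 1).imp (fun h => ⟨1, (h1.mono fun _ => Pt.mem_of_ne).and h⟩)
      fun h => ⟨1, h1.mp (h.mono fun y e e' => ⟨Pt.inv_mem' e', ?_⟩)⟩
    rw [Pt.ev_inv e', norm_inv]
    exact inv_le_one_of_one_le₀ (not_le.1 e).le
  obtain ⟨w, w1, w2⟩ := rULT W fun g => by
    by_cases h : Bd (W : Filter (Pt p L)) g
    · exact ⟨1, one_ne_zero, bd_one, by rwa [one_mul]⟩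
    have g0 : g ≠ 0 := fun e => h ((val g).elim id fun x => by rwa [e, inv_zero, ← e] at x)
    exact ⟨g⁻¹, inv_ne_zero g0, (val g).resolve_left h, by
      rw [inv_mul_cancel₀ g0]; exact bd_one⟩
  obtain ⟨x, hx, xw⟩ := hw w (fun g => (val g).imp (w1 _).2 (w1 _).2) fun c hc => by
    have h1 : ∀ᶠ y in (W : Filter (Pt p L)), c ∈ y.O ∧ ‖y.ev c‖ ≤ 1 :=
      mem_of_superset kW fun y hy => hX y hy c hc
    have h2 := (w1 c).2 ⟨1, h1⟩
    exact ⟨h2, le_of_tendsto ((Pt.contAt h2).tendsto.mono_left w2).norm (h1.mono fun _ e => e.2)⟩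
  refine ⟨x, hx, fun N hN => ?_⟩
  obtain ⟨b, ⟨t, ht, rfl⟩, b2⟩ := hb x hx
  obtain ⟨S, s1, s2, s3⟩ := local_compact_nhds (inter_mem (bl ht) (b.cont t ht hN))
  have s4 : S ⊆ Bl p n := fun s hs => (s2 hs).1
  refine mem_of_superset (x := b.Φ '' S) ?_ (image_subset_iff.2 fun s hs => (s2 hs).2)
  by_contra h
  have h1 : (closure (b.Φ '' S))ᶜ ∈ U :=
    mem_of_superset (inter_mem kU (Ultrafilter.compl_mem_iff_notMem.2 h)) fun y hy e =>
      hy.2 (closed hK (img b s3 s4) (image_subset_iff.2 fun s hs => b2 s (s4 hs)) hy.1 e)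
  have h2 : (closure (b.Φ '' S))ᶜ ∈ W :=
    le ⟨_, h1, isClosed_closure.isOpen_compl, fun _ _ => .of_forall fun _ => id⟩
  obtain ⟨y, ⟨y1, y2⟩, y3⟩ := Filter.nonempty_of_mem
    (inter_mem (inter_mem kW h2) ((w2.trans (Pt.spec xw)) (nb hK b b2 ht s1)))
  exact y2 (subset_closure (y3 y1))

end

end Pool.Agent.MP_5d9b3c_ag.P3K
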