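import Pool.Agent.MP_5d9b3c_ag.P3K.Spec
import Pool.Agent.MP_5d9b3c_ag.P3X.Et

/-! An etale chart at a regular point. -/

namespace Pool.Agent.MP_5d9b3c_ag.P3K

open Set

namespace ET1

variable {p : ℕ} [Fact p.Prime] {L : Type} [Field L] [Algebra ℚ_[p] L] {n : ℕ}

/-- Adjoin the inverse of `u`. -/
noncomputable def Aw (A : Subalgebra ℚ_[p] L) (u : L) : Subalgebra ℚ_[p] L :=
  A ⊔ Algebra.adjoin ℚ_[p] {u⁻¹}

variable {A : Subalgebra ℚ_[p] L} {u : L} {x : Pt p L}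

theorem le_aw : A ≤ Aw A u := le_sup_left

theorem inv_aw : u⁻¹ ∈ Aw A u :=
  (le_sup_right : _ ≤ Aw A u) (Algebra.subset_adjoin (mem_singleton _))

theorem aw_le {S : Subalgebra ℚ_[p] L} (h : A ≤ S) (h' : u⁻¹ ∈ S) : Aw A u ≤ S :=
  sup_le h (Algebra.adjoin_le (singleton_subset_iff.2 h'))

theorem aw_fg (h : A.FG) : (Aw A u).FG :=
  h.sup (Subalgebra.fg_def.2 ⟨_, finite_singleton _, rfl⟩)

theorem aw_den (hu : u ∈ A) (h0 : u ≠ 0) {g : L} (hg : g ∈ Aw A u) : ∃ N : ℕ, u ^ N * g ∈ A := by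
  let S : Subalgebra ℚ_[p] L :=
    { carrier := {g | ∃ N : ℕ, u ^ N * g ∈ A}
      mul_mem' := fun {a b} ⟨N, h⟩ ⟨M, h'⟩ => ⟨N + M, by
        rw [show u ^ (N + M) * (a * b) = u ^ N * a * (u ^ M * b) by ring]
        exact mul_mem h h'⟩
      add_mem' := fun {a b} ⟨N, h⟩ ⟨M, h'⟩ => ⟨N + M, by
        rw [show u ^ (N + M) * (a + b) = u ^ M * (u ^ N * a) + u ^ N * (u ^ M * b) by ring]
        exact add_mem (mul_mem (pow_mem hu _) h) (mul_mem (pow_mem hu _) h')⟩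
      algebraMap_mem' := fun r => ⟨0, by
        rw [pow_zero, one_mul]
        exact A.algebraMap_mem r⟩ }
  refine aw_le (S := S) (fun a ha => ⟨0, ?_⟩) ⟨1, ?_⟩ hg
  · rwa [pow_zero, one_mul]
  · rw [pow_one, mul_inv_cancel₀ h0]
    exact one_mem _

theorem aw_loc (h : LocOf A x) (h0 : x.ev u ≠ 0) : LocOf (Aw A u) x where
  le := aw_le h.le (Pt.inv_mem' h0)
  frac g hg := by
    obtain ⟨s, h1, h2, h3⟩ := h.frac g hg
    exact ⟨s, le_aw h1, h2, le_aw h3⟩

theorem aw_back (hu : u ∈ A) (h0 : u ≠ 0) (h : LocOf (Aw A u) x) : LocOf A x where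
  le := le_aw.trans h.le
  frac g hg := by
    have hx : u ∈ x.O := h.le (le_aw hu)
    have he : x.ev u ≠ 0 := fun e => by
      have := x.ev_mul _ hx _ (h.le inv_aw)
      rw [mul_inv_cancel₀ h0, x.ev_one, e, zero_mul] at this
      exact one_ne_zero this
    obtain ⟨s, h1, h2, h3⟩ := h.frac g hg
    obtain ⟨N, hN⟩ := aw_den hu h0 h1
    obtain ⟨M, hM⟩ := aw_den hu h0 h3
    refine ⟨u ^ (N + M) * s, ?_, ?_, ?_⟩
    · rw [show u ^ (N + M) * s = u ^ M * (u ^ N * s) by ring]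
      exact mul_mem (pow_mem hu _) hN
    · rw [x.ev_mul _ (pow_mem hx _) _ (h.le h1), x.ev_pow hx]
      exact mul_ne_zero (pow_ne_zero _ he) h2
    · rw [show u ^ (N + M) * s * g = u ^ N * (u ^ M * (s * g)) by ring]
      exact mul_mem (pow_mem hu _) hM

/-- The elements of `B` with derivative in `B`. -/
def St (B : Subalgebra ℚ_[p] L) (D : Derivation ℚ_[p] L L) : Subalgebra ℚ_[p] L where
  carrier := {g | g ∈ B ∧ D g ∈ B}
  mul_mem' := fun {a b} h h' => ⟨mul_mem h.1 h'.1, by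
    rw [Derivation.leibniz, smul_eq_mul, smul_eq_mul]
    exact add_mem (mul_mem h.1 h'.2) (mul_mem h'.1 h.2)⟩
  add_mem' := fun {a b} h h' => ⟨add_mem h.1 h'.1, by
    rw [map_add]
    exact add_mem h.2 h'.2⟩
  algebraMap_mem' := fun r => ⟨B.algebraMap_mem r, by
    rw [Derivation.map_algebraMap]
    exact zero_mem _⟩

theorem aw_der (hu : u ∈ A) (D : Derivation ℚ_[p] L L) (h : ∀ g ∈ A, D g ∈ Aw A u) :
    ∀ g ∈ Aw A u, D g ∈ Aw A u := fun _ hg => by
  refine (aw_le (S := St (Aw A u) D) (fun a ha => ⟨le_aw ha, h a ha⟩) ⟨inv_aw, ?_⟩ hg).2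
  rw [Derivation.leibniz_inv, smul_eq_mul]
  exact mul_mem (neg_mem (pow_mem inv_aw 2)) (h u hu)

theorem common (h : LocOf A x) {S : Set L} (hS : S.Finite) (hx : ∀ g ∈ S, g ∈ x.O) :
    ∃ s ∈ A, x.ev s ≠ 0 ∧ ∀ g ∈ S, s * g ∈ A := by
  induction S, hS using Set.Finite.induction_on with
  | empty => exact ⟨1, one_mem _, by rw [x.ev_one]; exact one_ne_zero, fun _ hg => hg.elim⟩
  | @insert a S _ _ ih =>
    obtain ⟨s, h1, h2, h3⟩ := ih fun g hg => hx g (mem_insert_of_mem _ hg)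
    obtain ⟨t, k1, k2, k3⟩ := h.frac a (hx a (mem_insert _ _))
    refine ⟨s * t, mul_mem h1 k1, ?_, fun g hg => ?_⟩
    · rw [x.ev_mul _ (h.le h1) _ (h.le k1)]
      exact mul_ne_zero h2 k2
    · rcases hg with rfl | hg
      · rw [mul_assoc]
        exact mul_mem h1 k3
      · rw [mul_comm s t, mul_assoc]
        exact mul_mem k1 (h3 g hg)

/-- The restriction of a derivation. -/
noncomputable def res (B : Subalgebra ℚ_[p] L) (D : Derivation ℚ_[p] L L) (h : ∀ g ∈ B, D g ∈ B) :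
    Derivation ℚ_[p] B B where
  toFun g := ⟨D g, h g g.2⟩
  map_add' a b := Subtype.ext (map_add D (a : L) b)
  map_smul' c a := Subtype.ext (D.map_smul c (a : L))
  map_one_eq_zero' := Subtype.ext D.map_one_eq_zero
  leibniz' a b := Subtype.ext (D.leibniz (a : L) b)

theorem eta (t : A) (h0 : (t : L) ≠ 0) (z : Fin n → L) (hz : ∀ i, z i ∈ A)
    (h : ((algebraMap A (Localization.Away t)).comp
      (MvPolynomial.aeval (R := ℚ_[p]) fun i => (⟨z i, hz i⟩ : A)).toRingHom).Etale) :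
    Eta (Aw A t) z := by
  let : Algebra A (Aw A (t : L)) := (Subalgebra.inclusion le_aw).toRingHom.toAlgebra
  have ha : ∀ a : A, ((algebraMap A (Aw A (t : L)) a : Aw A (t : L)) : L) = a := fun _ => rfl
  have : IsLocalization.Away t (Aw A (t : L)) := by
    refine IsLocalization.Away.mk t ?_ (fun s => ?_) fun a b hab => ⟨0, ?_⟩
    · refine IsUnit.of_mul_eq_one ⟨(t : L)⁻¹, inv_aw⟩ (Subtype.ext ?_)
      exact mul_inv_cancel₀ h0
    · obtain ⟨N, hN⟩ := aw_den t.2 h0 s.2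
      refine ⟨N, ⟨_, hN⟩, Subtype.ext ?_⟩
      rw [Subalgebra.coe_mul, Subalgebra.coe_pow, ha, ha, mul_comm]
    · have e := congrArg Subtype.val hab
      rw [ha, ha] at e
      rw [Subtype.ext e]
  let e : Localization.Away t ≃ₐ[A] Aw A (t : L) :=
    IsLocalization.algEquiv (Submonoid.powers t) _ _
  refine ⟨fun i => le_aw (hz i), ?_⟩
  have h1 := RingHom.Etale.respectsIso.1 _ e.toRingEquiv h
  have h2 : e.toRingEquiv.toRingHom.comp ((algebraMap A (Localization.Away t)).comp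
      (MvPolynomial.aeval (R := ℚ_[p]) fun i => (⟨z i, hz i⟩ : A)).toRingHom) =
      (MvPolynomial.aeval (R := ℚ_[p])
        fun i => (⟨z i, le_aw (hz i)⟩ : Aw A (t : L))).toRingHom := by
    have h3 : ∀ a : A, e.toRingEquiv.toRingHom (algebraMap A (Localization.Away t) a) =
        algebraMap A (Aw A (t : L)) a := fun a => e.commutes a
    refine MvPolynomial.ringHom_ext (fun r => ?_) fun i => ?_
    · rw [RingHom.comp_apply, RingHom.comp_apply, h3]
      apply Subtype.ext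
      rw [ha]
      simp
    · rw [RingHom.comp_apply, RingHom.comp_apply, h3]
      apply Subtype.ext
      rw [ha]
      simp
  rwa [h2] at h1

end ET1

open ET1 in
theorem rET1 : RET1 := by
  intro p _ L _ _ n A x z D hA hx hz hD hO hM
  obtain ⟨s, hs⟩ := hA
  have hsA : ∀ a ∈ s, a ∈ A := fun a ha => hs ▸ Algebra.subset_adjoin ha
  obtain ⟨u, hu, hu0, hS⟩ := common hx
    (S := range z ∪ ⋃ i, (D i) '' (s : Set L))
    ((finite_range z).union (finite_iUnion fun i => s.finite_toSet.image _)) (by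
      rintro g (⟨i, rfl⟩ | hg)
      · exact (hz i).1
      · obtain ⟨i, a, ha, rfl⟩ := mem_iUnion.1 hg
        exact hO i a (hx.le (hsA a ha)))
  have hu1 : u ≠ 0 := Pt.ne_zero hu0
  have hin : ∀ g, u * g ∈ A → g ∈ Aw A u := fun g hg => by
    rw [← inv_mul_cancel_left₀ hu1 g]
    exact mul_mem inv_aw (le_aw hg)
  have hz0 : ∀ i, z i ∈ Aw A u := fun i => hin _ (hS _ (.inl ⟨i, rfl⟩))
  have hD0 : ∀ i, ∀ g ∈ Aw A u, D i g ∈ Aw A u := fun i => aw_der hu (D i) fun g hg => by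
    have : A ≤ St (Aw A u) (D i) := by
      rw [← hs]
      refine Algebra.adjoin_le fun a ha => ?_
      rw [hs]
      exact ⟨le_aw (hsA a ha), hin _ (hS _ (.inr (mem_iUnion.2 ⟨i, a, ha, rfl⟩)))⟩
    exact (this hg).2
  have hx0 : LocOf (Aw A u) x := aw_loc hx hu0
  have hF0 : (Aw A u).FG := aw_fg ⟨s, hs⟩
  have : Algebra.FiniteType ℚ_[p] (Aw A u) := (Subalgebra.fg_iff_finiteType _).1 hF0
  obtain ⟨t, ht, he⟩ := P3X.etF (F := ℚ_[p]) (fun i => (⟨z i, hz0 i⟩ : Aw A u))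
    (fun i => res _ (D i) (hD0 i)) (x.evH.comp (Subalgebra.inclusion hx0.le))
    (fun l m => Subtype.ext (by
      show D l (z m) = _
      rw [hD]
      split_ifs <;> rfl)) (fun g hg => by
      obtain ⟨h, h1, h2⟩ := hM g (hx0.le g.2) hg
      obtain ⟨v, k1, k2, k3⟩ := common hx0 (finite_range h) (by
        rintro _ ⟨i, rfl⟩
        exact h1 i)
      refine ⟨⟨v, k1⟩, k2, ?_⟩
      have e : (⟨v, k1⟩ : Aw A u) * g = ∑ i, ((⟨z i, hz0 i⟩ : Aw A u) - algebraMap ℚ_[p] _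
          (x.evH.comp (Subalgebra.inclusion hx0.le) ⟨z i, hz0 i⟩)) *
            ⟨v * h i, k3 _ ⟨i, rfl⟩⟩ := by
        apply Subtype.ext
        rw [Subalgebra.coe_mul, h2, AddSubmonoidClass.coe_finsetSum, Finset.mul_sum]
        refine Finset.sum_congr rfl fun i _ => ?_
        show v * _ = (z i - algebraMap ℚ_[p] L (x.ev (z i))) * (v * h i)
        rw [(hz i).2, Pi.zero_apply]
        ring
      rw [e]
      exact Ideal.sum_mem _ fun i _ =>
        Ideal.mul_mem_right _ _ (Ideal.subset_span ⟨i, rfl⟩))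
  have ht0 : x.ev t ≠ 0 := ht
  have ht1 : (t : L) ≠ 0 := Pt.ne_zero ht0
  exact ⟨Aw (Aw A u) t, aw_fg hF0, aw_loc hx0 ht0, eta t ht1 z hz0 he,
    fun i => aw_der t.2 (D i) fun g hg => le_aw (hD0 i g hg),
    fun y hy => aw_back hu hu1 (aw_back t.2 ht1 hy)⟩

end Pool.Agent.MP_5d9b3c_ag.P3K
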