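import Pool.Agent.MP_5d9b3c_ag.P3K.Spec

/-! Row ET2: points of an etale chart are regular; the field is algebraic over the coordinates. -/

namespace Pool.Agent.MP_5d9b3c_ag.P3K

open Set
open scoped TensorProduct

namespace ET2

/-- two maps from an unramified algebra which agree at a point agree near it -/
theorem agree {R B C k : Type} [CommRing R] [CommRing B] [CommRing C] [CommRing k] [Algebra R B]
    [Algebra R C] [Algebra.FormallyUnramified R B] [Algebra.EssFiniteType R B]
    (f g : B →ₐ[R] C) (ψ : C →+* k) (h : ∀ b, ψ (f b) = ψ (g b)) :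
    ∃ e : C, ψ e = 1 ∧ ∀ b, (g b - f b) * e = 0 := by
  obtain ⟨t, h1, h2⟩ := (Algebra.FormallyUnramified.iff_exists_tensorProduct (R := R) (S := B)).1
    inferInstance
  have key : ∀ u : B ⊗[R] B, ψ (Algebra.TensorProduct.productMap f g u) =
      ψ (f (Algebra.TensorProduct.lmul' R u)) := by
    intro u
    induction u using TensorProduct.induction_on with
    | zero => simp
    | tmul a b => simp [h]
    | add a b ha hb => simp only [map_add, ha, hb]
  refine ⟨Algebra.TensorProduct.productMap f g t, by rw [key, h2, map_one, map_one], fun b => ?_⟩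
  have := congrArg (Algebra.TensorProduct.productMap f g) (h1 b)
  simpa using this

theorem idem {K B : Type} [CommRing K] [CommRing B] [Algebra K B] {n : ℕ} (z : Fin n → B)
    (φ : B →ₐ[K] K) (h : (MvPolynomial.aeval (R := K) z).toRingHom.Etale) :
    ∃ e : B, φ e = 1 ∧ ∀ b, φ b = 0 →
      b * e ∈ Ideal.span (range fun i => z i - algebraMap K B (φ (z i))) := by
  let := (MvPolynomial.aeval (R := K) z).toRingHom.toAlgebra
  have : Algebra.Etale (MvPolynomial (Fin n) K) B := h
  set J : Ideal B := Ideal.span (range fun i => z i - algebraMap K B (φ (z i))) with hJ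
  have hφ : ∀ a ∈ J, φ a = 0 := by
    intro a ha
    have : J ≤ RingHom.ker φ := by
      rw [hJ, Ideal.span_le]
      rintro _ ⟨i, rfl⟩
      simp [RingHom.mem_ker]
    exact this ha
  have hc : ((Algebra.ofId K (B ⧸ J)).comp φ).comp (MvPolynomial.aeval (R := K) z) =
      (Ideal.Quotient.mkₐ K J).comp (MvPolynomial.aeval (R := K) z) := by
    refine MvPolynomial.algHom_ext fun i => ?_
    have : z i - algebraMap K B (φ (z i)) ∈ J := Ideal.subset_span ⟨i, rfl⟩
    have h3 := (Ideal.Quotient.mk_eq_mk_iff_sub_mem _ _).2 this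
    simp only [AlgHom.comp_apply, MvPolynomial.aeval_X, Ideal.Quotient.mkₐ_eq_mk]
    rw [h3]
    rfl
  let f : B →ₐ[MvPolynomial (Fin n) K] B ⧸ J :=
    { ((Algebra.ofId K (B ⧸ J)).comp φ).toRingHom with
      commutes' := fun r => AlgHom.congr_fun hc r }
  obtain ⟨e, he1, he2⟩ := agree f (Ideal.Quotient.mkₐ (MvPolynomial (Fin n) K) J)
    (Ideal.Quotient.lift J φ.toRingHom hφ) (fun b => by
      change φ (algebraMap K B (φ b)) = φ b
      simp)
  obtain ⟨e, rfl⟩ := Ideal.Quotient.mk_surjective e
  refine ⟨e, he1, fun b hb => ?_⟩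
  have h4 := he2 b
  have h5 : f b = 0 := by
    change algebraMap K (B ⧸ J) (φ b) = 0
    rw [hb, map_zero]
  rw [h5, sub_zero] at h4
  exact Ideal.Quotient.eq_zero_iff_mem.1 h4

theorem alg {K L : Type} [Field K] [Field L] [Algebra K L] {n : ℕ} (B : Subalgebra K L)
    (z : Fin n → L) (hz : ∀ i, z i ∈ B)
    (h : (MvPolynomial.aeval (R := K) fun i => (⟨z i, hz i⟩ : B)).toRingHom.Etale)
    (hfr : ∀ g : L, ∃ x y : B, g = (x : L) / y) (g : L) :
    IsAlgebraic (Algebra.adjoin K (range z)) g := by
  let := (MvPolynomial.aeval (R := K) fun i => (⟨z i, hz i⟩ : B)).toRingHom.toAlgebra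
  have : Algebra.Etale (MvPolynomial (Fin n) K) B := h
  let := (MvPolynomial.aeval (R := K) z).toRingHom.toAlgebra
  have : IsScalarTower (MvPolynomial (Fin n) K) B L := by
    refine IsScalarTower.of_algebraMap_eq fun r => ?_
    have : B.val.comp (MvPolynomial.aeval (R := K) fun i => (⟨z i, hz i⟩ : B)) =
        MvPolynomial.aeval (R := K) z := MvPolynomial.algHom_ext fun i => by simp
    exact (AlgHom.congr_fun this r).symm
  have : IsFractionRing B L := IsFractionRing.of_field B L hfr
  have : Algebra.FormallyUnramified B L :=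
    Algebra.FormallyUnramified.of_isLocalization (nonZeroDivisors B)
  have : Algebra.EssFiniteType B L := Algebra.EssFiniteType.of_isLocalization L (nonZeroDivisors B)
  have := Algebra.FormallyUnramified.comp (MvPolynomial (Fin n) K) B L
  have := Algebra.EssFiniteType.comp (MvPolynomial (Fin n) K) B L
  let F := IntermediateField.adjoin K (range z)
  have hF : ∀ i, z i ∈ F := fun i => IntermediateField.subset_adjoin K _ ⟨i, rfl⟩
  let := (MvPolynomial.aeval (R := K) fun i => (⟨z i, hF i⟩ : F)).toRingHom.toAlgebra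
  have : IsScalarTower (MvPolynomial (Fin n) K) F L := by
    refine IsScalarTower.of_algebraMap_eq fun r => ?_
    have : F.val.comp (MvPolynomial.aeval (R := K) fun i => (⟨z i, hF i⟩ : F)) =
        MvPolynomial.aeval (R := K) z := MvPolynomial.algHom_ext fun i => by simp
    exact (AlgHom.congr_fun this r).symm
  have := Algebra.FormallyUnramified.of_restrictScalars (MvPolynomial (Fin n) K) F L
  have := Algebra.EssFiniteType.of_comp (MvPolynomial (Fin n) K) F L
  have := Algebra.FormallyUnramified.finite_of_free F L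
  exact IntermediateField.isAlgebraic_adjoin_iff.1 (Algebra.IsAlgebraic.isAlgebraic (R := F) g)

end ET2

theorem rET2 : RET2 := by
  intro p _ L _ _ n B y z ⟨hz, h⟩ hB
  refine ⟨fun g hg hg0 => ?_, ET2.alg B z hz h fun g => ?_⟩
  · let φ : B →ₐ[ℚ_[p]] ℚ_[p] := y.evH.comp (Subalgebra.inclusion hB.le)
    have hφ : ∀ b : B, φ b = y.ev b := fun b => rfl
    obtain ⟨e, he1, he2⟩ := ET2.idem _ φ h
    obtain ⟨s, hs, hs0, hsg⟩ := hB.frac g hg
    have h1 := he2 ⟨s * g, hsg⟩ (by
      rw [hφ]
      change y.ev (s * g) = 0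
      rw [y.ev_mul _ (hB.le hs) _ hg, hg0, mul_zero])
    obtain ⟨c, hc⟩ := Ideal.mem_span_range_iff_exists_fun.1 h1
    have he0 : y.ev (s * e) ≠ 0 := by
      rw [y.ev_mul _ (hB.le hs) _ (hB.le e.2), ← hφ e, he1, mul_one]
      exact hs0
    refine ⟨fun i => c i / (s * e), fun i => y.div_mem (hB.le (c i).2) he0, ?_⟩
    have h2 := congrArg B.val hc
    simp only [map_sum, map_mul, map_sub, AlgHom.commutes, Subalgebra.coe_val, hφ] at h2
    have h3 := Pt.ne_zero he0
    have h4 : ∀ i, (z i - algebraMap ℚ_[p] L (y.ev (z i))) * (c i / (s * e)) =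
        (c i * (z i - algebraMap ℚ_[p] L (y.ev (z i)))) / (s * e) := fun i => by ring
    simp only [h4]
    rw [← Finset.sum_div, h2, eq_div_iff h3]
    ring
  · obtain ⟨s, hs, hs0, hsg⟩ := y.fr g
    obtain ⟨a, ha, ha0, has⟩ := hB.frac s hs
    obtain ⟨b, hb, hb0, hbs⟩ := hB.frac _ hsg
    refine ⟨⟨a * (b * (s * g)), mul_mem ha hbs⟩, ⟨b * (a * s), mul_mem hb has⟩, ?_⟩
    have h1 := Pt.ne_zero ha0
    have h2 := Pt.ne_zero hb0
    field_simp

end Pool.Agent.MP_5d9b3c_ag.P3K
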