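import Pool.Agent.MP_5d9b3c_ag.P3K.Spec
import Pool.Agent.MP_5d9b3c_ag.H48G.Chart

/-! The box of an etale chart. -/

namespace Pool.Agent.MP_5d9b3c_ag.P3K

open Set Metric Topology Filter MvPolynomial

namespace ET3

variable {p : ℕ} [Fact p.Prime] {L : Type} [Field L] [Algebra ℚ_[p] L] {n : ℕ}
  {B : Subalgebra ℚ_[p] L} {x y : Pt p L} {z : Fin n → L} {D : Fin n → Derivation ℚ_[p] L L}
  {Λ : B → (Fin n → ℚ_[p]) → ℚ_[p]} {Φ : (Fin n → ℚ_[p]) → Pt p L} {τ : Fin n → ℚ_[p]} {f g : L}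

theorem frac (h : LocOf B x) (g : L) : ∃ s ∈ B, s ≠ 0 ∧ s * g ∈ B := by
  obtain ⟨s, a1, a2, a3⟩ := x.fr g
  obtain ⟨u, b1, b2, b3⟩ := h.frac s a1
  obtain ⟨v, c1, c2, c3⟩ := h.frac _ a3
  refine ⟨v * (u * s), mul_mem c1 b3,
    mul_ne_zero (Pt.ne_zero c2) (mul_ne_zero (Pt.ne_zero b2) a2), ?_⟩
  rw [show v * (u * s) * g = u * (v * (s * g)) by ring]
  exact mul_mem b1 c3

theorem quo {s : L} (h : B ≤ y.O) (h0 : y.ev s ≠ 0) (hg : s * g ∈ B) :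
    g ∈ y.O ∧ y.ev g = y.ev (s * g) / y.ev s := by
  have e : s * g / s = g := mul_div_cancel_left₀ g (Pt.ne_zero h0)
  exact ⟨e ▸ Pt.div_mem (h hg) h0, by rw [← Pt.ev_div (h hg) h0, e]⟩

theorem le_of (h : LocOf B x) (h' : B ≤ y.O) (e : ∀ a : B, y.ev a = x.ev a) : x ≤ y :=
  fun g hg => by
    obtain ⟨s, a1, a2, a3⟩ := h.frac g hg
    exact (quo h' ((e ⟨s, a1⟩).trans_ne a2) a3).1

theorem ev_le (hB : B.FG) (h : B ≤ x.O) : ∀ᶠ y in 𝓝 x, B ≤ y.O := by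
  obtain ⟨s, rfl⟩ := hB
  filter_upwards [(eventually_all_finset s).2 fun g hg =>
    Pt.ev_mem (h (Algebra.subset_adjoin hg))] with y hy
  exact Algebra.adjoin_le hy

theorem dm (h : LocOf B x) (hD : ∀ i, ∀ g ∈ B, D i g ∈ B) (i : Fin n) (hg : g ∈ x.O) :
    D i g ∈ x.O := by
  obtain ⟨s, a1, a2, a3⟩ := h.frac g hg
  have e : D i g = (D i (s * g) - g * D i s) / s := by
    rw [Derivation.leibniz, smul_eq_mul, smul_eq_mul, add_sub_cancel_right,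
      mul_div_cancel_left₀ _ (Pt.ne_zero a2)]
  rw [e]
  exact Pt.div_mem (sub_mem (h.le (hD i _ a3)) (mul_mem hg (h.le (hD i _ a1)))) a2

/-- Evaluation on `B`. -/
noncomputable def evB (y : Pt p L) (h : B ≤ y.O) : B →ₐ[ℚ_[p]] ℚ_[p] :=
  y.evH.comp (Subalgebra.inclusion h)

/-- The point `y` lies over `τ`. -/
structure Ov (Λ : B → (Fin n → ℚ_[p]) → ℚ_[p]) (z : Fin n → L) (τ : Fin n → ℚ_[p])
    (y : Pt p L) : Prop where
  an : ∀ a, AnalyticAt ℚ_[p] (Λ a) τ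
  loc : LocOf B y
  ev : ∀ a : B, y.ev a = Λ a τ
  sec : ∀ i, y.ev (z i) = τ i

theorem chart (h1 : RLOC) (hB : B.FG) (hx : LocOf B x) (hE : Eta B z) (h0 : ∀ i, x.ev (z i) = 0) :
    ∃ (Λ : B → (Fin n → ℚ_[p]) → ℚ_[p]) (Φ : (Fin n → ℚ_[p]) → Pt p L),
      (∀ᶠ τ in 𝓝 0, Ov Λ z τ (Φ τ)) ∧
      ∀ᶠ y in 𝓝 x, B ≤ y.O ∧ ∀ a : B, y.ev a = Λ a fun i => y.ev (z i) := by
  classical
  obtain ⟨hz, hE⟩ := hE
  obtain ⟨Λ, a1, a2⟩ := H48G.chart_at (u := X) (fun q => ⟨q, aeval_X_left_apply q⟩) hE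
    (evB x hx.le)
  have e : ∀ ψ : B →ₐ[ℚ_[p]] ℚ_[p], ψ ∘ (aeval (R := ℚ_[p]) fun i => (⟨z i, hz i⟩ : B)) ∘ X =
      fun i => ψ ⟨z i, hz i⟩ := fun ψ => funext fun i => by simp
  rw [e, show (fun i => evB x hx.le ⟨z i, hz i⟩) = 0 from funext h0] at a1
  refine ⟨Λ, fun τ => if h : ∃ y, Ov Λ z τ y then h.choose else x, a1.mono fun τ h => ?_, ?_⟩
  · obtain ⟨Ψ, b1, b2⟩ := h.2 (aeval τ) (funext fun i => aeval_X _ i)
    obtain ⟨y, c1, c2⟩ := h1 B Ψ (frac hx)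
    have : ∃ y, Ov Λ z τ y := ⟨y, h.1, c1, fun a => (c2 a).trans (b2 a), fun i =>
      (c2 ⟨_, hz i⟩).trans (by simpa using DFunLike.congr_fun b1 (X i))⟩
    simp only [dif_pos this]
    exact this.choose_spec
  · have l := ev_le hB hx.le
    filter_upwards [l, a2 (𝓝 x) (fun y => if h : B ≤ y.O then evB y h else evB x hx.le) fun s =>
      (Pt.contAt (hx.le s.2)).tendsto.congr' (l.mono fun y hy => by
        simp only [dif_pos hy]
        rfl)] with y b1 b2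
    rw [dif_pos b1, e] at b2
    exact ⟨b1, b2⟩

theorem an (h : ∀ᶠ σ in 𝓝 τ, Ov Λ z σ (Φ σ)) (hg : g ∈ (Φ τ).O) :
    (∀ᶠ σ in 𝓝 τ, g ∈ (Φ σ).O) ∧ AnalyticAt ℚ_[p] (fun σ => (Φ σ).ev g) τ := by
  have o := h.self_of_nhds
  obtain ⟨s, a1, a2, a3⟩ := o.loc.frac g hg
  have s0 : Λ ⟨s, a1⟩ τ ≠ 0 := (o.ev ⟨s, a1⟩).symm.trans_ne a2
  have k : ∀ᶠ σ in 𝓝 τ, g ∈ (Φ σ).O ∧ Λ ⟨_, a3⟩ σ / Λ ⟨s, a1⟩ σ = (Φ σ).ev g := by
    filter_upwards [h, (o.an _).continuousAt.eventually_ne s0] with σ b1 b2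
    obtain ⟨c1, c2⟩ := quo b1.loc.le ((b1.ev ⟨s, a1⟩).trans_ne b2) a3
    exact ⟨c1, by rw [c2, ← b1.ev, ← b1.ev]⟩
  exact ⟨k.mono fun _ q => q.1, ((o.an _).fun_div (o.an _) s0).congr (k.mono fun _ q => q.2)⟩

theorem cont (h : ∀ᶠ σ in 𝓝 τ, Ov Λ z σ (Φ σ)) : ContinuousAt Φ τ :=
  Pt.tendsto_iff.2 fun _ hg => ⟨(an h hg).1, (an h hg).2.continuousAt⟩

theorem der (h : ∀ᶠ σ in 𝓝 τ, Ov Λ z σ (Φ σ)) (hE : Eta B z)
    (hd : ∀ i j, D i (z j) = if i = j then 1 else 0) (hD : ∀ i, ∀ g ∈ B, D i g ∈ B)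
    (hg : g ∈ (Φ τ).O) (v : Fin n → ℚ_[p]) :
    fderiv ℚ_[p] (fun σ => (Φ σ).ev g) τ v = ∑ i, (Φ τ).ev (D i g) * v i := by
  have o := h.self_of_nhds
  obtain ⟨hz, hE⟩ := hE
  let δ : L → ℚ_[p] := fun g =>
    fderiv ℚ_[p] (fun σ => (Φ σ).ev g) τ v - ∑ i, (Φ τ).ev (D i g) * v i
  have m : ∀ i, ∀ g ∈ (Φ τ).O, D i g ∈ (Φ τ).O := fun i g => dm o.loc hD i
  have d1 : ∀ f ∈ (Φ τ).O, ∀ g ∈ (Φ τ).O, δ (f + g) = δ f + δ g := fun f hf g hg => by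
    have e : (fun σ => (Φ σ).ev (f + g)) =ᶠ[𝓝 τ] fun σ => (Φ σ).ev f + (Φ σ).ev g :=
      ((an h hf).1.and (an h hg).1).mono fun σ q => Pt.ev_add _ _ q.1 _ q.2
    simp only [δ, e.fderiv_eq, fderiv_fun_add (an h hf).2.differentiableAt
      (an h hg).2.differentiableAt, map_add, Pt.ev_add _ _ (m _ f hf) _ (m _ g hg), add_mul,
      Finset.sum_add_distrib, _root_.add_apply]
    ring
  have d2 : ∀ f ∈ (Φ τ).O, ∀ g ∈ (Φ τ).O, δ (f * g) = (Φ τ).ev f * δ g + (Φ τ).ev g * δ f :=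
    fun f hf g hg => by
      have e : (fun σ => (Φ σ).ev (f * g)) =ᶠ[𝓝 τ] fun σ => (Φ σ).ev f * (Φ σ).ev g :=
        ((an h hf).1.and (an h hg).1).mono fun σ q => Pt.ev_mul _ _ q.1 _ q.2
      simp only [δ, e.fderiv_eq, fderiv_fun_mul (an h hf).2.differentiableAt
        (an h hg).2.differentiableAt, Derivation.leibniz, smul_eq_mul,
        Pt.ev_add _ _ (mul_mem hf (m _ g hg)) _ (mul_mem hg (m _ f hf)),
        Pt.ev_mul _ _ hf _ (m _ g hg), Pt.ev_mul _ _ hg _ (m _ f hf), add_mul, mul_assoc,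
        Finset.sum_add_distrib, ← Finset.mul_sum, _root_.add_apply,
        _root_.smul_apply]
      ring
  have d3 : ∀ c, δ (algebraMap ℚ_[p] L c) = 0 := fun c => by
    simp [δ, Pt.ev_alg, Pt.ev_zero]
  have d4 : ∀ i, δ (z i) = 0 := fun i => by
    have e : (fun σ => (Φ σ).ev (z i)) =ᶠ[𝓝 τ] fun σ => σ i := h.mono fun σ q => q.sec i
    simp [δ, e.fderiv_eq, (hasFDerivAt_apply i τ).fderiv, hd, apply_ite (Φ τ).ev, Pt.ev_one,
      Pt.ev_zero]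
  have d5 : ∀ a : B, δ a = 0 := H48G.unr hE (evB _ o.loc.le) (fun a => δ a)
    (fun a b => d1 _ (o.loc.le a.2) _ (o.loc.le b.2))
    (fun a b => d2 _ (o.loc.le a.2) _ (o.loc.le b.2)) fun q => by
      induction q using MvPolynomial.induction_on with
      | C c => rw [aeval_C]; exact d3 c
      | add a b ha hb =>
        rw [map_add, Subalgebra.coe_add, d1 _ (o.loc.le (Subtype.prop _)) _
          (o.loc.le (Subtype.prop _)), ha, hb, add_zero]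
      | mul_X a i ha =>
        rw [map_mul, Subalgebra.coe_mul, d2 _ (o.loc.le (Subtype.prop _)) _
          (o.loc.le (Subtype.prop _)), ha, aeval_X, d4, mul_zero, mul_zero, add_zero]
  obtain ⟨s, a1, a2, a3⟩ := o.loc.frac g hg
  have := d2 s (o.loc.le a1) g hg
  rw [d5 ⟨_, a3⟩, d5 ⟨s, a1⟩, mul_zero, add_zero] at this
  exact sub_eq_zero.1 ((mul_eq_zero.1 this.symm).resolve_left a2)

theorem opn (h : ∀ᶠ σ in 𝓝 τ, Ov Λ z σ (Φ σ)) (hz : ∀ i, z i ∈ B)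
    (h' : ∀ᶠ y in 𝓝 (Φ τ), B ≤ y.O ∧ ∀ a : B, y.ev a = Λ a fun i => y.ev (z i)) :
    ∀ᶠ y in 𝓝 (Φ τ), B ≤ y.O ∧ Φ (fun i => y.ev (z i)) ≤ y := by
  have o := h.self_of_nhds
  have t : Tendsto (fun (y : Pt p L) i => y.ev (z i)) (𝓝 (Φ τ)) (𝓝 τ) :=
    tendsto_pi_nhds.2 fun i => o.sec i ▸ Pt.contAt (o.loc.le (hz i))
  filter_upwards [h', t.eventually h] with y a b
  exact ⟨a.1, le_of b.loc a.1 fun s => (a.2 s).trans (b.ev s).symm⟩

theorem small {Q : (Fin n → ℚ_[p]) → Prop} (h : ∀ᶠ τ in 𝓝 0, Q τ) :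
    ∃ e : ℕ, ∀ t ∈ Bl p n, Q ((p : ℚ_[p]) ^ e • t) := by
  obtain ⟨ε, e0, h⟩ := Metric.eventually_nhds_iff.1 h
  obtain ⟨e, he⟩ := exists_pow_lt_of_lt_one e0 (Padic.norm_p_lt_one (p := p))
  refine ⟨e, fun t ht => h ?_⟩
  rw [dist_zero_right, norm_smul, norm_pow]
  exact (mul_le_of_le_one_right (by positivity) (mem_closedBall_zero_iff.1 ht)).trans_lt he

end ET3

open ET3

theorem rET3 (h1 : RLOC) (h2 : RET2) : RET3 := by
  intro p _ L _ _ n B x z D hB hx hE h0 hd hD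
  obtain ⟨Λ, Φ, a1, a2⟩ := chart h1 hB hx hE h0
  have hz : ∀ i, z i ∈ B := hE.1
  have e0 : Φ 0 = x := by
    have o := a1.self_of_nhds
    have e : ∀ a : B, x.ev a = (Φ 0).ev a := fun a => by
      rw [a2.self_of_nhds.2, o.ev, show (fun i => x.ev (z i)) = 0 from funext h0]
    exact le_antisymm (le_of o.loc hx.le e) (le_of hx o.loc.le fun a => (e a).symm)
  obtain ⟨e, he⟩ := small (a1.eventually_nhds.and
    ((cont a1).eventually (e0 ▸ a2.eventually_nhds)))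
  have c0 : (p : ℚ_[p]) ^ e ≠ 0 := pow_ne_zero _ (Nat.cast_ne_zero.2 (Fact.out : p.Prime).ne_zero)
  have cL : algebraMap ℚ_[p] L ((p : ℚ_[p]) ^ e) = (p : L) ^ e := by rw [map_pow, map_natCast]
  generalize (p : ℚ_[p]) ^ e = c at he c0 cL
  have o := fun t ht => (he t ht).1.self_of_nhds
  refine ⟨e,
    { z := fun i => c⁻¹ • z i
      D := fun i => c • D i
      Φ := fun t => Φ (c • t)
      dual := fun i j => by
        rw [Derivation.smul_apply, Derivation.map_smul, smul_inv_smul₀ c0, hd]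
      alg := fun g => ((h2 B x z hE hx).2 g).tower_top_of_subalgebra_le (Algebra.adjoin_le ?_)
      fg := ⟨B, hB, fun t ht => (o t ht).loc⟩
      zm := fun t ht i => Subalgebra.smul_mem _ ((o t ht).loc.le (hz i)) _
      sec := fun t ht i => by
        rw [Pt.ev_smul _ _ ((o t ht).loc.le (hz i)), (o t ht).sec, Pi.smul_apply, smul_eq_mul,
          inv_mul_cancel_left₀ c0]
      Dm := fun t ht i g hg => Subalgebra.smul_mem _ (dm (o t ht).loc hD i hg) _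
      mx := fun t ht g hg g0 => ?_
      cont := fun t ht => (cont (he t ht).1).comp (continuous_const_smul c).continuousAt
      opn := fun t ht => (opn (he t ht).1 hz (he t ht).2).mono fun y hy => ?_
      der := fun t ht g hg => ?_ },
    by simpa using e0, fun i => ?_, fun i g => ?_, fun t ht => (o t ht).loc⟩
  · rintro _ ⟨i, rfl⟩
    rw [← smul_inv_smul₀ c0 (z i)]
    exact Subalgebra.smul_mem _ (Algebra.subset_adjoin (mem_range_self i)) _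
  · obtain ⟨k, k1, k2⟩ := (h2 B _ z hE (o t ht).loc).1 g hg g0
    refine ⟨fun i => c • k i, fun i => Subalgebra.smul_mem _ (k1 i) _,
      k2.trans (Finset.sum_congr rfl fun i _ => ?_)⟩
    beta_reduce
    rw [(o t ht).sec, mul_smul_comm, ← smul_mul_assoc, smul_sub, smul_inv_smul₀ c0, Pi.smul_apply,
      smul_eq_mul, map_mul, Algebra.smul_def]
  · rw [show (c • fun i => y.ev (c⁻¹ • z i)) = fun i => y.ev (z i) from funext fun i => by
      rw [Pi.smul_apply, Pt.ev_smul _ _ (hy.1 (hz i)), smul_eq_mul, mul_inv_cancel_left₀ c0]]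
    exact hy.2
  · refine ((an (he t ht).1 hg).2.hasStrictFDerivAt.comp t
      ((hasStrictFDerivAt_id t).const_smul c)).congr_fderiv (ContinuousLinearMap.ext fun v => ?_)
    rw [ContinuousLinearMap.comp_apply, der (he t ht).1 hE hd hD hg, _root_.sum_apply]
    refine Finset.sum_congr rfl fun i _ => ?_
    rw [Derivation.smul_apply, Pt.ev_smul _ _ (dm (o t ht).loc hD i hg)]
    simp only [_root_.smul_apply, ContinuousLinearMap.id_apply, Pi.smul_apply,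
      ContinuousLinearMap.proj_apply, smul_eq_mul]
    ring
  · rw [← cL, div_eq_inv_mul, ← map_inv₀, ← Algebra.smul_def]
  · rw [← cL, ← Algebra.smul_def]
    rfl

theorem rETB (h1 : RET1) (h3 : RET3) : RETB := by
  intro p _ L _ _ n A x z D hA hx hz hd hD hm
  obtain ⟨B, b1, b2, b3, b4, b5⟩ := h1 A x z D hA hx hz hd hD hm
  obtain ⟨e, b, c1, c2, c3, c4⟩ := h3 B x z D b1 b2 b3 (fun i => (hz i).2) hd b4
  exact ⟨e, b, c1, c2, c3, fun t ht => b5 _ (c4 t ht)⟩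

end Pool.Agent.MP_5d9b3c_ag.P3K
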