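import Pool.Agent.MP_5d9b3c_ag.P3K.Spec
import Pool.Agent.MP_5d9b3c_ag.P3K.Mono

/-! Divisors through the centre of a small ball; orders of functions on a curve. -/

namespace Pool.Agent.MP_5d9b3c_ag.P3K

open Set Metric Topology Filter Polynomial

namespace ONG

variable {p : ℕ} [Fact p.Prime] {L k : Type} [Field L] [Algebra ℚ_[p] L] [Field k]
  [Algebra ℚ_[p] k] {n : ℕ}

theorem w_ne (b : Box p L n) (i : Fin n) (r : ℚ_[p]) : b.z i - algebraMap ℚ_[p] L r ≠ 0 :=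
  fun h => by
    have := b.dual i i
    rw [sub_eq_zero.1 h, Derivation.map_algebraMap, if_pos rfl] at this
    exact zero_ne_one this

theorem w_ev (b : Box p L n) {t : Fin n → ℚ_[p]} (ht : t ∈ Bl p n) (i : Fin n) :
    b.z i - algebraMap ℚ_[p] L (t i) ∈ (b.Φ t).O ∧
      (b.Φ t).ev (b.z i - algebraMap ℚ_[p] L (t i)) = 0 :=
  ⟨sub_mem (b.zm t ht i) (Subalgebra.algebraMap_mem _ _), by
    rw [Pt.ev_sub _ (b.zm t ht i) (Subalgebra.algebraMap_mem _ _), b.sec t ht, Pt.ev_alg, sub_self]⟩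

theorem π_ne {P : Plc p L k} {x : Pt p L} (h : x.O ≤ P.O) {s : L} (hs : x.ev s ≠ 0) :
    P.π s ≠ 0 := fun e => by
  have := P.mul _ (h (Pt.mem_of_ne hs)) _ (h (Pt.inv_mem' hs))
  rw [mul_inv_cancel₀ (Pt.ne_zero hs), P.π_one, e, zero_mul] at this
  exact one_ne_zero this

theorem move {P : Plc p L k} {A : Subalgebra ℚ_[p] L} {x y : Pt p L} {w : L} (hx : LocOf A x)
    (hy : LocOf A y) (H : Box.OnAt P w x) (w0 : w ≠ 0) (wm : w ∈ y.O) (we : y.ev w = 0)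
    (hq : ∀ s ∈ A, P.π s = 0 → s / w ∈ y.O) : Box.OnAt P w y := by
  have hA : A ≤ P.O := hx.le.trans H.le
  have h1 : ∀ s ∈ A, y.ev s ≠ 0 → P.π s ≠ 0 := fun s hs h e => h (by
    rw [← mul_div_cancel₀ s w0, y.ev_mul _ wm _ (hq s hs e), we, zero_mul])
  have le : y.O ≤ P.O := fun g hg => by
    obtain ⟨s, s1, s2, s3⟩ := hy.frac g hg
    rw [← inv_mul_cancel_left₀ (Pt.ne_zero s2) g]
    exact mul_mem (P.inv_mem _ (hA s1) (h1 s s1 s2)) (hA s3)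
  refine ⟨H.z0, le, fun g hg e => ?_, fun g hg => ?_⟩
  · obtain ⟨s, s1, s2, s3⟩ := hy.frac g hg
    have := hq _ s3 (by rw [P.mul _ (hA s1) _ (le hg), e, mul_zero])
    rw [← inv_mul_cancel_left₀ (Pt.ne_zero s2) g, mul_div_assoc]
    exact mul_mem (Pt.inv_mem' s2) this
  · obtain ⟨s, s1, s2, s3⟩ := H.fr g hg
    obtain ⟨r, r1, r2, r3⟩ := hx.frac s s1
    obtain ⟨u, u1, u2, u3⟩ := hx.frac _ s3
    refine ⟨u * (r * s), hy.le (mul_mem u1 r3), ?_, hy.le ?_⟩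
    · rw [P.mul _ (hA u1) _ (hA r3), P.mul _ (hA r1) _ (H.le s1)]
      exact mul_ne_zero (π_ne H.le u2) (mul_ne_zero (π_ne H.le r2) s2)
    · rw [show u * (r * s) * g = r * (u * (s * g)) by ring]
      exact mul_mem r1 u3

theorem scale {P : Plc p L k} {y : Pt p L} {w : L} (H : Box.OnAt P w y) (wm : w ∈ y.O)
    (r : ℚ_[p]) : Box.OnAt P (w / algebraMap ℚ_[p] L r) y := by
  refine ⟨?_, H.le, fun g hg e => ?_, H.fr⟩
  · rw [div_eq_mul_inv, ← map_inv₀, P.mul _ (H.le wm) _ (Subalgebra.algebraMap_mem _ _), H.z0,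
      zero_mul]
  · rw [div_div_eq_mul_div, mul_div_right_comm]
    exact mul_mem (H.dv g hg e) (Subalgebra.algebraMap_mem _ _)

theorem near {P : Plc p L k} {A : Subalgebra ℚ_[p] L} (hA : A.FG) {x : Pt p L} {w : L}
    (hx : LocOf A x) (H : Box.OnAt P w x) :
    ∀ᶠ y in 𝓝 x, A ≤ y.O → ∀ s ∈ A, P.π s = 0 → s / w ∈ y.O := by
  have := isNoetherianRing_of_fg hA
  let φ : A →ₐ[ℚ_[p]] k := P.πH.comp (Subalgebra.inclusion (hx.le.trans H.le))
  obtain ⟨S, hS⟩ := IsNoetherian.noetherian (RingHom.ker φ)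
  have h1 : ∀ s ∈ S, ∀ᶠ y in 𝓝 x, (s : L) / w ∈ y.O := fun s hs =>
    Pt.ev_mem (H.dv _ (hx.le s.2) (show s ∈ RingHom.ker φ from hS ▸ Submodule.subset_span hs))
  filter_upwards [(eventually_all_finset S).2 h1] with y hy hle s hs e
  have h2 : (⟨s, hs⟩ : A) ∈ Submodule.span A (S : Set A) := hS ▸ e
  have h3 : ∀ a ∈ Submodule.span A (S : Set A), (a : L) / w ∈ y.O := fun a ha => by
    induction ha using Submodule.span_induction with
    | mem a h => exact hy a h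
    | zero => simp
    | add a c _ _ h h' =>
      rw [Subalgebra.coe_add, add_div]
      exact add_mem h h'
    | smul r a _ h =>
      rw [smul_eq_mul, Subalgebra.coe_mul, mul_div_assoc]
      exact mul_mem (hle r.2) h
  exact h3 _ h2

theorem small {c : Fin n → ℚ_[p]} {U : Set (Fin n → ℚ_[p])} (hU : U ∈ 𝓝 c) :
    ∃ e₀ : ℕ, ∀ e, e₀ ≤ e → ∀ t ∈ Bl p n, c + (p : ℚ_[p]) ^ e • t ∈ U := by
  obtain ⟨ε, e1, e2⟩ := nhds_basis_closedBall.mem_iff.1 hU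
  have h1 : ‖(p : ℚ_[p])‖ < 1 := Padic.norm_p_lt_one
  obtain ⟨e₀, he⟩ := eventually_atTop.1
    ((tendsto_pow_atTop_nhds_zero_of_lt_one (norm_nonneg _) h1).eventually (ge_mem_nhds e1))
  refine ⟨e₀, fun e h t ht => e2 ?_⟩
  rw [mem_closedBall, dist_self_add_left, norm_smul, norm_pow]
  exact (mul_le_of_le_one_right (by positivity) (mem_closedBall_zero_iff.1 ht)).trans (he e h)

theorem ord {x : Pt p L} {w v : L} (w0 : w ≠ 0) (hv : x.ev v ≠ 0)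
    (hm : ∀ g ∈ x.O, x.ev g = 0 → ∃ h ∈ x.O, g = w * h) (N : ℕ) :
    ∀ a ∈ x.O, ∀ t ∈ x.O, a * t = w ^ N * v → ∃ e : ℕ, x.ev (a / w ^ e) ≠ 0 := by
  induction N with
  | zero =>
    refine fun a ha t ht e => ⟨0, fun h => hv ?_⟩
    rw [pow_zero, div_one] at h
    rw [← one_mul v, ← pow_zero w, ← e, x.ev_mul _ ha _ ht, h, zero_mul]
  | succ N ih =>
    intro a ha t ht e
    by_cases h : x.ev a = 0
    · obtain ⟨g, hg, rfl⟩ := hm a ha h
      obtain ⟨m, hm⟩ := ih g hg t ht (mul_left_cancel₀ w0 (by linear_combination e))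
      exact ⟨m + 1, by rwa [pow_succ', mul_div_mul_left _ _ w0]⟩
    · exact ⟨0, by rwa [pow_zero, div_one]⟩

theorem aev {x : Pt p L} {z : L} (hz : z ∈ x.O) (f : ℚ_[p][X]) :
    x.ev (aeval z f) = f.eval (x.ev z) := by
  have h1 : aeval z f = ((aeval (⟨z, hz⟩ : x.O) f : x.O) : L) :=
    aeval_algHom_apply x.O.val (⟨z, hz⟩ : x.O) f
  rw [h1]
  exact (aeval_algHom_apply x.evH ⟨z, hz⟩ f).symm

theorem ord1 (b : Box p L 1) {c : Fin 1 → ℚ_[p]} (hc : c ∈ Bl p 1) {a : L} (ha : a ∈ (b.Φ c).O)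
    (a0 : a ≠ 0) : ∃ e : ℕ, (b.Φ c).ev (a / (b.z 0 - algebraMap ℚ_[p] L (c 0)) ^ e) ≠ 0 := by
  obtain ⟨t, ht, r, r0, e⟩ := (b.alg a).exists_nonzero_eq_adjoin_mul
    (mem_nonZeroDivisors_of_ne_zero a0)
  have hR : Algebra.adjoin ℚ_[p] (range b.z) ≤ (b.Φ c).O :=
    Algebra.adjoin_le (range_subset_iff.2 (b.zm c hc))
  have tm : t ∈ (b.Φ c).O := by
    clear e
    induction ht using Algebra.adjoin_induction with
    | mem _ h => exact h ▸ ha
    | algebraMap r => exact hR r.2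
    | add _ _ _ _ h h' => exact add_mem h h'
    | mul _ _ _ _ h h' => exact mul_mem h h'
  have h1 : (r : L) ∈ Algebra.adjoin ℚ_[p] {b.z 0} :=
    Algebra.adjoin_mono (show range b.z = {b.z 0} from range_unique).le r.2
  rw [Algebra.adjoin_singleton_eq_range_aeval] at h1
  obtain ⟨f, hf⟩ := h1
  have hf' : aeval (b.z 0) f = (r : L) := hf
  have f0 : f ≠ 0 := fun h => r0 (Subtype.ext (by rw [← hf', h, map_zero]; rfl))
  obtain ⟨q, q1, q2⟩ := exists_eq_pow_rootMultiplicity_mul_and_not_dvd f f0 (c 0)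
  refine ord (v := aeval (b.z 0) q) (w_ne b 0 _) ?_ (fun g hg h => ?_) (f.rootMultiplicity (c 0))
    a ha t tm ?_
  · rw [aev (b.zm c hc 0), b.sec c hc]
    exact fun h => q2 (dvd_iff_isRoot.2 h)
  · obtain ⟨h, h1, h2⟩ := b.mx c hc g hg h
    exact ⟨h 0, h1 0, by rw [h2, Fin.sum_univ_one]⟩
  · have h2 := congrArg (aeval (b.z 0)) q1
    rw [map_mul, map_pow, map_sub, aeval_X, aeval_C, hf'] at h2
    exact e.trans h2

end ONG

theorem rONG : RONG := by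
  intro p _ L k _ _ _ _ n b P c i hc H
  obtain ⟨A, hA, hl⟩ := b.fg
  obtain ⟨e₀, he⟩ := ONG.small
    (((b.cont c hc).eventually (ONG.near hA (hl c hc) H)).and (Box.bl_nhds hc))
  refine ⟨e₀, fun e h b' hs t ht t0 => ?_⟩
  obtain ⟨h1, h2⟩ := he e h t ht
  have h3 := ONG.w_ev b h2 i
  rw [show (c + (p : ℚ_[p]) ^ e • t) i = c i by simp [t0]] at h3
  have h4 := ONG.scale (ONG.move (hl c hc) (hl _ h2) H (ONG.w_ne b i _) h3.1 h3.2
    (h1 (hl _ h2).le)) h3.1 ((p : ℚ_[p]) ^ e)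
  rw [map_pow, map_natCast] at h4
  rw [hs.z, hs.Φ t ht]
  exact h4

theorem rDVR : RDVR := by
  intro p _ L _ _ b c g hc g0
  obtain ⟨s, s1, s0, s2⟩ := (b.Φ c).fr g
  obtain ⟨e, he⟩ := ONG.ord1 b hc s2 (mul_ne_zero s0 g0)
  obtain ⟨m, hm⟩ := ONG.ord1 b hc s1 s0
  have w0 := ONG.w_ne b 0 (c 0)
  refine ⟨(e : ℤ) - m, ?_⟩
  have h : g / (b.z 0 - algebraMap ℚ_[p] L (c 0)) ^ ((e : ℤ) - m) =
      s * g / (b.z 0 - algebraMap ℚ_[p] L (c 0)) ^ e /
        (s / (b.z 0 - algebraMap ℚ_[p] L (c 0)) ^ m) := by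
    rw [zpow_sub₀ w0, zpow_natCast, zpow_natCast]
    field_simp
  rw [h, Pt.ev_div (Pt.mem_of_ne he) hm]
  exact div_ne_zero he hm

end Pool.Agent.MP_5d9b3c_ag.P3K
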