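import Pool.Agent.MP_5d9b3c_ag.P3K.Spec

/-! A compact set of points is a finite disjoint union of good boxes. -/

namespace Pool.Agent.MP_5d9b3c_ag.P3K

open Set Metric Topology Filter H48G

namespace REF

variable {p : ℕ} [Fact p.Prime] {L : Type} [Field L] [Algebra ℚ_[p] L] {n : ℕ}
  {K S T : Set (Pt p L)} {Q : Box p L n → Prop}

theorem bd {F : Filter (Pt p L)} {x : Pt p L} (h : F ≤ 𝓝 x) {g : L} (hg : g ∈ x.O) : Bd F g :=
  ⟨‖x.ev g‖ + 1, ((Pt.nhds_mem hg (closedBall_mem_nhds _ one_pos)).filter_mono h).mono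
    fun _ hy => ⟨hy.1, norm_le_of_mem_closedBall hy.2⟩⟩

theorem t2 (hU : RULT) (hK : SepS K) : T2Space K := t2_iff_ultrafilter.2 fun {x y} f hx hy => by
  have a : ∀ z : K, (f : Filter K) ≤ 𝓝 z → ((f.map Subtype.val : Ultrafilter _) : Filter _) ≤
      𝓝 z.1 := fun z hz => (continuous_subtype_val.tendsto z).mono_left hz
  obtain ⟨w, hw, -⟩ := hU (f.map Subtype.val) fun g => by
    obtain ⟨s, s1, s2, s3⟩ := x.1.fr g
    exact ⟨s, s2, bd (a x hx) s1, bd (a x hx) s3⟩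
  exact Subtype.ext (hK _ x.2 _ y.2 w (fun g hg => (hw g).2 (bd (a x hx) hg))
    fun g hg => (hw g).2 (bd (a y hy) hg))

theorem bl {t : Fin n → ℚ_[p]} (ht : t ∈ Bl p n) : Bl p n ∈ 𝓝 t :=
  (IsUltrametricDist.isOpen_closedBall _ one_ne_zero).mem_nhds ht

theorem small {c : Fin n → ℚ_[p]} {N : Set (Fin n → ℚ_[p])} (h : N ∈ 𝓝 c) :
    ∃ e₀ : ℕ, ∀ e, e₀ ≤ e → ∀ t ∈ Bl p n, c + (p : ℚ_[p]) ^ e • t ∈ N := by
  obtain ⟨ε, ε0, hε⟩ := Metric.mem_nhds_iff.1 h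
  obtain ⟨e₀, he⟩ := eventually_atTop.1 ((tendsto_pow_atTop_nhds_zero_of_lt_one (norm_nonneg _)
    (Padic.norm_p_lt_one (p := p))).eventually (gt_mem_nhds ε0))
  refine ⟨e₀, fun e k t ht => hε ?_⟩
  rw [mem_ball_iff_norm, add_sub_cancel_left, norm_smul, norm_pow]
  exact (mul_le_of_le_one_right (by positivity) (mem_closedBall_zero_iff.1 ht)).trans_lt (he e k)

theorem opn (hK : SepS K) (b : Box p L n) (hb : ∀ t ∈ Bl p n, b.Φ t ∈ K) :
    IsOpen (Subtype.val ⁻¹' (b.Φ '' Bl p n) : Set K) :=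
  isOpen_iff_mem_nhds.2 fun x ⟨t, ht, e⟩ => by
    have h : Tendsto (fun (y : Pt p L) i => y.ev (b.z i)) (𝓝 (b.Φ t)) (𝓝 t) :=
      tendsto_pi_nhds.2 fun i => by
        have := Pt.contAt (b.zm t ht i)
        rwa [ContinuousAt, b.sec t ht] at this
    have c : Tendsto (Subtype.val : K → Pt p L) (𝓝 x) (𝓝 (b.Φ t)) :=
      e ▸ continuous_subtype_val.tendsto x
    filter_upwards [c (b.opn t ht), c (h (bl ht))] with y y1 y2
    exact ⟨_, y2, hK _ (hb _ y2) _ y.2 _ y1 le_rfl⟩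

/-- `S` is a finite disjoint union of good boxes. -/
def Gd (Q : Box p L n → Prop) (S : Set (Pt p L)) : Prop :=
  ∃ (ι : Type) (_ : Fintype ι) (b : ι → Box p L n), (∀ i, Q (b i)) ∧ Dis b ∧
    (∀ i, ∀ t ∈ Bl p n, (b i).Φ t ∈ S) ∧ ∀ x ∈ S, ∃ i, ∃ t ∈ Bl p n, (b i).Φ t = x

theorem Gd.empty : Gd Q ∅ :=
  ⟨Empty, inferInstance, Empty.elim, (·.elim), (·.elim), (·.elim), fun _ h => h.elim⟩

theorem Gd.union (d : Disjoint S T) (h : Gd Q S) (h' : Gd Q T) : Gd Q (S ∪ T) := by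
  obtain ⟨ι, _, b, q, e, m, c⟩ := h
  obtain ⟨ι', _, b', q', e', m', c'⟩ := h'
  refine ⟨ι ⊕ ι', inferInstance, Sum.elim b b', fun i => ?_, fun i j t ht s hs k => ?_,
    fun i t ht => ?_, fun x hx => ?_⟩
  · rcases i with i | i
    exacts [q i, q' i]
  · rcases i with i | i <;> rcases j with j | j
    · exact congrArg _ (e i j t ht s hs k)
    · exact (disjoint_left.1 d (m i t ht) (mem_of_eq_of_mem k (m' j s hs))).elim
    · exact (disjoint_left.1 d (m j s hs) (mem_of_eq_of_mem k.symm (m' i t ht))).elim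
    · exact congrArg _ (e' i j t ht s hs k)
  · rcases i with i | i
    exacts [.inl (m i t ht), .inr (m' i t ht)]
  · rcases hx with hx | hx
    exacts [(c x hx).elim fun i k => ⟨.inl i, k⟩, (c' x hx).elim fun i k => ⟨.inr i, k⟩]

theorem loc (hR : RRFF) (b : Box p L n) (hQ : ∀ c ∈ Bl p n, b.Ev c Q) (hS : S ⊆ b.Φ '' Bl p n)
    (h : ∀ c ∈ Bl p n, (∀ᶠ t in 𝓝 c, t ∈ Bl p n → b.Φ t ∈ S) ∨
      ∀ᶠ t in 𝓝 c, t ∈ Bl p n → b.Φ t ∉ S) : Gd Q S := by
  obtain ⟨ι, _, π, b', c, e, r, k⟩ := hR (fun _ : Unit => b) (fun _ b' => Q b' ∧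
    ((∀ t ∈ Bl p n, b'.Φ t ∈ S) ∨ ∀ t ∈ Bl p n, b'.Φ t ∉ S)) fun _ c hc => by
      obtain ⟨e₀, he⟩ := hQ c hc
      rcases h c hc with q | q <;> obtain ⟨e₁, h₁⟩ := small (q.and (bl hc)) <;>
        refine ⟨max e₀ e₁, fun e k b' s => ⟨he e (le_of_max_le_left k) b' s, ?_⟩⟩
      · exact .inl fun t ht => s.Φ t ht ▸ (h₁ e (le_of_max_le_right k) t ht).elim fun a a' => a a'
      · exact .inr fun t ht => s.Φ t ht ▸ (h₁ e (le_of_max_le_right k) t ht).elim fun a a' => a a'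
  refine ⟨{j // ∀ t ∈ Bl p n, (b' j).Φ t ∈ S}, Fintype.ofFinite _, fun j => b' j,
    fun j => (k j).2.2.1, fun i j t ht s hs q => Subtype.ext (r.dis i j rfl t ht s hs q),
    fun j => j.2, fun x hx => ?_⟩
  obtain ⟨s, hs, rfl⟩ := hS hx
  obtain ⟨j, -, t, ht, q⟩ := r.cov () s hs
  exact ⟨⟨j, (k j).2.2.2.resolve_right fun a => a t ht (mem_of_eq_of_mem q hx)⟩, t, ht, q⟩

theorem side (b : Box p L n) (hb : ∀ t ∈ Bl p n, b.Φ t ∈ K) {C : Set K} (o : IsOpen C)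
    {c : Fin n → ℚ_[p]} (hc : c ∈ Bl p n) (h : b.Φ c ∈ Subtype.val '' C) :
    ∀ᶠ t in 𝓝 c, t ∈ Bl p n → b.Φ t ∈ Subtype.val '' C := by
  obtain ⟨U, u, rfl⟩ := isOpen_induced_iff.1 o
  obtain ⟨x, hx, e⟩ := h
  filter_upwards [b.cont c hc (u.mem_nhds (e ▸ hx))] with t a ht
  exact ⟨⟨_, hb t ht⟩, a, rfl⟩

end REF

open REF in
theorem rREF : RULT → RRFF → RREF := by
  intro hU hR p _ L _ _ n K Q hc hK h
  have := t2 hU hK
  have := isCompact_iff_compactSpace.1 hc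
  have g : Gd Q (Subtype.val '' (univ : Set K)) := by
    refine glue (Pr := fun C : Set K => Gd Q (Subtype.val '' C)) (by simpa using Gd.empty)
      (fun A B _ _ d a b => ?_) isCompact_univ isOpen_univ fun x _ => ?_
    · rw [image_union]
      exact a.union ((disjoint_image_iff Subtype.val_injective).2 d) b
    obtain ⟨b, ⟨t, ht, e⟩, hb, hQ⟩ := h x x.2
    refine ⟨_, ?_, opn hK b hb, ⟨t, ht, e⟩, fun C k c o =>
      loc hR b hQ (image_subset_iff.2 k) fun s hs => ?_⟩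
    · rw [Subtype.isCompact_iff, Subtype.image_preimage_coe,
        inter_eq_right.2 (image_subset_iff.2 hb)]
      exact (isCompact_closedBall _ _).image_of_continuousOn
        fun s hs => (b.cont s hs).continuousWithinAt
    · by_cases q : (⟨_, hb s hs⟩ : K) ∈ C
      · exact .inl (side b hb o hs ⟨_, q, rfl⟩)
      · refine .inr ((side b hb c.isClosed.isOpen_compl hs ⟨_, q, rfl⟩).mono fun u a hu => ?_)
        rintro ⟨y, y1, y2⟩
        obtain ⟨z, z1, z2⟩ := a hu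
        exact z1 (Subtype.ext (y2.trans z2.symm) ▸ y1)
  rw [Subtype.coe_image_univ] at g
  obtain ⟨ι, _, b, q, d, m, c⟩ := g
  exact ⟨ι, inferInstance, b, q, fun i j t ht s hs x a a' =>
    d i j t ht s hs (hK _ (m i t ht) _ (m j s hs) x a a'), m, c⟩

end Pool.Agent.MP_5d9b3c_ag.P3K
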