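import Pool.Agent.MP_5d9b3c_ag.P3K.Sub

/-! Refinement of finite families into small balls. -/

namespace Pool.Agent.MP_5d9b3c_ag.P3K

open Set Metric H72

theorem rRFF : RRFF := fun {p} _ {L} _ _ {n ι} _ b Q h => by
  classical
  have h1 : ∀ i c, ∃ e, ∀ hc : c ∈ Bl p n, Nm c e ∧ Q i ((b i).sub hc e) := fun i c => by
    by_cases hc : c ∈ Bl p n
    · obtain ⟨e, he⟩ := h i c hc
      obtain ⟨e', he'⟩ := nm_ev c
      exact ⟨max e e', fun _ => ⟨he' _ (le_max_right _ _),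
        he _ (le_max_left _ _) _ ((b i).sub_isSub hc _)⟩⟩
    · exact ⟨0, fun k => (hc k).elim⟩
  choose e he using h1
  choose T t1 t2 t3 using fun i => cover (e i)
  have := Fintype.ofFinite ι
  refine ⟨Σ i, T i, inferInstance, Sigma.fst, fun j => (b j.1).sub (t1 _ _ j.2.2) (e j.1 j.2),
    fun j => j.2, fun j => e j.1 j.2, ⟨fun j t ht => ((b j.1).sub_isSub _ _).pt ht,
    fun i s hs => ?_, ?_⟩, fun j => ⟨(b j.1).sub_isSub _ _, he _ _ _⟩⟩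
  · obtain ⟨c, k1, k2⟩ := t2 i s hs
    obtain ⟨t, k3, rfl⟩ := aff_surj k2
    exact ⟨⟨i, c, k1⟩, rfl, t, k3, rfl⟩
  · rintro ⟨i, c, hc⟩ ⟨_, c', hc'⟩ ⟨⟩ t ht s hs k
    obtain rfl := t3 i c hc c' hc' _ (aff_mem ht)
      ((b i).inj (aff_bl (t1 _ _ hc) ht) (aff_bl (t1 _ _ hc') hs) k ▸ aff_mem hs)
    rfl

end Pool.Agent.MP_5d9b3c_ag.P3K
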