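import Pool.Agent.MP_5d9b3c_ag.P3K.Loc

/-! The standard box of a rational function field. -/

namespace Pool.Agent.MP_5d9b3c_ag.P3K

open Set Metric Topology Filter MvPolynomial

noncomputable section

variable {p : ℕ} [Fact p.Prime] {L : Type} [Field L] [Algebra ℚ_[p] L] {n : ℕ}

namespace STD

theorem mem_iff {x : Fin n → L} {a : L} : a ∈ Algebra.adjoin ℚ_[p] (range x) ↔
    ∃ P : MvPolynomial (Fin n) ℚ_[p], aeval x P = a := by
  rw [Algebra.adjoin_range_eq_range_aeval]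
  rfl

theorem ev_aeval {x : Fin n → L} {y : Pt p L} (h : ∀ i, x i ∈ y.O)
    (P : MvPolynomial (Fin n) ℚ_[p]) :
    aeval x P ∈ y.O ∧ y.ev (aeval x P) = aeval (fun i => y.ev (x i)) P := by
  induction P using MvPolynomial.induction_on with
  | C a => exact ⟨by simp, by rw [aeval_C, aeval_C, y.ev_alg]; rfl⟩
  | add P Q hP hQ =>
    rw [map_add, map_add, y.ev_add _ hP.1 _ hQ.1, hP.2, hQ.2]
    exact ⟨add_mem hP.1 hQ.1, rfl⟩
  | mul_X P j hP =>
    rw [map_mul, map_mul, aeval_X, aeval_X, y.ev_mul _ hP.1 _ (h j), hP.2]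
    exact ⟨mul_mem hP.1 (h j), rfl⟩

theorem der_aeval {x : Fin n → L} {D : Fin n → Derivation ℚ_[p] L L}
    (hD : ∀ i j, D i (x j) = if i = j then 1 else 0) (i : Fin n)
    (P : MvPolynomial (Fin n) ℚ_[p]) : D i (aeval x P) = aeval x (pderiv i P) := by
  induction P using MvPolynomial.induction_on with
  | C a => simp
  | add P Q hP hQ => rw [map_add, map_add, map_add, map_add, hP, hQ]
  | mul_X P j hP =>
    rw [map_mul, aeval_X, Derivation.leibniz, pderiv_mul, map_add, map_mul, map_mul, aeval_X, hP,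
      hD, pderiv_X, Pi.single_apply, smul_eq_mul, smul_eq_mul]
    by_cases e : i = j
    · rw [if_pos e, if_pos e.symm, map_one]; ring
    · rw [if_neg e, if_neg (Ne.symm e), map_zero]; ring

theorem taylor (x : Fin n → L) (t : Fin n → ℚ_[p]) (P : MvPolynomial (Fin n) ℚ_[p]) :
    ∃ H : Fin n → MvPolynomial (Fin n) ℚ_[p], aeval x P = algebraMap ℚ_[p] L (aeval t P) +
      ∑ i, (x i - algebraMap ℚ_[p] L (t i)) * aeval x (H i) := by
  induction P using MvPolynomial.induction_on with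
  | C a => exact ⟨0, by simp⟩
  | add P Q hP hQ =>
    obtain ⟨H, hH⟩ := hP
    obtain ⟨H', hH'⟩ := hQ
    refine ⟨H + H', ?_⟩
    simp only [Pi.add_apply, map_add, mul_add, Finset.sum_add_distrib]
    rw [hH, hH']
    ring
  | mul_X P j hP =>
    obtain ⟨H, hH⟩ := hP
    refine ⟨fun i => H i * X j + if i = j then C (aeval t P) else 0, ?_⟩
    have e : ∀ i, (x i - algebraMap ℚ_[p] L (t i)) *
        aeval x (H i * X j + if i = j then C (aeval t P) else 0) =
        (x i - algebraMap ℚ_[p] L (t i)) * aeval x (H i) * x j + if i = j then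
          (x i - algebraMap ℚ_[p] L (t i)) * algebraMap ℚ_[p] L (aeval t P) else 0 := fun i => by
      rw [map_add, map_mul, aeval_X]
      split_ifs
      · rw [aeval_C]; ring
      · rw [map_zero]; ring
    simp only [e]
    rw [Finset.sum_add_distrib, ← Finset.sum_mul, Finset.sum_ite_eq', if_pos (Finset.mem_univ _),
      map_mul, map_mul, aeval_X, aeval_X, map_mul, hH]
    ring

theorem poly_der (t : Fin n → ℚ_[p]) (P : MvPolynomial (Fin n) ℚ_[p]) :
    HasStrictFDerivAt (𝕜 := ℚ_[p]) (fun u : Fin n → ℚ_[p] => (aeval u P : ℚ_[p]))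
      (∑ i, (aeval t (pderiv i P) : ℚ_[p]) • ContinuousLinearMap.proj i) t := by
  induction P using MvPolynomial.induction_on with
  | C a =>
    simp only [aeval_C]
    refine (hasStrictFDerivAt_const _ t).congr_fderiv ?_
    ext v
    simp
  | add P Q hP hQ =>
    simp only [map_add]
    refine (hP.add hQ).congr_fderiv ?_
    ext v
    simp [add_mul, Finset.sum_add_distrib]
  | mul_X P j hP =>
    simp only [map_mul, aeval_X]
    refine (hP.mul (hasStrictFDerivAt_apply j t)).congr_fderiv ?_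
    ext v
    simp only [pderiv_mul, map_add, map_mul, aeval_X, pderiv_X, Pi.single_apply,
      apply_ite (aeval t), map_zero, add_apply,
      smul_apply, sum_apply,
      ContinuousLinearMap.proj_apply, smul_eq_mul, add_mul, Finset.sum_add_distrib, mul_ite,
      ite_mul, mul_one, mul_zero, zero_mul, Finset.sum_ite_eq, Finset.mem_univ, if_true,
      Finset.mul_sum]
    rw [add_comm]
    exact congrArg₂ (· + ·) (Finset.sum_congr rfl fun i _ => by ring) rfl

end STD

open STD in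
theorem rSTD : RSTD := by
  intro p _ L _ _ n x D hx hD hfr
  choose Φ hl hv using fun t : Fin n → ℚ_[p] =>
    rLOC (Algebra.adjoin ℚ_[p] (range x)) ((aeval t).comp hx.aevalEquiv.symm.toAlgHom) hfr
  have hm : ∀ P : MvPolynomial (Fin n) ℚ_[p], aeval x P ∈ Algebra.adjoin ℚ_[p] (range x) :=
    fun P => mem_iff.2 ⟨P, rfl⟩
  have he : ∀ t (P : MvPolynomial (Fin n) ℚ_[p]), (Φ t).ev (aeval x P) = aeval t P := fun t P => by
    have h1 := hv t (hx.aevalEquiv P)
    have h2 : ((hx.aevalEquiv P : Algebra.adjoin ℚ_[p] (range x)) : L) = aeval x P :=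
      hx.algebraMap_aevalEquiv P
    rw [h2] at h1
    simpa using h1
  have hq : ∀ t, ∀ g ∈ (Φ t).O, ∃ P Q : MvPolynomial (Fin n) ℚ_[p], (aeval t Q : ℚ_[p]) ≠ 0 ∧
      aeval x Q * g = aeval x P := fun t g hg => by
    obtain ⟨s, h1, h2, h3⟩ := (hl t).frac g hg
    obtain ⟨Q, rfl⟩ := mem_iff.1 h1
    obtain ⟨P, hP⟩ := mem_iff.1 h3
    exact ⟨P, Q, he t Q ▸ h2, hP.symm⟩
  have hd : ∀ t g (P Q : MvPolynomial (Fin n) ℚ_[p]), (aeval t Q : ℚ_[p]) ≠ 0 →
      aeval x Q * g = aeval x P → g ∈ (Φ t).O ∧ (Φ t).ev g = aeval t P * (aeval t Q)⁻¹ := by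
    intro t g P Q h1 h2
    rw [← he] at h1
    have h3 : g = aeval x P / aeval x Q := by rw [eq_div_iff (Pt.ne_zero h1), ← h2, mul_comm]
    rw [h3, Pt.ev_div ((hl t).le (hm P)) h1, he, he]
    exact ⟨Pt.div_mem ((hl t).le (hm P)) h1, div_eq_mul_inv _ _⟩
  have hDq : ∀ i g (P Q : MvPolynomial (Fin n) ℚ_[p]), aeval x Q * g = aeval x P →
      aeval x (Q * Q) * D i g = aeval x (Q * pderiv i P - P * pderiv i Q) := by
    intro i g P Q h
    have h1 := congrArg (D i) h
    rw [Derivation.leibniz, der_aeval hD, der_aeval hD, smul_eq_mul, smul_eq_mul] at h1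
    rw [map_sub, map_mul, map_mul, map_mul, ← h1, ← h]
    ring
  have hQQ : ∀ t (Q : MvPolynomial (Fin n) ℚ_[p]), (aeval t Q : ℚ_[p]) ≠ 0 →
      (aeval t (Q * Q) : ℚ_[p]) ≠ 0 := fun t Q h => by rw [map_mul]; exact mul_ne_zero h h
  have hnear : ∀ t g (P Q : MvPolynomial (Fin n) ℚ_[p]), (aeval t Q : ℚ_[p]) ≠ 0 →
      aeval x Q * g = aeval x P →
      ∀ᶠ u in 𝓝 t, g ∈ (Φ u).O ∧ (Φ u).ev g = aeval u P * (aeval u Q)⁻¹ := fun t g P Q h1 h2 =>
    ((poly_der t Q).continuousAt.eventually_ne h1).mono fun u hu => hd u g P Q hu h2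
  have hder : ∀ t, ∀ g ∈ (Φ t).O, HasStrictFDerivAt (𝕜 := ℚ_[p]) (fun s => (Φ s).ev g)
      (∑ i, (Φ t).ev (D i g) • ContinuousLinearMap.proj i) t := by
    intro t g hg
    obtain ⟨P, Q, h1, h2⟩ := hq t g hg
    have h3 := (poly_der t P).mul
      ((hasStrictDerivAt_inv h1).comp_hasStrictFDerivAt t (poly_der t Q))
    refine (h3.congr_of_eventuallyEq ((hnear t g P Q h1 h2).mono fun u hu => hu.2.symm)).congr_fderiv
      ?_
    ext v
    simp only [fun i => (hd t _ _ _ (hQQ t Q h1) (hDq i g P Q h2)).2, map_sub, map_mul,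
      add_apply, smul_apply, sum_apply,
      ContinuousLinearMap.proj_apply, smul_eq_mul, Function.comp_apply, Finset.mul_sum,
      ← Finset.sum_add_distrib]
    refine Finset.sum_congr rfl fun i _ => ?_
    field_simp
    ring
  have hdom : ∀ y : Pt p L, (∀ i, x i ∈ y.O) → Φ (fun i => y.ev (x i)) ≤ y := fun y hy =>
    (hl _).le_of (Algebra.adjoin_le (range_subset_iff.2 hy)) fun a ha => by
      obtain ⟨P, rfl⟩ := mem_iff.1 ha
      rw [he, (ev_aeval hy P).2]
  have hxm : ∀ t i, x i ∈ (Φ t).O := fun t i => (hl t).le (Algebra.subset_adjoin ⟨i, rfl⟩)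
  refine ⟨⟨x, D, Φ, hD, fun g => ?_,
    ⟨_, Subalgebra.fg_def.2 ⟨_, finite_range x, rfl⟩, fun t _ => hl t⟩, fun t _ => hxm t,
    fun t _ i => ?_, fun t _ i g hg => ?_, fun t _ g hg h0 => ?_, fun t _ => ?_, fun t _ => ?_,
    fun t _ => hder t⟩, rfl, fun t _ => hl t, fun y hy => hdom y fun i => (hy i).1⟩
  · obtain ⟨s, h1, h2, h3⟩ := hfr g
    refine ⟨Polynomial.C ⟨s, h1⟩ * Polynomial.X - Polynomial.C ⟨_, h3⟩, fun h => h2 ?_, by simp⟩
    have h4 := congrArg (fun q => Polynomial.coeff q 1) h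
    have h5 : (⟨s, h1⟩ : Algebra.adjoin ℚ_[p] (range x)) = 0 := by simpa using h4
    exact congrArg Subtype.val h5
  · simpa using he t (X i)
  · obtain ⟨P, Q, h1, h2⟩ := hq t g hg
    exact (hd t _ _ _ (hQQ t Q h1) (hDq i g P Q h2)).1
  · obtain ⟨P, Q, h1, h2⟩ := hq t g hg
    have h3 : (aeval t P : ℚ_[p]) = 0 := by
      rw [← he, ← h2, (Φ t).ev_mul _ ((hl t).le (hm Q)) _ hg, h0, mul_zero]
    obtain ⟨H, hH⟩ := taylor x t P
    rw [h3, map_zero, zero_add] at hH
    rw [← he] at h1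
    refine ⟨fun i => aeval x (H i) / aeval x Q, fun i => Pt.div_mem ((hl t).le (hm _)) h1, ?_⟩
    simp only [← mul_div_assoc]
    rw [← Finset.sum_div, ← hH, eq_div_iff (Pt.ne_zero h1), ← h2, mul_comm]
  · refine Pt.tendsto_iff.2 fun g hg => ⟨?_, (hder t g hg).continuousAt⟩
    obtain ⟨P, Q, h1, h2⟩ := hq t g hg
    exact (hnear t g P Q h1 h2).mono fun u hu => hu.1
  · exact (eventually_all.2 fun i => Pt.ev_mem (hxm t i)).mono hdom

end

end Pool.Agent.MP_5d9b3c_ag.P3K
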