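import Pool.Agent.MP_5d9b3c_ag.P3K.Spec
import Pool.Agent.MP_5d9b3c_ag.P3K.Cmp

/-! Transport of boxes along an isomorphism; the integral of an eigenform. -/

namespace Pool.Agent.MP_5d9b3c_ag.P3K

open Set Metric Topology Filter

namespace TRP

variable {p : ℕ} [Fact p.Prime] {L k : Type} [Field L] [Algebra ℚ_[p] L] [Field k]
  [Algebra ℚ_[p] k] {n : ℕ} (e : L ≃ₐ[ℚ_[p]] k)

theorem mem_map (x : Pt p L) (g : k) : g ∈ (x.map e).O ↔ e.symm g ∈ x.O := Iff.rfl

theorem ev_map (x : Pt p L) (g : k) : (x.map e).ev g = x.ev (e.symm g) := rfl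

theorem mem_map' (x : Pt p L) (g : L) : e g ∈ (x.map e).O ↔ g ∈ x.O := by
  rw [mem_map, e.symm_apply_apply]

theorem ev_map' (x : Pt p L) (g : L) : (x.map e).ev (e g) = x.ev g := by
  rw [ev_map, e.symm_apply_apply]

theorem map_symm (x : Pt p L) : (x.map e).map e.symm = x :=
  Pt.ext' (SetLike.ext fun g => mem_map' e x g)

theorem symm_map (y : Pt p k) : (y.map e.symm).map e = y := map_symm e.symm y

theorem map_mono {x y : Pt p L} (h : x ≤ y) : x.map e ≤ y.map e := fun _ hg => h hg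

theorem map_le {x : Pt p L} {y : Pt p k} : x.map e ≤ y ↔ x ≤ y.map e.symm :=
  ⟨fun h => map_symm e x ▸ map_mono e.symm h, fun h => symm_map e y ▸ map_mono e h⟩

theorem map_inj {x y : Pt p L} (h : x.map e = y.map e) : x = y := by
  rw [← map_symm e x, h, map_symm]

theorem map_cont (x : Pt p L) : ContinuousAt (Pt.map e) x :=
  Pt.tendsto_iff.2 fun g hg => ⟨Pt.ev_mem (x := x) hg, Pt.contAt (x := x) hg⟩

/-- The transport of a derivation. -/
noncomputable def der (D : Derivation ℚ_[p] L L) : Derivation ℚ_[p] k k where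
  toLinearMap := e.toLinearMap ∘ₗ D.toLinearMap ∘ₗ e.symm.toLinearMap
  map_one_eq_zero' := by simp
  leibniz' a b := by simp

theorem der_apply (D : Derivation ℚ_[p] L L) (g : k) : der e D g = e (D (e.symm g)) := rfl

theorem der_apply' (D : Derivation ℚ_[p] L L) (g : L) : der e D (e g) = e (D g) := by
  rw [der_apply, e.symm_apply_apply]

theorem alg {z : Fin n → L} {g : L} (h : IsAlgebraic (Algebra.adjoin ℚ_[p] (range z)) g) :
    IsAlgebraic (Algebra.adjoin ℚ_[p] (range fun i => e (z i))) (e g) := by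
  have hm : ∀ a : Algebra.adjoin ℚ_[p] (range z),
      e a ∈ Algebra.adjoin ℚ_[p] (range fun i => e (z i)) := fun a => by
    have : e a ∈ (Algebra.adjoin ℚ_[p] (range z)).map (e : L →ₐ[ℚ_[p]] k) := ⟨a, a.2, rfl⟩
    rwa [AlgHom.map_adjoin, ← range_comp] at this
  let f : Algebra.adjoin ℚ_[p] (range z) →ₐ[ℚ_[p]] Algebra.adjoin ℚ_[p] (range fun i => e (z i)) :=
    ((e : L →ₐ[ℚ_[p]] k).comp (Subalgebra.val _)).codRestrict _ hm
  exact h.ringHom_of_comp_eq f e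
    (fun a a' h' => Subtype.ext (e.injective (congrArg Subtype.val h'))) (RingHom.ext fun _ => rfl)

theorem locOf {A : Subalgebra ℚ_[p] L} {x : Pt p L} (h : LocOf A x) :
    LocOf (A.map (e : L →ₐ[ℚ_[p]] k)) (x.map e) where
  le := by
    rintro _ ⟨a, ha, rfl⟩
    exact (mem_map' e x a).2 (h.le ha)
  frac g hg := by
    obtain ⟨s, h1, h2, h3⟩ := h.frac _ hg
    refine ⟨e s, ⟨s, h1, rfl⟩, by rwa [ev_map'], _, h3, ?_⟩
    simp

/-- The transport of a box. -/
noncomputable def box (b : Box p L n) : Box p k n where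
  z i := e (b.z i)
  D i := der e (b.D i)
  Φ t := (b.Φ t).map e
  dual i j := by
    rw [der_apply', b.dual]
    split_ifs <;> simp
  alg g := by simpa using alg e (b.alg (e.symm g))
  fg := b.fg.elim fun A h => ⟨_, h.1.map (e : L →ₐ[ℚ_[p]] k), fun t ht => locOf e (h.2 t ht)⟩
  zm t ht i := (mem_map' e _ _).2 (b.zm t ht i)
  sec t ht i := (ev_map' e _ _).trans (b.sec t ht i)
  Dm t ht i g hg := (mem_map' e _ _).2 (b.Dm t ht i _ hg)
  mx t ht g hg h0 := by
    obtain ⟨h, h1, h2⟩ := b.mx t ht _ hg h0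
    refine ⟨fun i => e (h i), fun i => (mem_map' e _ _).2 (h1 i), ?_⟩
    simpa using congrArg e h2
  cont t ht := (map_cont e _).comp (b.cont t ht)
  opn t ht := by
    have h := map_cont e.symm ((b.Φ t).map e)
    rw [ContinuousAt, map_symm] at h
    exact (h.eventually (b.opn t ht)).mono fun x hx => (map_le e).2 hx
  der t ht g hg := by
    simp only [der_apply, ev_map']
    exact b.der t ht _ hg

variable {e} {b : Box p L n} {b' : Box p k n}

theorem D_map (h : b.IsMap e b') (i : Fin n) (g : L) : b'.D i (e g) = e (b.D i g) := by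
  have := b'.span (b'.D i - der e (b.D i)) fun j => by
    rw [Derivation.sub_apply, b'.dual, h.z, der_apply', b.dual]
    split_ifs <;> simp
  rw [sub_eq_zero.1 this, der_apply']

theorem jac_map (h : b.IsMap e b') (r : Fin n → L) :
    (b'.jac fun l => e (r l)) = e (b.jac r) := by
  rw [Box.jac, Box.jac, AlgEquiv.map_det]
  exact congrArg _ (Matrix.ext fun i l => D_map h i (r l))

theorem reg (h : b.IsMap e b') (g : L) : b'.Reg (e g) ↔ b.Reg g :=
  forall₂_congr fun t ht => by rw [h.Φ t ht, mem_map']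

theorem un (h : b.IsMap e b') (g : L) (m : ℤ) : b'.Un (e g) m ↔ b.Un g m :=
  forall₂_congr fun t ht => by rw [h.Φ t ht, mem_map', ev_map']

theorem mono (h : b.IsMap e b') (g : L) (m : ℤ) (A : Fin n → ℤ) :
    b'.Mono (e g) m A ↔ b.Mono g m A := by
  rw [Box.Mono, Box.Mono, ← un h, map_div₀, map_prod]
  simp only [map_zpow₀, h.z]

theorem adp {I : Type} {j : L} {r : Fin n → L} {f : I → L} {d : MD I n} (h : b.IsMap e b')
    (ha : b.Adp j r f d) : b'.Adp (e j) (fun l => e (r l)) (fun i => e (f i)) d where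
  frm := by
    rw [jac_map h, ← map_mul]
    exact (mono h _ _ _).2 ha.frm
  fn i := (mono h _ _ _).2 (ha.fn i)

theorem fam {ι : Type} {b : ι → Box p L n} {b' : ι → Box p k n}
    (h : ∀ i, (b i).IsMap e (b' i)) : (Dis b → Dis b') ∧ (Sep b → Sep b') ∧
    ∀ X₀, (Itg b X₀ → Itg b' (e '' X₀)) ∧ (Cov b X₀ → Cov b' (e '' X₀)) := by
  refine ⟨fun H i j t ht s hs E => H i j t ht s hs (map_inj e ?_),
    fun H i j t ht s hs x h1 h2 => H i j t ht s hs (x.map e.symm) ?_ ?_,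
    fun X₀ => ⟨fun H i t ht => ?_, ?_⟩⟩
  · rwa [(h i).Φ t ht, (h j).Φ s hs] at E
  · rwa [(h i).Φ t ht, map_le] at h1
  · rwa [(h j).Φ s hs, map_le] at h2
  · rintro _ ⟨c, hc, rfl⟩
    rw [(h i).Φ t ht, mem_map', ev_map']
    exact H i t ht c hc
  · rintro ⟨Y, h0, H⟩
    refine ⟨Y.map e.toEquiv.toEmbedding, fun h1 => ?_, fun x h1 h2 => ?_⟩
    · obtain ⟨y, hy, h2⟩ := Finset.mem_map.1 h1
      exact h0 (((map_eq_zero e).1 h2 : y = 0) ▸ hy)
    · obtain ⟨i, t, ht, h3⟩ := H (x.map e.symm) (fun y hy => h1 _ (Finset.mem_map_of_mem _ hy))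
        fun c hc => h2 _ ⟨c, hc, rfl⟩
      exact ⟨i, t, ht, by rwa [(h i).Φ t ht, map_le]⟩

theorem mono_smul {g : L} {m a : ℤ} {A : Fin n → ℤ} {w : ℚ_[p]} (hw : ‖w‖ = (p : ℝ) ^ (-a))
    (h : b.Mono (w • g) m A) : b.Mono g (m - a) A := fun t ht => by
  have hp : (0 : ℝ) < p := zero_lt_one.trans H72.one_lt_p
  have h0 : w ≠ 0 := norm_pos_iff.1 (hw ▸ zpow_pos hp _)
  obtain ⟨h1, h2⟩ := h t ht
  have E : g / ∏ l, b.z l ^ A l = w⁻¹ • (w • g / ∏ l, b.z l ^ A l) := by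
    rw [smul_div_assoc, inv_smul_smul₀ h0]
  rw [E, Pt.ev_smul _ _ h1, norm_mul, norm_inv, h2, hw, ← zpow_neg, ← zpow_add₀ hp.ne']
  exact ⟨Subalgebra.smul_mem _ h1 _, congrArg _ (by ring)⟩

theorem val_shift {I K : Type} [Fintype I] [CommRing K] [Algebra ℂ K] (d : MD I n) (χ : I → Kˣ)
    (a : I → ℤ) (a₀ : ℤ) : d.val p χ = algebraMap ℂ K ((p : ℂ) ^ (-a₀)) * (∏ i, χ i ^ a i : Kˣ) *
      MD.val ⟨d.c - a₀, d.ν, fun i => d.m i - a i, d.A⟩ p χ := by
  have hp : (p : ℂ) ≠ 0 := Nat.cast_ne_zero.2 (Fact.out : p.Prime).ne_zero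
  have e1 : (p : ℂ) ^ (-d.c) = (p : ℂ) ^ (-a₀) * (p : ℂ) ^ (-(d.c - a₀)) := by
    rw [← zpow_add₀ hp]
    exact congrArg _ (by ring)
  have e2 : ∏ i, χ i ^ d.m i = (∏ i, χ i ^ a i) * ∏ i, χ i ^ (d.m i - a i) := by
    rw [← Finset.prod_mul_distrib]
    exact Finset.prod_congr rfl fun i _ => by rw [← zpow_add, add_sub_cancel]
  simp only [MD.val, MD.den]
  rw [e1, e2, map_mul, Units.val_mul]
  ring

end TRP

theorem rTRP : RTRP where
  ex b e := ⟨TRP.box e b, fun _ => rfl, fun _ _ => rfl⟩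
  mono h g := ⟨TRP.reg h g, fun m => ⟨TRP.un h g m, TRP.mono h g m⟩⟩
  adp h ha := TRP.adp h ha
  fam h := TRP.fam h

theorem rEIG (hC : RCOV) : REIG := by
  intro p _ L _ _ n ι I K _ _ _ _ b X₀ e j r h χ d u a w a₀ hd hi hc hf hX hu hw hw'
  choose b' hb using fun i => rTRP.ex (b i) e
  obtain ⟨k1, -, k2⟩ := TRP.fam hb
  have E : e '' X₀ = X₀ := by rw [image_congr hX, image_id']
  obtain ⟨k3, k4⟩ := k2 X₀
  rw [E] at k3 k4
  have hf' : Fit b' j r h χ
      fun i => ⟨(d i).c - a₀, (d i).ν, fun l => (d i).m l - a l, (d i).A⟩ := fun i => by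
    obtain ⟨h1, h2, h3⟩ := hf i
    have h4 := TRP.adp (hb i) h1
    refine ⟨⟨TRP.mono_smul hw' ?_, fun l => TRP.mono_smul (hu l).2 ?_⟩, ⟨h2.sgn, h2.pos⟩, h3⟩
    · rw [← hw]
      exact h4.frm
    · rw [← (hu l).1]
      exact h4.fn l
  have key := pv hd (k1 hd) (hC b b' X₀ hi hc (k3 hi) (k4 hc)) hf hf'
  rw [sub_mul, one_mul, sub_eq_zero]
  refine (Finset.sum_congr rfl fun i _ => TRP.val_shift (d i) χ a a₀).trans ?_
  rw [← Finset.mul_sum, ← key]

end Pool.Agent.MP_5d9b3c_ag.P3K
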