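import Pool.Agent.MP_5d9b3c_ag.P3K.Tame
import Pool.Agent.MP_5d9b3c_ag.P3K.Rff
import Pool.Agent.MP_5d9b3c_ag.P3K.RFace
import Pool.Agent.MP_5d9b3c_ag.P3K.Et1
import Pool.Agent.MP_5d9b3c_ag.P3K.Et2
import Pool.Agent.MP_5d9b3c_ag.P3K.Et3
import Pool.Agent.MP_5d9b3c_ag.P3K.Std
import Pool.Agent.MP_5d9b3c_ag.P3K.Cpt
import Pool.Agent.MP_5d9b3c_ag.P3K.Ref
import Pool.Agent.MP_5d9b3c_ag.P3K.Trp
import Pool.Agent.MP_5d9b3c_ag.P3K.Igu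
import Pool.Agent.MP_5d9b3c_ag.P3K.Ong

/-! The integration kit without hypotheses. -/

namespace Pool.Agent.MP_5d9b3c_ag.P3K

theorem etb : RETB := rETB rET1 (rET3 rLOC rET2)

theorem cpt : RCPT := rCPT rNUL

theorem ref : RREF := rREF rULT rRFF

theorem eig : REIG := rEIG rCOV

theorem rf1 : RRF1 := rRF1_of rGrm rRFF rDVR

theorem igu : RIGU := rIGU rSTD rCOV

end Pool.Agent.MP_5d9b3c_ag.P3K
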