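import Mathlib

/-! Regularised values of functions on a lattice. -/

namespace Pool.Agent.MP_5d9b3c_ag.P3K

open AddMonoidAlgebra Finset
open scoped ENNReal

noncomputable section

variable {G K : Type} [AddCommGroup G] [CommRing K] [Algebra ℂ K]

/-- Translations. -/
def shH : Multiplicative G →* Module.End ℂ (G → ℂ) where
  toFun e := LinearMap.funLeft ℂ ℂ fun n => n - e.toAdd
  map_one' := by
    ext a n
    simp [LinearMap.funLeft_apply]
  map_mul' e e' := by
    ext a n
    simp [LinearMap.funLeft_apply, sub_sub]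

/-- Convolution with a Laurent polynomial. -/
def op : AddMonoidAlgebra ℂ G →ₐ[ℂ] Module.End ℂ (G → ℂ) := lift ℂ _ G shH

theorem op_single (e : G) (c : ℂ) (a : G → ℂ) (n : G) : op (single e c) a n = c * a (n - e) := by
  rw [op, lift_single]
  rfl

theorem op_coe (D P : AddMonoidAlgebra ℂ G) : op D (⇑P.coeff) = ⇑(D * P).coeff := by
  induction D using AddMonoidAlgebra.induction_linear with
  | zero => simp
  | add D D' h h' => rw [map_add, LinearMap.add_apply, h, h', add_mul, coeff_add, Finsupp.coe_add]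
  | single e c =>
    funext n
    rw [op_single, coeff_single_mul_apply, sub_eq_neg_add]

/-- The value of a Laurent polynomial at a character. -/
def evc (χ : Multiplicative G →* K) : AddMonoidAlgebra ℂ G →ₐ[ℂ] K := lift ℂ _ G χ

theorem evc_single (χ : Multiplicative G →* K) (e : G) (c : ℂ) :
    evc χ (single e c) = algebraMap ℂ K c * χ (.ofAdd e) := by
  rw [evc, lift_single, Algebra.smul_def]

/-- `r` is the regularised value of the sum of `a n * χ n`. -/
def Rv (χ : Multiplicative G →* K) (a : G → ℂ) (r : K) : Prop :=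
  ∃ D P : AddMonoidAlgebra ℂ G, op D a = ⇑P.coeff ∧ IsUnit (evc χ D) ∧ r * evc χ D = evc χ P

namespace Rv

variable {χ : Multiplicative G →* K} {a a' : G → ℂ} {r r' : K}

theorem uniq (h : Rv χ a r) (h' : Rv χ a r') : r = r' := by
  obtain ⟨D, P, h1, h2, h3⟩ := h
  obtain ⟨D', P', k1, k2, k3⟩ := h'
  have : D' * P = D * P' := coeff_injective (DFunLike.coe_injective <| by
    rw [← op_coe, ← op_coe, ← h1, ← k1, ← Module.End.mul_apply, ← Module.End.mul_apply, ← map_mul,
      ← map_mul, mul_comm])
  have e := congrArg (evc χ) this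
  rw [map_mul, map_mul, ← h3, ← k3] at e
  refine (h2.mul k2).mul_right_cancel ?_
  linear_combination e

theorem zero : Rv χ 0 0 := ⟨1, 0, by simp, by simp, by simp⟩

theorem add (h : Rv χ a r) (h' : Rv χ a' r') : Rv χ (a + a') (r + r') := by
  obtain ⟨D, P, h1, h2, h3⟩ := h
  obtain ⟨D', P', k1, k2, k3⟩ := h'
  refine ⟨D * D', D' * P + D * P', ?_, by rw [map_mul]; exact h2.mul k2, ?_⟩
  · rw [map_add, coeff_add, Finsupp.coe_add, ← op_coe, ← op_coe, ← h1, ← k1,
      ← Module.End.mul_apply, ← Module.End.mul_apply, ← map_mul, ← map_mul, mul_comm D']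
  · rw [map_add, map_mul, map_mul, map_mul, ← h3, ← k3]
    ring

theorem sum {ι : Type} (s : Finset ι) {a : ι → G → ℂ} {r : ι → K}
    (h : ∀ i ∈ s, Rv χ (a i) (r i)) : Rv χ (∑ i ∈ s, a i) (∑ i ∈ s, r i) := by
  classical
  induction s using Finset.induction_on with
  | empty => simpa using zero
  | insert i s hi ih =>
    rw [sum_insert hi, sum_insert hi]
    exact (h i (mem_insert_self _ _)).add (ih fun j hj => h j (mem_insert_of_mem hj))

theorem smul (h : Rv χ a r) (c : ℂ) : Rv χ (c • a) (algebraMap ℂ K c * r) := by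
  obtain ⟨D, P, h1, h2, h3⟩ := h
  exact ⟨D, c • P, by rw [map_smul, h1]; rfl, h2, by
    rw [map_smul, ← h3, Algebra.smul_def, mul_assoc]⟩

/-- Translation multiplies the value. -/
theorem shift (h : Rv χ a r) (e : G) : Rv χ (fun n => a (n - e)) (χ (.ofAdd e) * r) := by
  obtain ⟨D, P, h1, h2, h3⟩ := h
  have : (fun n => a (n - e)) = op (single e 1) a := funext fun n => by rw [op_single, one_mul]
  refine ⟨D, single e 1 * P, ?_, h2, by rw [map_mul, evc_single, map_one, one_mul, ← h3, mul_assoc]⟩
  rw [this, ← op_coe, ← h1, ← Module.End.mul_apply, ← Module.End.mul_apply, ← map_mul, ← map_mul,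
    mul_comm]

/-- Division by a factor. -/
theorem div {c : ℂ} {e : G} {u : K} (hu : u * (1 - algebraMap ℂ K c * χ (.ofAdd e)) = 1)
    (h : ∀ n, a n = a' n + c * a (n - e)) (h' : Rv χ a' r') : Rv χ a (r' * u) := by
  obtain ⟨D, P, h1, h2, h3⟩ := h'
  have e1 : op (1 - single e c) a = a' := funext fun n => by
    rw [map_sub, map_one, LinearMap.sub_apply, Pi.sub_apply, op_single, Module.End.one_apply, h n,
      add_sub_cancel_right]
  have e2 : evc χ (1 - single e c) = 1 - algebraMap ℂ K c * χ (.ofAdd e) := by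
    rw [map_sub, map_one, evc_single]
  refine ⟨D * (1 - single e c), P, by rw [map_mul, Module.End.mul_apply, e1, h1], ?_, ?_⟩
  · rw [map_mul, e2]
    exact h2.mul (IsUnit.of_mul_eq_one_right _ hu)
  · rw [map_mul, e2, ← h3]
    linear_combination r' * evc χ D * hu

theorem delta [DecidableEq G] (m : G) (c : ℂ) :
    Rv χ (fun n => if m = n then c else 0) (algebraMap ℂ K c * χ (.ofAdd m)) :=
  ⟨1, single m c, by
    funext n
    simp [Finsupp.single_apply], by simp, by rw [map_one, mul_one, evc_single]⟩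

end Rv

/-! ### Geometric sums -/

section Geo

variable {ι : Type} [Fintype ι] [DecidableEq ι] [DecidableEq G]

/-- The mass on the lattice point `g` of the exponents that vanish outside `S`. -/
def gs (q : ι → ℝ≥0∞) (col : ι → G) (m : G) (S : Finset ι) (g : G) : ℝ≥0∞ :=
  ∑' k : ι → ℕ, if (∀ l ∉ S, k l = 0) ∧ m + ∑ l, k l • col l = g then ∏ l, q l ^ k l else 0

variable (q : ι → ℝ≥0∞) (col : ι → G) (m : G)

theorem gs_empty (g : G) : gs q col m ∅ g = if m = g then 1 else 0 := by
  rw [gs, tsum_eq_single 0]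
  · simp
  · exact fun k hk => if_neg fun h => hk (funext fun l => h.1 l (notMem_empty l))

theorem gs_insert {S : Finset ι} {i : ι} (hi : i ∉ S) (g : G) :
    gs q col m (insert i S) g = gs q col m S g + q i * gs q col m (insert i S) (g - col i) := by
  have inj : Function.Injective fun k : ι → ℕ => k + Pi.single i 1 := add_left_injective _
  have key : q i * gs q col m (insert i S) (g - col i) = ∑' k : ι → ℕ, if k i ≠ 0 ∧
      (∀ l ∉ insert i S, k l = 0) ∧ m + ∑ l, k l • col l = g then ∏ l, q l ^ k l else 0 := by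
    rw [gs, ← ENNReal.tsum_mul_left]
    refine Eq.trans (tsum_congr fun k => ?_) (inj.tsum_eq fun k hk => ?_)
    · have e1 : ∑ l, (k + Pi.single i 1 : ι → ℕ) l • col l = ∑ l, k l • col l + col i := by
        simp [add_smul, sum_add_distrib, Pi.single_apply]
      have e2 : ∏ l, q l ^ (k + Pi.single i 1 : ι → ℕ) l = q i * ∏ l, q l ^ k l := by
        simp only [Pi.add_apply, pow_add, prod_mul_distrib, Pi.single_apply, pow_ite, pow_one,
          pow_zero, prod_ite_eq', mem_univ, if_true, mul_comm]
      rw [e1, e2, mul_ite, mul_zero]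
      refine if_congr ((and_iff_right (by simp)).trans (and_congr (forall₂_congr fun l hl => ?_)
        (by rw [← add_assoc, eq_sub_iff_add_eq]))).symm rfl rfl
      rw [Pi.add_apply, Pi.single_eq_of_ne fun e => hl (mem_insert.2 (.inl e)), add_zero]
    · have : k i ≠ 0 := fun h => hk (if_neg fun h' => h'.1 h)
      refine ⟨k - Pi.single i 1, funext fun l => ?_⟩
      by_cases e : l = i
      · subst e
        simp only [Pi.add_apply, Pi.sub_apply, Pi.single_eq_same]
        omega
      · simp [Pi.single_eq_of_ne e]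
  rw [key, gs, gs, ← ENNReal.tsum_add]
  refine tsum_congr fun k => ?_
  by_cases hk : k i = 0
  · rw [if_neg (fun h : k i ≠ 0 ∧ _ => h.1 hk), add_zero]
    refine if_congr (and_congr_left' ⟨fun h l hl => ?_, fun h l hl => h l fun h' =>
      hl (mem_insert_of_mem h')⟩) rfl rfl
    by_cases e : l = i
    · rw [e, hk]
    · exact h l fun h' => (mem_insert.1 h').elim e hl
  · rw [if_neg (fun h : (∀ l ∉ S, k l = 0) ∧ _ => hk (h.1 i hi)), zero_add]
    exact if_congr (and_iff_right hk).symm rfl rfl

theorem gs_mono {S : Finset ι} (g : G) : gs q col m S g ≤ gs q col m univ g :=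
  ENNReal.tsum_le_tsum fun k => by
    split_ifs with h h'
    exacts [le_rfl, (h' ⟨by simp, h.2⟩).elim, zero_le, le_rfl]

/-- The value of a geometric sum. -/
theorem gs_rv {χ : Multiplicative G →* K} (hq : ∀ l, q l ≠ ∞) (hf : ∀ g, gs q col m univ g ≠ ∞)
    {u : ι → K} (hu : ∀ l, u l * (1 - algebraMap ℂ K (q l).toReal * χ (.ofAdd (col l))) = 1)
    (S : Finset ι) :
    Rv χ (fun g => ((gs q col m S g).toReal : ℂ)) (χ (.ofAdd m) * ∏ l ∈ S, u l) := by
  have hf' : ∀ S g, gs q col m S g ≠ ∞ := fun S g => ne_top_of_le_ne_top (hf g) (gs_mono q col m g)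
  induction S using Finset.induction_on with
  | empty =>
    have := Rv.delta (χ := χ) m 1
    rw [map_one, one_mul] at this
    rw [prod_empty, mul_one]
    refine (congrArg (Rv χ · _) (funext fun g => ?_)).mp this
    rw [gs_empty]
    split_ifs <;> simp
  | insert i S hi ih =>
    rw [prod_insert hi, mul_comm (u i), ← mul_assoc]
    refine Rv.div (hu i) (fun g => ?_) ih
    rw [gs_insert q col m hi g, ENNReal.toReal_add (hf' _ _) (ENNReal.mul_ne_top (hq i) (hf' _ _)),
      ENNReal.toReal_mul]
    push_cast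
    rfl

theorem tsum_pi_le (f : ι → ℕ → ℝ≥0∞) : ∑' k : ι → ℕ, ∏ l, f l (k l) ≤ ∏ l, ∑' j, f l j := by
  rw [ENNReal.tsum_eq_iSup_sum]
  refine iSup_le fun s => ?_
  calc ∑ k ∈ s, ∏ l, f l (k l)
      ≤ ∑ k ∈ Fintype.piFinset fun l => s.image (· l), ∏ l, f l (k l) :=
        sum_le_sum_of_subset fun k hk => Fintype.mem_piFinset.2 fun l => mem_image_of_mem _ hk
    _ = ∏ l, ∑ j ∈ s.image (· l), f l j := (prod_univ_sum _ _).symm
    _ ≤ _ := prod_le_prod' fun l _ => ENNReal.sum_le_tsum _

/-- A geometric sum is finite when every row has one sign and the zero columns converge. -/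
theorem gs_fin {I : Type} [Fintype I] (q : ι → ℝ≥0∞) (col : ι → I → ℤ) (m : I → ℤ)
    (hq : ∀ l, q l ≠ ∞) (h1 : ∀ i, (∀ l, 0 ≤ col l i) ∨ ∀ l, col l i ≤ 0)
    (h2 : ∀ l, col l = 0 → q l < 1) (g : I → ℤ) : gs q col m univ g ≠ ∞ := by
  classical
  let B : ℕ := ∑ i, (g i - m i).natAbs
  refine ne_top_of_le_ne_top (b := ∏ l, ∑' j : ℕ, if col l = 0 ∨ j ≤ B then q l ^ j else 0)
    (ENNReal.prod_ne_top fun l _ => ?_) (le_trans (ENNReal.tsum_le_tsum fun k => ?_) (tsum_pi_le _))
  · by_cases h : col l = 0
    · simp only [h, true_or, if_true, ENNReal.tsum_geometric, ne_eq, ENNReal.inv_eq_top]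
      exact (tsub_pos_of_lt (h2 l h)).ne'
    · rw [tsum_eq_sum (s := range (B + 1)) fun j hj => if_neg fun h' => h'.elim h fun h' =>
        hj (mem_range.2 (Nat.lt_succ_of_le h'))]
      refine ENNReal.sum_ne_top.2 fun j _ => ?_
      split_ifs
      exacts [ENNReal.pow_ne_top (hq l), ENNReal.zero_ne_top]
  · split_ifs with h
    · refine (prod_congr rfl fun l _ => (if_pos ?_).symm).le
      refine or_iff_not_imp_left.2 fun h0 => ?_
      obtain ⟨i, hi⟩ := Function.ne_iff.1 h0
      refine le_trans ?_ (single_le_sum (f := fun i => (g i - m i).natAbs)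
        (fun _ _ => Nat.zero_le _) (mem_univ i))
      have e : g i - m i = ∑ l, (k l : ℤ) * col l i := by
        rw [← h.2]
        simp
      rw [Pi.zero_apply] at hi
      rcases h1 i with s | s
      · have := single_le_sum (f := fun l => (k l : ℤ) * col l i)
          (fun l _ => mul_nonneg (Int.natCast_nonneg _) (s l)) (mem_univ l)
        have := s l
        have : (k l : ℤ) * 1 ≤ k l * col l i := by gcongr; omega
        omega
      · have := single_le_sum (f := fun l => -((k l : ℤ) * col l i)) (fun l _ => neg_nonneg.2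
          (mul_nonpos_of_nonneg_of_nonpos (Int.natCast_nonneg _) (s l))) (mem_univ l)
        rw [sum_neg_distrib] at this
        have := s l
        have : (k l : ℤ) * col l i ≤ k l * (-1) := by gcongr; omega
        omega
    · exact zero_le

end Geo

end

end Pool.Agent.MP_5d9b3c_ag.P3K
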