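import Pool.Agent.MP_5d9b3c_ag.H48G.Meas
import Pool.Agent.MP_5d9b3c_ag.P3K.Lat

/-! Integrals over the unit ball of functions of the orders of the coordinates. -/

namespace Pool.Agent.MP_5d9b3c_ag.P3K

open Set Metric MeasureTheory MeasureTheory.Measure H72 H48G
open scoped ENNReal

variable {p : ℕ} [hp : Fact p.Prime] {N : ℕ}

/-- The points of order `k`. -/
def Shl (p : ℕ) [Fact p.Prime] (k : ℕ) : Set ℚ_[p] := {x | x ≠ 0 ∧ x.valuation = k}

theorem Shl_eq (k : ℕ) : Shl p k = Dk 0 k \ Dk 0 (k + 1) := Set.ext fun y => by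
  rw [mem_sdiff, mem_D0, mem_D0, ← norm_lt_iff, not_lt, ← le_antisymm_iff]
  by_cases h : y = 0
  · subst h
    simpa [Shl] using (rr_pow_pos (p := p) k).ne
  · rw [Padic.norm_eq_zpow_neg_valuation h, rr, inv_pow, ← zpow_natCast, ← zpow_neg,
      zpow_right_inj₀ (zero_lt_one.trans one_lt_p) one_lt_p.ne', neg_inj]
    exact and_iff_right h

theorem meas_Shl (k : ℕ) : MeasurableSet (Shl p k) :=
  Shl_eq (p := p) k ▸ (meas_Dk _ _).diff (meas_Dk _ _)

theorem mu_Shl (k : ℕ) :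
    mu p (Shl p k) = ENNReal.ofReal (1 - rr p) * ENNReal.ofReal (rr p) ^ k := by
  have h := rr_pow_pos (p := p) 1
  rw [pow_one] at h
  rw [Shl_eq, measure_sdiff (Dk_mono _ (Nat.le_succ k)) (meas_Dk _ _).nullMeasurableSet
    (by simp [mu_Dk]), mu_Dk, mu_Dk, ← ENNReal.ofReal_sub _ (rr_pow_pos _).le,
    ← ENNReal.ofReal_pow h.le, mul_comm, ← ENNReal.ofReal_mul (rr_pow_pos _).le]
  rw [pow_succ, mul_sub, mul_one]

theorem null_axes : ∀ᵐ t ∂mN p N, ∀ l, t l ≠ 0 :=
  ae_all_iff.2 fun l => by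
    simpa [ae_iff] using null_poly (p := p) (MvPolynomial.X l) (MvPolynomial.X_ne_zero l)

/-- Decomposition of the unit ball into shells. -/
theorem shell {F : (Fin N → ℚ_[p]) → ℝ≥0∞} {f : (Fin N → ℕ) → ℝ≥0∞}
    (h : ∀ t k, (∀ l, t l ≠ 0 ∧ (t l).valuation = k l) → F t = f k) :
    ∫⁻ t in closedBall 0 1, F t ∂mN p N =
      ∑' k, f k * ∏ l, ENNReal.ofReal (1 - rr p) * ENNReal.ofReal (rr p) ^ k l := by
  have hm : ∀ k : Fin N → ℕ, MeasurableSet (univ.pi fun l => Shl p (k l)) := fun k =>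
    .univ_pi fun l => meas_Shl _
  have e : (closedBall 0 1 : Set (Fin N → ℚ_[p])) =ᵐ[mN p N]
      ⋃ k : Fin N → ℕ, univ.pi fun l => Shl p (k l) := by
    filter_upwards [null_axes] with t ht
    refine propext ⟨fun h => ?_, fun h => ?_⟩
    · have h' := (pi_norm_le_iff_of_nonneg zero_le_one).1 (mem_closedBall_zero_iff.1 h)
      exact mem_iUnion.2 ⟨fun l => (t l).valuation.toNat, fun l _ => ⟨ht l,
        (Int.toNat_of_nonneg ((Padic.norm_le_one_iff_val_nonneg _).1 (h' l))).symm⟩⟩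
    · obtain ⟨k, hk⟩ := mem_iUnion.1 h
      exact mem_closedBall_zero_iff.2 ((pi_norm_le_iff_of_nonneg zero_le_one).2 fun l =>
        (Padic.norm_le_one_iff_val_nonneg _).2 ((hk l trivial).2 ▸ Int.natCast_nonneg _))
  rw [setLIntegral_congr e, lintegral_iUnion hm fun k k' hk => Set.disjoint_left.2 fun t h1 h2 =>
    hk (funext fun l => Int.natCast_inj.1 ((h1 l trivial).2.symm.trans (h2 l trivial).2))]
  refine tsum_congr fun k => ?_
  rw [setLIntegral_congr_fun (hm k) fun t ht => h t k fun l => ht l trivial, setLIntegral_const,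
    mN, pi_pi]
  simp only [mu_Shl]

end Pool.Agent.MP_5d9b3c_ag.P3K
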