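import Pool.Agent.MP_5d9b3c_ag.P3K.Kit
import Pool.Agent.MP_5d9b3c_ag.P3K.Shell

/-! Volumes of level sets in an adapted box, and their regularised sums. -/

namespace Pool.Agent.MP_5d9b3c_ag.P3K

open Set Metric MeasureTheory H72 H48G
open scoped ENNReal

variable {p : ℕ} [Fact p.Prime] {L : Type} [Field L] [Algebra ℚ_[p] L] {n n' : ℕ}
  {I : Type} [Fintype I] {K : Type} [CommRing K] [Algebra ℂ K]

theorem zpow_sum' {x : ℝ} (hx : x ≠ 0) {ι : Type} (s : Finset ι) (e : ι → ℤ) :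
    x ^ ∑ i ∈ s, e i = ∏ i ∈ s, x ^ e i := by
  induction s using Finset.cons_induction with
  | empty => simp
  | cons i s hi ih => rw [Finset.sum_cons, Finset.prod_cons, zpow_add₀ hx, ih]

theorem Box.Mono.ev' {b : Box p L n} {g : L} {m : ℤ} {A : Fin n → ℤ} (h : b.Mono g m A)
    {t : Fin n → ℚ_[p]} {u : Fin n → ℕ} (ht : ∀ l, t l ≠ 0 ∧ (t l).valuation = (u l : ℤ)) :
    t ∈ Bl p n ∧ g ∈ (b.Φ t).O ∧ ‖(b.Φ t).ev g‖ = (p : ℝ) ^ (-(m + ∑ l, A l * u l)) := by
  have h0 : (p : ℝ) ≠ 0 := (zero_lt_one.trans one_lt_p).ne'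
  have h1 : t ∈ Bl p n := mem_closedBall_zero_iff.2 ((pi_norm_le_iff_of_nonneg zero_le_one).2
    fun l => (Padic.norm_le_one_iff_val_nonneg _).2 ((ht l).2 ▸ Int.natCast_nonneg _))
  obtain ⟨h2, h3⟩ := h.ev h1 fun l _ => (ht l).1
  refine ⟨h1, h2, ?_⟩
  rw [h3, neg_add, zpow_add₀ h0, ← Finset.sum_neg_distrib, zpow_sum' h0]
  refine congrArg _ (Finset.prod_congr rfl fun l _ => ?_)
  rw [Padic.norm_eq_zpow_neg_valuation (ht l).1, (ht l).2, ← zpow_mul, neg_mul, mul_comm]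

theorem Box.vol_eq (b : Box p L n) (j : L) (r : Fin n → L) {S : Set (Pt p L)}
    (hS : NullMeasurableSet (Bl p n ∩ b.Φ ⁻¹' S) (mN p n)) : b.vol j r S = ∫⁻ t in Bl p n,
      (b.Φ ⁻¹' S).indicator (fun t => ‖(b.Φ t).ev (j * b.jac r)‖ₑ) t ∂mN p n := by
  rw [Box.vol, ← lintegral_indicator₀ hS, ← lintegral_indicator isClosed_closedBall.measurableSet,
    indicator_indicator]

omit [Fintype I] in
theorem Box.open_Lv [Finite I] (b : Box p L n) (h : I → L) (a : I → ℤ) :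
    IsOpen (Bl p n ∩ b.Φ ⁻¹' Lv h a) := by
  refine isOpen_iff_mem_nhds.2 fun t ht => Filter.inter_mem
    ((IsUltrametricDist.isOpen_closedBall _ one_ne_zero).mem_nhds ht.1) (b.cont t ht.1 ?_)
  refine Filter.eventually_all.2 fun i => ?_
  have h0 : (0 : ℝ) < p ^ (-a i) := zpow_pos (zero_lt_one.trans one_lt_p) _
  refine (Pt.nhds_mem (ht.2 i).1 (ball_mem_nhds _ h0)).mono fun y hy => ⟨hy.1, ?_⟩
  rw [← (ht.2 i).2]
  exact norm_eq_of_lt (by rw [(ht.2 i).2, ← dist_eq_norm]; exact hy.2)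

/-- The volume of a level set in an adapted box. -/
theorem frm {b : Box p L n} {j : L} {r : Fin n → L} {h : I → L} {d : MD I n}
    (hb : b.Adp j r h d) (a : I → ℤ) : b.vol j r (Lv h a) = d.ser p a := by
  classical
  have h0 : (0 : ℝ) < p := zero_lt_one.trans one_lt_p
  have h1 := sub_nonneg.2 (rr_lt_one (p := p)).le
  rw [b.vol_eq j r (b.open_Lv h a).measurableSet.nullMeasurableSet, shell (f := fun u =>
    if ∀ i, a i = d.m i + ∑ l, d.A i l * u l then
      ENNReal.ofReal ((p : ℝ) ^ (-(d.c + ∑ l, (d.ν l - 1) * u l))) else 0) fun t u ht => ?_]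
  · refine tsum_congr fun u => ?_
    rw [ite_mul, zero_mul]
    refine if_congr Iff.rfl ?_ rfl
    simp only [← ENNReal.ofReal_pow (rr_pos (p := p)).le, ← ENNReal.ofReal_mul h1]
    rw [← ENNReal.ofReal_prod_of_nonneg fun _ _ => mul_nonneg h1 (rr_pow_pos _).le,
      ← ENNReal.ofReal_mul (zpow_pos h0 _).le, neg_add, zpow_add₀ h0.ne', ← Finset.sum_neg_distrib,
      zpow_sum' h0.ne', mul_assoc, ← Finset.prod_mul_distrib]
    refine congrArg (fun x => ENNReal.ofReal (_ * x)) (Finset.prod_congr rfl fun l _ => ?_)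
    rw [rr_pow_eq, mul_left_comm, ← zpow_add₀ h0.ne', rr]
    exact congrArg (fun e : ℤ => _ * (p : ℝ) ^ e) (by ring)
  · rw [indicator_apply, ← ofReal_norm, (hb.frm.ev' ht).2.2]
    refine if_congr (forall_congr' fun i => ?_) rfl rfl
    obtain ⟨-, k1, k2⟩ := (hb.fn i).ev' ht
    rw [k2, and_iff_right k1, zpow_right_inj₀ h0 one_lt_p.ne', neg_inj, eq_comm]

/-- The character of the lattice. -/
def chr (χ : I → Kˣ) : Multiplicative (I → ℤ) →* K where
  toFun a := (∏ i, χ i ^ a.toAdd i : Kˣ)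
  map_one' := by simp
  map_mul' a a' := by simp [zpow_add, Finset.prod_mul_distrib]

namespace MD

variable (d : MD I n)

open Classical in
theorem ser_eq (a : I → ℤ) : d.ser p a = ENNReal.ofReal ((p : ℝ) ^ (-d.c) * (1 - (p : ℝ)⁻¹) ^ n) *
    gs (fun l => ENNReal.ofReal ((p : ℝ) ^ (-d.ν l))) (fun l i => d.A i l) d.m Finset.univ a := by
  have h0 : (0 : ℝ) < p := zero_lt_one.trans one_lt_p
  have h1 : (0 : ℝ) ≤ 1 - (p : ℝ)⁻¹ := sub_nonneg.2 (rr_lt_one (p := p)).le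
  rw [ser, gs, ← ENNReal.tsum_mul_left]
  refine tsum_congr fun u => ?_
  rw [mul_ite, mul_zero]
  refine @if_congr _ _ _ _ (_) _ _ _ _ ?_ ?_ rfl
  · simp [funext_iff, eq_comm, mul_comm]
  · simp only [← ENNReal.ofReal_pow (zpow_pos h0 _).le]
    rw [← ENNReal.ofReal_prod_of_nonneg fun _ _ => by positivity,
      ← ENNReal.ofReal_mul (by positivity), Finset.prod_mul_distrib, Finset.prod_const,
      Finset.card_univ, Fintype.card_fin, mul_assoc]
    simp only [← zpow_natCast, ← zpow_mul, neg_mul]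

variable {d}

open Classical in
theorem Tame.gs_fin (h : d.Tame) (a : I → ℤ) : gs (fun l => ENNReal.ofReal ((p : ℝ) ^ (-d.ν l)))
    (fun l i => d.A i l) d.m Finset.univ a ≠ ∞ :=
  P3K.gs_fin _ _ _ (fun _ => ENNReal.ofReal_ne_top) h.sgn (fun l hl => ENNReal.ofReal_lt_one.2
    (zpow_lt_one_of_neg₀ one_lt_p (neg_neg_of_pos (h.pos l (congrFun hl))))) a

theorem Tame.fin (h : d.Tame) (a : I → ℤ) : d.ser p a ≠ ∞ :=
  d.ser_eq (p := p) a ▸ ENNReal.mul_ne_top ENNReal.ofReal_ne_top (h.gs_fin a)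

/-- The box value is the regularised sum of the volumes. -/
theorem Tame.rv (h : d.Tame) {χ : I → Kˣ} (hd : d.ND p χ) :
    Rv (chr χ) (fun a => ((d.ser p a).toReal : ℂ)) (d.val p χ) := by
  classical
  have h0 : (0 : ℝ) < p := zero_lt_one.trans one_lt_p
  have h1 : (0 : ℝ) ≤ 1 - (p : ℝ)⁻¹ := sub_nonneg.2 (rr_lt_one (p := p)).le
  have := (gs_rv _ _ _ (χ := chr χ) (fun _ => ENNReal.ofReal_ne_top) h.gs_fin
    (u := fun l => Ring.inverse (d.den p χ l)) (fun l => by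
      rw [ENNReal.toReal_ofReal (zpow_pos h0 _).le]
      push_cast
      exact Ring.inverse_mul_cancel _ (hd l)) Finset.univ).smul
        ((p : ℂ) ^ (-d.c) * (1 - (p : ℂ)⁻¹) ^ n)
  refine (congrArg₂ (Rv (chr χ)) (funext fun a => ?_) ?_).mp this
  · rw [ser_eq, ENNReal.toReal_mul, ENNReal.toReal_ofReal (by positivity)]
    push_cast
    rfl
  · rw [val, Finset.prod_mul_distrib, Finset.prod_const, Finset.card_univ, Fintype.card_fin,
      map_mul, map_pow]
    change _ * (((∏ i, χ i ^ d.m i : Kˣ) : K) * _) = _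
    ring

end MD

/-- The value of a family is the regularised sum of its volumes. -/
theorem rv_sum {ι : Type} (s : Finset ι) {d : ι → MD I n} {χ : I → Kˣ}
    (h : ∀ i ∈ s, (d i).Tame ∧ (d i).ND p χ) :
    Rv (chr χ) (fun a => ((∑ i ∈ s, (d i).ser p a).toReal : ℂ)) (∑ i ∈ s, (d i).val p χ) := by
  refine (congrArg (Rv (chr χ) · _) (funext fun a => ?_)).mp
    (Rv.sum s fun i hi => (h i hi).1.rv (h i hi).2)
  rw [ENNReal.toReal_sum fun i hi => (h i hi).1.fin a]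
  simp

/-- Equal volumes give equal values. -/
theorem lat {ι ι' : Type} [Fintype ι] [Fintype ι'] {d : ι → MD I n} {d' : ι' → MD I n'}
    {χ : I → Kˣ} (h : ∀ i, (d i).Tame ∧ (d i).ND p χ) (h' : ∀ i, (d' i).Tame ∧ (d' i).ND p χ)
    (e : ∀ a, ∑ i, (d i).ser p a = ∑ i, (d' i).ser p a) :
    ∑ i, (d i).val p χ = ∑ i, (d' i).val p χ :=
  (rv_sum _ fun i _ => h i).uniq (by simpa only [e] using rv_sum _ fun i _ => h' i)

end Pool.Agent.MP_5d9b3c_ag.P3K
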