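import Pool.Agent.MP_5d9b3c_ag.P3K.Mono
import Pool.Agent.MP_5d9b3c_ag.P3K.Spec

/-! Smaller balls in a box and refinements of families. -/

namespace Pool.Agent.MP_5d9b3c_ag.P3K

open Set Metric Topology Filter H72

variable {p : ℕ} [Fact p.Prime] {L k : Type} [Field L] [Algebra ℚ_[p] L] [Field k]
  [Algebra ℚ_[p] k] {n : ℕ} {c t : Fin n → ℚ_[p]} {e : ℕ}

theorem pe_ne (e : ℕ) : (p : L) ^ e ≠ 0 := by
  simpa using (map_ne_zero (algebraMap ℚ_[p] L)).2 (pow_ne_zero e (pp_ne (p := p)))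

theorem aff_dist (c t : Fin n → ℚ_[p]) (e : ℕ) :
    dist (c + (p : ℚ_[p]) ^ e • t) c = rr p ^ e * ‖t‖ := by
  rw [dist_eq_norm, add_sub_cancel_left, norm_smul, norm_pp_pow]

theorem aff_mem (ht : t ∈ Bl p n) : c + (p : ℚ_[p]) ^ e • t ∈ closedBall c (rr p ^ e) := by
  rw [mem_closedBall, aff_dist]
  exact mul_le_of_le_one_right (rr_pow_pos e).le (mem_closedBall_zero_iff.1 ht)

theorem ball_sub (hc : c ∈ Bl p n) : closedBall c (rr p ^ e) ⊆ Bl p n := fun _ hs =>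
  (IsUltrametricDist.dist_triangle_max _ c _).trans (max_le (hs.trans (rr_pow_le_one e)) hc)

theorem aff_bl (hc : c ∈ Bl p n) (ht : t ∈ Bl p n) : c + (p : ℚ_[p]) ^ e • t ∈ Bl p n :=
  ball_sub hc (aff_mem ht)

theorem aff_surj {s : Fin n → ℚ_[p]} (hs : s ∈ closedBall c (rr p ^ e)) :
    ∃ t ∈ Bl p n, c + (p : ℚ_[p]) ^ e • t = s := by
  have h : c + (p : ℚ_[p]) ^ e • ((p : ℚ_[p]) ^ e)⁻¹ • (s - c) = s := by
    rw [smul_inv_smul₀ (pow_ne_zero e pp_ne), add_sub_cancel]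
  refine ⟨_, mem_closedBall_zero_iff.2 ?_, h⟩
  rw [← h, mem_closedBall, aff_dist] at hs
  exact (mul_le_iff_le_one_right (rr_pow_pos e)).1 hs

theorem Pt.ev_aff {x : Pt p L} {g : L} (hg : g ∈ x.O) (a : ℚ_[p]) (e : ℕ) :
    (g - algebraMap ℚ_[p] L a) / (p : L) ^ e ∈ x.O ∧
      x.ev ((g - algebraMap ℚ_[p] L a) / (p : L) ^ e) = (x.ev g - a) / (p : ℚ_[p]) ^ e := by
  have h1 : x.ev ((p : L) ^ e) = (p : ℚ_[p]) ^ e := by rw [x.ev_pow (natCast_mem _ _), x.ev_nat]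
  have h2 : x.ev ((p : L) ^ e) ≠ 0 := h1 ▸ pow_ne_zero e pp_ne
  have h3 := x.O.algebraMap_mem a
  exact ⟨Pt.div_mem (sub_mem hg h3) h2, by
    rw [Pt.ev_div (sub_mem hg h3) h2, h1, x.ev_sub hg h3, x.ev_alg]⟩

namespace Box

variable (b : Box p L n)

/-- The ball of centre `c` and level `e`. -/
noncomputable def sub (hc : c ∈ Bl p n) (e : ℕ) : Box p L n where
  z i := (b.z i - algebraMap ℚ_[p] L (c i)) / (p : L) ^ e
  D i := (p : L) ^ e • b.D i
  Φ t := b.Φ (c + (p : ℚ_[p]) ^ e • t)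
  dual i j := by
    have : (b.z j - algebraMap ℚ_[p] L (c j)) / (p : L) ^ e =
        ((p : ℚ_[p]) ^ e)⁻¹ • (b.z j - algebraMap ℚ_[p] L (c j)) := by
      simp [Algebra.smul_def, div_eq_inv_mul]
    rw [this, Derivation.smul_apply, Derivation.map_smul, map_sub, Derivation.map_algebraMap,
      sub_zero, b.dual, Algebra.smul_def, Algebra.smul_def]
    simp [pe_ne (p := p) (L := L) e]
  alg g := (b.alg g).tower_top_of_subalgebra_le (Algebra.adjoin_le (range_subset_iff.2 fun i => by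
    have : b.z i = algebraMap ℚ_[p] L (c i) +
        (p : L) ^ e * ((b.z i - algebraMap ℚ_[p] L (c i)) / (p : L) ^ e) := by
      rw [mul_div_cancel₀ _ (pe_ne e), add_sub_cancel]
    rw [this]
    exact add_mem (Subalgebra.algebraMap_mem _ _) (mul_mem (pow_mem (natCast_mem _ _) _)
      (Algebra.subset_adjoin (mem_range_self i)))))
  fg := b.fg.imp fun _ h => ⟨h.1, fun _ ht => h.2 _ (aff_bl hc ht)⟩
  zm t ht i := (Pt.ev_aff (b.zm _ (aff_bl hc ht) i) _ e).1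
  sec t ht i := by
    rw [(Pt.ev_aff (b.zm _ (aff_bl hc ht) i) _ e).2, b.sec _ (aff_bl hc ht)]
    simp [pow_ne_zero e (pp_ne (p := p))]
  Dm t ht i g hg := mul_mem (pow_mem (natCast_mem _ _) _) (b.Dm _ (aff_bl hc ht) i g hg)
  mx t ht g hg h0 := by
    obtain ⟨h, h1, h2⟩ := b.mx _ (aff_bl hc ht) g hg h0
    refine ⟨fun i => (p : L) ^ e * h i, fun i => mul_mem (pow_mem (natCast_mem _ _) _) (h1 i),
      h2.trans (Finset.sum_congr rfl fun i _ => ?_)⟩
    have := pe_ne (p := p) (L := L) e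
    simp only [Pi.add_apply, Pi.smul_apply, smul_eq_mul, map_add, map_mul, map_pow, map_natCast]
    field_simp
    ring
  cont t ht := (b.cont _ (aff_bl hc ht)).comp (f := fun t => c + (p : ℚ_[p]) ^ e • t) (by fun_prop)
  opn t ht := by
    filter_upwards [b.opn _ (aff_bl hc ht), eventually_all.2 fun i =>
      Pt.ev_mem (b.zm _ (aff_bl hc ht) i)] with x h1 h2
    refine le_of_eq_of_le (congrArg b.Φ (funext fun i => ?_)) h1
    simp [(Pt.ev_aff (h2 i) _ e).2, mul_div_cancel₀ _ (pow_ne_zero e (pp_ne (p := p)))]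
  der t ht g hg := by
    have := (b.der _ (aff_bl hc ht) g hg).comp (f := fun t => c + (p : ℚ_[p]) ^ e • t) t
      (((hasStrictFDerivAt_id t).const_smul ((p : ℚ_[p]) ^ e)).const_add c)
    refine this.congr_fderiv (ContinuousLinearMap.ext fun v => ?_)
    simp only [ContinuousLinearMap.comp_apply, ContinuousLinearMap.sum_apply,
      ContinuousLinearMap.smul_apply, ContinuousLinearMap.proj_apply, ContinuousLinearMap.id_apply,
      Pi.smul_apply, smul_eq_mul, Derivation.smul_apply]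
    refine Finset.sum_congr rfl fun i _ => ?_
    rw [Pt.ev_mul _ _ (pow_mem (natCast_mem _ _) _) _ (b.Dm _ (aff_bl hc ht) i g hg),
      Pt.ev_pow _ (natCast_mem _ _), Pt.ev_nat]
    ring

theorem sub_isSub (hc : c ∈ Bl p n) (e : ℕ) : b.IsSub c e (b.sub hc e) :=
  ⟨hc, fun _ => rfl, fun _ _ => rfl⟩

variable {b} {b' : Box p L n} {g : L} {m : ℤ} {A : Fin n → ℤ}

namespace IsSub

theorem D (h : b.IsSub c e b') (i : Fin n) : b'.D i = (p : L) ^ e • b.D i :=
  sub_eq_zero.1 (b'.span _ fun j => by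
    rw [Derivation.sub_apply, b'.dual, h.z, sub_eq_zero]
    exact ((b.sub h.mem e).dual i j).symm)

theorem pt (h : b.IsSub c e b') (ht : t ∈ Bl p n) : ∃ s ∈ Bl p n, b.Φ s = b'.Φ t :=
  ⟨_, aff_bl h.mem ht, (h.Φ t ht).symm⟩

theorem ovr (h : b.IsSub c e b') : b'.Over b := fun _ ht =>
  (h.pt ht).imp fun _ k => ⟨k.1, k.2.le⟩

theorem z_eq (h : b.IsSub c e b') (i : Fin n) :
    b.z i = algebraMap ℚ_[p] L (c i) + (p : L) ^ e * b'.z i := by
  rw [h.z, mul_div_cancel₀ _ (pe_ne e), add_sub_cancel]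

theorem mono_z0 (h : b.IsSub c e b') {i : Fin n} (hi : c i = 0) :
    b'.Mono (b.z i) e (Pi.single i 1) := by
  simpa [h.z_eq i, hi] using (b'.un_p.mono.pow e).mul (b'.mono_z i)

theorem un_z (h : b.IsSub c e b') {i : Fin n} (hi : (p : ℝ) ^ (-(e : ℤ)) < ‖c i‖) :
    b'.Un (b.z i) (c i).valuation := fun t ht => by
  rw [h.Φ t ht, b.sec _ (aff_bl h.mem ht), ← Padic.norm_eq_zpow_neg_valuation
    (norm_pos_iff.1 ((zpow_pos p_pos _).trans hi))]
  refine ⟨b.zm _ (aff_bl h.mem ht) i, norm_eq_of_lt (lt_of_le_of_lt ?_ hi)⟩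
  rw [← dist_eq_norm, ← rr_pow_eq]
  exact (dist_le_pi_dist _ c i).trans (aff_mem ht)

open Classical in
/-- Monomials stay monomials. -/
theorem mono (h : b.IsSub c e b') (hc : Nm c e) (hg : b.Mono g m A) :
    b'.Mono g (m + ∑ l, A l * if c l = 0 then (e : ℤ) else (c l).valuation)
      fun l => if c l = 0 then A l else 0 := by
  refine (hg.over h.ovr (B := fun l => if c l = 0 then Pi.single l 1 else 0) fun l _ => ?_).congr
    rfl (funext fun l => ?_)
  · split_ifs with k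
    exacts [h.mono_z0 k, (h.un_z ((hc l).resolve_left k)).mono]
  · rw [Finset.sum_apply, Finset.sum_eq_single l (fun x _ hx => ?_) (by simp)]
    · by_cases k : c l = 0 <;> simp [k]
    · by_cases k : c x = 0 <;> simp [k, Pi.single_eq_of_ne' hx]

theorem jac (h : b.IsSub c e b') (r : Fin n → L) : b'.jac r = ((p : L) ^ e) ^ n * b.jac r := by
  have := Matrix.det_smul (Matrix.of fun i l => b.D i (r l)) ((p : L) ^ e)
  rw [Fintype.card_fin] at this
  exact Eq.trans (congrArg Matrix.det (Matrix.ext fun i l => by simp [h.D])) this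

theorem on (h : b.IsSub c e b') {P : Plc p L k} {i : Fin n} (hi : c i = 0) (hP : b.On P i) :
    b'.On P i := fun t ht h0 => by
  obtain ⟨h1, h2, h3, h4⟩ := hP _ (aff_bl (e := e) h.mem ht) (by simp [hi, h0])
  have e1 : b.z i = (p : L) ^ e * b'.z i := by simp [h.z_eq i, hi]
  have e2 : (p : L) ^ e ∈ P.O ∧ P.π ((p : L) ^ e) ≠ 0 := by
    have := P.cst ((p : ℚ_[p]) ^ e)
    rw [map_pow, map_pow, map_natCast, map_natCast] at this
    exact ⟨pow_mem (natCast_mem _ _) _, this ▸ pe_ne e⟩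
  rw [← h.Φ t ht] at h2 h3 h4
  refine ⟨?_, h2, fun g hg k => ?_, h4⟩
  · rw [e1, P.mul _ e2.1 _ (h2 (b'.zm t ht i))] at h1
    exact (mul_eq_zero.1 h1).resolve_left e2.2
  · have := mul_mem (pow_mem (natCast_mem _ p) e) (h3 g hg k)
    rwa [e1, mul_div_assoc', mul_div_mul_left _ _ (pe_ne e)] at this

/-- The face of a smaller ball is a smaller ball in the face. -/
theorem face {b b' : Box p L (n + 1)} {c : Fin (n + 1) → ℚ_[p]} (h : b.IsSub c e b')
    {P : Plc p L k} {i : Fin (n + 1)} (hi : c i = 0) {f f' : Box p k n} (hf : b.IsFace P i f)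
    (hf' : b'.IsFace P i f') : f.IsSub (i.removeNth c) e f' := by
  have h1 : i.removeNth c ∈ Bl p n := mem_bl.2 fun l => mem_bl.1 h.mem _
  refine ⟨h1, fun l => ?_, fun t ht => Pt.ext' (SetLike.ext fun y => ?_)⟩
  · have h2 := hf'.on.reg fun t ht => b'.zm t ht (i.succAbove l)
    have h3 := P.cst ((p : ℚ_[p]) ^ e)
    rw [map_pow, map_pow, map_natCast, map_natCast] at h3
    have h4 := pow_mem (natCast_mem P.O p) e
    rw [hf.z, hf'.z, h.z_eq, P.add _ (P.O.algebraMap_mem _) _ (mul_mem h4 h2), P.cst,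
      P.mul _ h4 _ h2, h3, Fin.removeNth_apply, add_sub_cancel_left,
      mul_div_cancel_left₀ _ (pe_ne e)]
  · rw [hf'.O t ht, hf.O _ (aff_bl h1 ht), h.Φ _ (ins_bl i ht)]
    have : c + (p : ℚ_[p]) ^ e • (i.insertNth 0 t : Fin (n + 1) → ℚ_[p]) =
        i.insertNth 0 (i.removeNth c + (p : ℚ_[p]) ^ e • t) := funext fun l => by
      refine Fin.succAboveCases i (by simp [hi]) (fun l => ?_) l
      simp [Fin.removeNth_apply]
    rw [this]

end IsSub

theorem Ev.and {Q Q' : Box p L n → Prop} (h : b.Ev c Q) (h' : b.Ev c Q') :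
    b.Ev c fun b => Q b ∧ Q' b := by
  obtain ⟨e, h⟩ := h
  obtain ⟨e', h'⟩ := h'
  exact ⟨max e e', fun a ha b' k => ⟨h a (le_of_max_le_left ha) b' k,
    h' a (le_of_max_le_right ha) b' k⟩⟩

theorem Ev.mono {Q Q' : Box p L n → Prop} (h : b.Ev c Q)
    (h' : ∀ e b', b.IsSub c e b' → Q b' → Q' b') : b.Ev c Q' :=
  h.imp fun _ k e he b' hb => h' e b' hb (k e he b' hb)

theorem Ev.all {ι : Type} [Finite ι] {Q : ι → Box p L n → Prop} (h : ∀ i, b.Ev c (Q i)) :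
    b.Ev c fun b => ∀ i, Q i b := by
  choose e he using h
  obtain ⟨a, ha⟩ := Finite.bddAbove_range e
  exact ⟨a, fun a' k b' hb i => he i a' ((ha (mem_range_self i)).trans k) b' hb⟩

/-- A property of points that holds near the centre holds on small balls. -/
theorem ev_of_nhds {q : (Fin n → ℚ_[p]) → Prop} (h : ∀ᶠ s in 𝓝 c, q s) :
    ∃ e₀, ∀ e, e₀ ≤ e → ∀ t ∈ Bl p n, q (c + (p : ℚ_[p]) ^ e • t) := by
  obtain ⟨ε, h1, h2⟩ := Metric.mem_nhds_iff.1 h
  exact (ev_small (p := p) h1).imp fun _ k e he t ht => h2 ((aff_mem ht).trans_lt (k e he))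

theorem ev_pt (hc : c ∈ Bl p n) {q : Pt p L → Prop} (h : ∀ᶠ x in 𝓝 (b.Φ c), q x) :
    b.Ev c fun b' => ∀ t ∈ Bl p n, q (b'.Φ t) :=
  (ev_of_nhds (b.cont c hc h)).imp fun _ k e he _ hb t ht => hb.Φ t ht ▸ k e he t ht

theorem ev_reg (hc : c ∈ Bl p n) (hg : g ∈ (b.Φ c).O) : b.Ev c fun b' => b'.Reg g :=
  ev_pt hc (Pt.ev_mem hg)

theorem ev_un (hc : c ∈ Bl p n) (hg : (b.Φ c).ev g ≠ 0) :
    b.Ev c fun b' => b'.Un g ((b.Φ c).ev g).valuation :=
  ev_pt (q := fun x => g ∈ x.O ∧ ‖x.ev g‖ = _) hc ((Pt.nhds_mem (Pt.mem_of_ne hg) (ball_mem_nhds _ (norm_pos_iff.2 hg))).mono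
    fun y hy => ⟨hy.1, by
      rw [← Padic.norm_eq_zpow_neg_valuation hg]
      exact norm_eq_of_lt (by rw [← dist_eq_norm]; exact hy.2)⟩)

/-- A unit times a monomial in the coordinates centred at `c`. -/
theorem ev_mono (hc : c ∈ Bl p n)
    (hg : (b.Φ c).ev (g / ∏ l, (b.z l - algebraMap ℚ_[p] L (c l)) ^ A l) ≠ 0) :
    b.Ev c fun b' => ∃ m, b'.Mono g m A := (ev_un hc hg).mono fun e b' hb h => by
  have h1 : ∀ l, b.z l - algebraMap ℚ_[p] L (c l) = (p : L) ^ e * b'.z l := fun l => by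
    rw [hb.z_eq l, add_sub_cancel_left]
  have := h.mono.mul (Mono.prod Finset.univ fun l _ =>
    ((b'.un_p.mono.pow e).mul (b'.mono_z l)).zpow (A l))
  simp only [h1] at this
  rw [div_mul_cancel₀ _ (Finset.prod_ne_zero_iff.2 fun l _ =>
    zpow_ne_zero _ (mul_ne_zero (pe_ne e) (b'.z_ne l)))] at this
  exact ⟨_, this.congr rfl (funext fun l => by simp [Finset.sum_apply, Pi.single_apply])⟩

end Box

theorem nm_ev (c : Fin n → ℚ_[p]) : ∃ e₀, ∀ e, e₀ ≤ e → Nm c e := by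
  have : ∀ i, ∃ e₀, ∀ e : ℕ, e₀ ≤ e → c i = 0 ∨ (p : ℝ) ^ (-(e : ℤ)) < ‖c i‖ := fun i => by
    by_cases h : c i = 0
    · exact ⟨0, fun _ _ => .inl h⟩
    · exact (ev_small (p := p) (norm_pos_iff.2 h)).imp fun _ k e he => .inr
        (rr_pow_eq (p := p) e ▸ k e he)
  choose e he using this
  obtain ⟨a, ha⟩ := Finite.bddAbove_range e
  exact ⟨a, fun a' k i => he i a' ((ha (mem_range_self i)).trans k)⟩

/-- The unit ball is a finite disjoint union of prescribed balls. -/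
theorem cover (e : (Fin n → ℚ_[p]) → ℕ) : ∃ T : Finset (Fin n → ℚ_[p]), (∀ c ∈ T, c ∈ Bl p n) ∧
    (∀ t ∈ Bl p n, ∃ c ∈ T, t ∈ closedBall c (rr p ^ e c)) ∧ ∀ c ∈ T, ∀ c' ∈ T, ∀ t,
      t ∈ closedBall c (rr p ^ e c) → t ∈ closedBall c' (rr p ^ e c') → c = c' := by
  classical
  have h0 : ∃ m, ∃ T : Finset (Fin n → ℚ_[p]), T.card = m ∧ (∀ c ∈ T, c ∈ Bl p n) ∧
      ∀ t ∈ Bl p n, ∃ c ∈ T, t ∈ closedBall c (rr p ^ e c) := by
    obtain ⟨T, h1, h2⟩ := (isCompact_closedBall (0 : Fin n → ℚ_[p]) 1).elim_nhds_subcover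
      (fun c => closedBall c (rr p ^ e c)) fun c _ => closedBall_mem_nhds _ (rr_pow_pos _)
    exact ⟨_, T, rfl, h1, fun t ht => by simpa using h2 ht⟩
  obtain ⟨T, h1, h2, h3⟩ := Nat.find_spec h0
  have key : ∀ c ∈ T, ∀ c' ∈ T, closedBall c (rr p ^ e c) ⊆ closedBall c' (rr p ^ e c') →
      c = c' := fun c hc c' hc' k => by
    by_contra hne
    refine Nat.find_min h0 (h1 ▸ Finset.card_erase_lt_of_mem hc) ⟨_, rfl,
      fun a ha => h2 a (Finset.mem_of_mem_erase ha), fun t ht => ?_⟩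
    obtain ⟨a, k1, k2⟩ := h3 t ht
    by_cases k3 : a = c
    · exact ⟨c', Finset.mem_erase.2 ⟨Ne.symm hne, hc'⟩, k (k3 ▸ k2)⟩
    · exact ⟨a, Finset.mem_erase.2 ⟨k3, k1⟩, k2⟩
  refine ⟨T, h2, h3, fun c hc c' hc' t k k' => ?_⟩
  rcases IsUltrametricDist.closedBall_subset_trichotomy c c' (rr p ^ e c) (rr p ^ e c') with
    h | h | h
  exacts [key c hc c' hc' h, (key c' hc' c hc h).symm, (Set.disjoint_left.1 h k k').elim]

theorem Box.ev_over {b b₀ : Box p L n} {s : Fin n → ℚ_[p]} (hc : c ∈ Bl p n) (hs : s ∈ Bl p n)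
    (h : b₀.Φ s ≤ b.Φ c) : b.Ev c fun b' => b'.Over b₀ :=
  Box.ev_pt (q := fun x => ∃ s ∈ Bl p n, b₀.Φ s ≤ x) hc
    ((((b₀.tend hs h).eventually_mem (Box.bl_nhds hs)).and
      (Pt.spec h (b₀.opn s hs))).mono fun _ k => ⟨_, k⟩)

open Classical in
theorem Box.IsSub.adp {I : Type} {b b' : Box p L n} {j : L} {r : Fin n → L} {h : I → L}
    {d : MD I n} (hb : b.IsSub c e b') (hc : Nm c e) (ha : b.Adp j r h d) :
    ∃ d', b'.Adp j r h d' ∧ d.Cut c d' := by
  have := ((b'.un_p.mono.pow e).pow n).mul (hb.mono hc ha.frm)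
  rw [mul_left_comm, ← hb.jac] at this
  refine ⟨⟨_, fun l => if c l = 0 then d.ν l else 1, _, _⟩, ⟨this.congr rfl (funext fun l => ?_),
    fun i => hb.mono hc (ha.fn i)⟩, fun l k => if_pos k, fun l k => if_neg k,
    fun i l k => if_pos k, fun i l k => if_neg k⟩
  by_cases k : c l = 0 <;> simp [k]

theorem MD.Cut.tame {I : Type} {d d' : MD I n} (h : d.Cut c d') (hd : d.Tame) : d'.Tame := by
  refine ⟨fun i => (hd.sgn i).imp (fun k l => ?_) fun k l => ?_, fun l k => ?_⟩ <;>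
    by_cases e : c l = 0
  exacts [h.A0 i l e ▸ k l, (h.A1 i l e).ge, h.A0 i l e ▸ k l, (h.A1 i l e).le,
    h.ν0 l e ▸ hd.pos l fun i => h.A0 i l e ▸ k i, h.ν1 l e ▸ one_pos]

theorem unit_kap {K : Type} [CommRing K] [Algebra ℂ K] {a : ℤ} (ha : a ≠ 0) :
    IsUnit (1 - algebraMap ℂ K ((p : ℂ) ^ a)) := by
  rw [← map_one (algebraMap ℂ K), ← map_sub]
  refine (IsUnit.mk0 _ (sub_ne_zero.2 fun h => ha ?_)).map _
  have : (p : ℝ) ^ a = (p : ℝ) ^ (0 : ℤ) := by
    rw [zpow_zero]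
    exact Complex.ofReal_injective (by simpa using h.symm)
  exact zpow_right_injective₀ p_pos one_lt_p.ne' this

theorem MD.Cut.nd {I K : Type} [Fintype I] [CommRing K] [Algebra ℂ K] {d d' : MD I n} {χ : I → Kˣ}
    (h : d.Cut c d') (hd : d.ND p χ) : d'.ND p χ := fun l => by
  by_cases e : c l = 0
  · simpa only [MD.den, h.ν0 l e, h.A0 _ l e] using hd l
  · simpa [MD.den, h.ν1 l e, h.A1 _ l e] using unit_kap (p := p) (K := K) (a := -1) (by simp)

theorem rSub : RSUB := fun b _ e hc => ⟨_, b.sub_isSub hc e⟩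

theorem rHer : RHER where
  mem _ := aff_bl
  nm := nm_ev
  mono h hc hg := ⟨_, _, h.mono hc hg, fun _ => ⟨fun k => if_pos k, fun k => if_neg k⟩⟩
  adp := Box.IsSub.adp
  tame := MD.Cut.tame
  nd := MD.Cut.nd
  on h hi := h.on hi
  face h hi := h.face hi

theorem rGrm : RGRM where
  nhds _ _ _ hc h := Box.ev_pt hc h
  un _ _ _ hc h := ⟨_, Box.ev_un hc h⟩
  mono _ _ _ _ := Box.ev_mono
  dom _ _ _ _ := Box.ev_over

theorem rFrm : RFRM := fun _ _ _ _ _ => frm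

theorem rPv : RPV := fun _ _ _ _ _ _ _ _ he hd hd' => pv hd hd' he

theorem Box.open_pre (b : Box p L n) {S : Set (Pt p L)} (hS : IsOpen S) :
    IsOpen (Bl p n ∩ b.Φ ⁻¹' S) := isOpen_iff_mem_nhds.2 fun t ht =>
  inter_mem (Box.bl_nhds ht.1) (b.cont t ht.1 (hS.mem_nhds ht.2))

theorem rInd : RIND := fun _ _ j r _ hS he hd hd' =>
  cmp hd hd' he j r fun c => (c.open_pre hS).measurableSet.nullMeasurableSet

theorem rCmp : RCMP := fun b b' => ⟨b.open_ov b', fun F => by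
  simpa [Box.jac_self, Pt.ev_one, Box.ov, Box.Ov] using b.int_ov b' 1 b'.z F⟩

theorem Box.jac_smul (b : Box p L n) (v : Fin n → ℚ_[p]) (r : Fin n → L) :
    (b.jac fun l => v l • r l) = (∏ l, v l) • b.jac r := by
  rw [Algebra.smul_def, map_prod, Box.jac, Box.jac, ← Matrix.det_mul_row]
  exact congrArg Matrix.det (Matrix.ext fun i l => by simp [Algebra.smul_def])

theorem Box.ind (b : Box p L n) : AlgebraicIndependent ℚ_[p] b.z := by
  refine algebraicIndependent_iff.2 fun P hP => ?_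
  by_contra h
  have h1 : ∀ t ∈ Bl p n, MvPolynomial.eval t P = 0 := fun t ht => by
    have := MvPolynomial.comp_aeval_apply (fun i => (⟨b.z i, b.zm t ht i⟩ : (b.Φ t).O))
      (b.Φ t).evH P
    rw [show MvPolynomial.aeval (fun i => (⟨b.z i, b.zm t ht i⟩ : (b.Φ t).O)) P = 0 from
      Subtype.ext ((MvPolynomial.comp_aeval_apply _ (b.Φ t).O.val P).trans hP), map_zero] at this
    rw [this, ← MvPolynomial.coe_aeval_eq_eval]
    exact congrArg (MvPolynomial.aeval · P) (funext fun i => (b.sec t ht i).symm)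
  exact (MeasureTheory.Measure.measure_pos_of_mem_nhds (H48G.mN p n) (Box.bl_nhds zero_bl)).ne'
    (MeasureTheory.measure_mono_null h1 (H48G.null_poly P h))

theorem Box.IsMap.D {b : Box p L n} {e : L ≃ₐ[ℚ_[p]] k} {b' : Box p k n} (h : b.IsMap e b')
    (i : Fin n) (g : L) : b'.D i (e g) = e (b.D i g) := by
  let X : Derivation ℚ_[p] L L := Derivation.mk'
    (e.symm.toLinearMap ∘ₗ (b'.D i).toLinearMap ∘ₗ e.toLinearMap) fun a a' => by simp
  have hX : ∀ a, e (X a) = b'.D i (e a) := fun a => e.apply_symm_apply _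
  have : ∀ l, X (b.z l) = if i = l then 1 else 0 := fun l => e.injective (by
    rw [hX, ← h.z, b'.dual]
    split_ifs <;> simp)
  rw [← hX, b.der_eq X g]
  simp [this]

theorem Box.IsMap.jac {b : Box p L n} {e : L ≃ₐ[ℚ_[p]] k} {b' : Box p k n} (h : b.IsMap e b')
    (r : Fin n → L) : (b'.jac fun l => e (r l)) = e (b.jac r) := by
  rw [Box.jac, Box.jac, AlgEquiv.map_det]
  exact congrArg Matrix.det (Matrix.ext fun i l => h.D i _)

theorem rSpn : RSPN where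
  span := Box.der_eq
  chain := Box.jac_chain
  self := Box.jac_self
  smul := Box.jac_smul
  ind := Box.ind
  sub h := ⟨fun i g => by rw [h.D]; rfl, fun r => by rw [h.jac, pow_mul]⟩
  map h := ⟨h.D, h.jac⟩

end Pool.Agent.MP_5d9b3c_ag.P3K
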