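import Pool.Agent.MP_5d9b3c_ag.P3K.Defs

/-! Evaluation at points and on boxes. -/

namespace Pool.Agent.MP_5d9b3c_ag.P3K

open Set Metric Topology Filter

variable {p : ℕ} [Fact p.Prime] {L : Type} [Field L] [Algebra ℚ_[p] L] {n : ℕ}

namespace Pt

variable (x : Pt p L) {f g : L}

/-- Evaluation as a homomorphism. -/
def evH : x.O →ₐ[ℚ_[p]] ℚ_[p] where
  toFun g := x.ev g
  map_one' := x.ev_one
  map_zero' := x.ev_zero
  map_mul' f g := x.ev_mul _ f.2 _ g.2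
  map_add' f g := x.ev_add _ f.2 _ g.2
  commutes' := x.ev_alg

theorem ev_neg (hg : g ∈ x.O) : x.ev (-g) = -x.ev g := map_neg x.evH ⟨g, hg⟩

theorem ev_sub (hf : f ∈ x.O) (hg : g ∈ x.O) : x.ev (f - g) = x.ev f - x.ev g :=
  map_sub x.evH ⟨f, hf⟩ ⟨g, hg⟩

theorem ev_pow (hg : g ∈ x.O) (e : ℕ) : x.ev (g ^ e) = x.ev g ^ e := map_pow x.evH ⟨g, hg⟩ e

theorem ev_smul (c : ℚ_[p]) (hg : g ∈ x.O) : x.ev (c • g) = c * x.ev g :=
  map_smul x.evH c ⟨g, hg⟩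

theorem ev_nat (e : ℕ) : x.ev e = e := by simpa using x.ev_alg e

theorem ev_sum {ι : Type} (s : Finset ι) {g : ι → L} (hg : ∀ i ∈ s, g i ∈ x.O) :
    x.ev (∑ i ∈ s, g i) = ∑ i ∈ s, x.ev (g i) := by
  induction s using Finset.cons_induction with
  | empty => simpa using x.ev_zero
  | cons i s hi ih =>
    have h := fun j hj => hg j (Finset.mem_cons.2 (.inr hj))
    rw [Finset.sum_cons, Finset.sum_cons, x.ev_add _ (hg i (Finset.mem_cons_self _ _)) _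
      (sum_mem h), ih h]

theorem ev_prod {ι : Type} (s : Finset ι) {g : ι → L} (hg : ∀ i ∈ s, g i ∈ x.O) :
    x.ev (∏ i ∈ s, g i) = ∏ i ∈ s, x.ev (g i) := by
  induction s using Finset.cons_induction with
  | empty => simpa using x.ev_one
  | cons i s hi ih =>
    have h := fun j hj => hg j (Finset.mem_cons.2 (.inr hj))
    rw [Finset.prod_cons, Finset.prod_cons, x.ev_mul _ (hg i (Finset.mem_cons_self _ _)) _
      (prod_mem h), ih h]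

variable {x}

theorem inv_mem' (h : x.ev g ≠ 0) : g⁻¹ ∈ x.O := x.inv_mem _ (mem_of_ne h) h

theorem ev_inv (h : x.ev g ≠ 0) : x.ev g⁻¹ = (x.ev g)⁻¹ := by
  refine eq_inv_of_mul_eq_one_right ?_
  rw [← x.ev_mul _ (mem_of_ne h) _ (inv_mem' h), mul_inv_cancel₀ (ne_zero h), x.ev_one]

theorem div_mem (hf : f ∈ x.O) (h : x.ev g ≠ 0) : f / g ∈ x.O :=
  div_eq_mul_inv f g ▸ mul_mem hf (inv_mem' h)

theorem ev_div (hf : f ∈ x.O) (h : x.ev g ≠ 0) : x.ev (f / g) = x.ev f / x.ev g := by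
  rw [div_eq_mul_inv, x.ev_mul _ hf _ (inv_mem' h), ev_inv h, div_eq_mul_inv]

theorem zpow_mem (h : x.ev g ≠ 0) (e : ℤ) : g ^ e ∈ x.O := by
  rcases e with e | e
  · simpa using pow_mem (mem_of_ne h) e
  · rw [zpow_negSucc, ← inv_pow]
    exact pow_mem (inv_mem' h) _

theorem ev_zpow (h : x.ev g ≠ 0) (e : ℤ) : x.ev (g ^ e) = x.ev g ^ e := by
  rcases e with e | e
  · simpa using x.ev_pow (mem_of_ne h) e
  · rw [zpow_negSucc, zpow_negSucc, ← inv_pow, x.ev_pow (inv_mem' h), ev_inv h, inv_pow]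

theorem le_def {x y : Pt p L} : x ≤ y ↔ x.O ≤ y.O := Iff.rfl

theorem ev_det {ι : Type} [Fintype ι] [DecidableEq ι] {M : Matrix ι ι L} (h : ∀ i j, M i j ∈ x.O) :
    M.det ∈ x.O ∧ x.ev M.det = (M.map x.ev).det := by
  let M' : Matrix ι ι x.O := fun i j => ⟨M i j, h i j⟩
  have e : M.det = (M'.det : L) := (x.O.val.map_det M').symm
  rw [e]
  exact ⟨M'.det.2, x.evH.map_det M'⟩

/-- The basic neighbourhoods. -/
theorem nhds_mem (hg : g ∈ x.O) {U : Set ℚ_[p]} (hU : U ∈ 𝓝 (x.ev g)) :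
    ∀ᶠ y in 𝓝 x, g ∈ y.O ∧ y.ev g ∈ U := by
  obtain ⟨V, h1, h2, h3⟩ := _root_.mem_nhds_iff.1 hU
  have : IsOpen {y : Pt p L | g ∈ y.O ∧ y.ev g ∈ V} :=
    TopologicalSpace.isOpen_generateFrom_of_mem ⟨g, V, h2, rfl⟩
  exact mem_of_superset (this.mem_nhds ⟨hg, h3⟩) fun y hy => ⟨hy.1, h1 hy.2⟩

theorem ev_mem (hg : g ∈ x.O) : ∀ᶠ y in 𝓝 x, g ∈ y.O := (nhds_mem hg univ_mem).mono fun _ h => h.1

theorem contAt (hg : g ∈ x.O) : ContinuousAt (fun y : Pt p L => y.ev g) x := fun _ hU =>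
  (nhds_mem hg hU).mono fun _ h => h.2

theorem tendsto_iff {α : Type} {l : Filter α} {Φ : α → Pt p L} : Tendsto Φ l (𝓝 x) ↔
    ∀ g ∈ x.O, (∀ᶠ a in l, g ∈ (Φ a).O) ∧ Tendsto (fun a => (Φ a).ev g) l (𝓝 (x.ev g)) := by
  refine ⟨fun h g hg => ⟨h (ev_mem hg), (contAt hg).tendsto.comp h⟩, fun h => ?_⟩
  refine TopologicalSpace.tendsto_nhds_generateFrom_iff.2 ?_
  rintro _ ⟨g, U, hU, rfl⟩ hx
  exact (h g hx.1).1.and ((h g hx.1).2 (hU.mem_nhds hx.2))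

/-- A neighbourhood of a point contains the points that dominate it. -/
theorem spec {y : Pt p L} (h : x ≤ y) : 𝓝 y ≤ 𝓝 x :=
  tendsto_iff.2 fun g hg => ⟨ev_mem (h hg), ev_eq h hg ▸ contAt (h hg)⟩

end Pt

namespace Box

variable (b : Box p L n) {t : Fin n → ℚ_[p]} {g : L} {m : ℤ} {A : Fin n → ℤ}

theorem z_ne (i : Fin n) : b.z i ≠ 0 := fun h => by
  have := b.dual i i
  rw [h, map_zero, if_pos rfl] at this
  exact zero_ne_one this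

theorem inj : InjOn b.Φ (Bl p n) := fun t ht s hs h =>
  funext fun i => by rw [← b.sec t ht, h, b.sec s hs]

theorem mon_ev (ht : t ∈ Bl p n) (h0 : ∀ l, A l ≠ 0 → t l ≠ 0) :
    ∏ l, b.z l ^ A l ∈ (b.Φ t).O ∧ (b.Φ t).ev (∏ l, b.z l ^ A l) = ∏ l, t l ^ A l := by
  have h : ∀ l, b.z l ^ A l ∈ (b.Φ t).O ∧ (b.Φ t).ev (b.z l ^ A l) = t l ^ A l := fun l => by
    by_cases e : A l = 0
    · rw [e, zpow_zero, zpow_zero]
      exact ⟨one_mem _, Pt.ev_one _⟩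
    · have : (b.Φ t).ev (b.z l) ≠ 0 := by rw [b.sec t ht]; exact h0 l e
      exact ⟨Pt.zpow_mem this _, by rw [Pt.ev_zpow this, b.sec t ht]⟩
  exact ⟨prod_mem fun l _ => (h l).1, by
    rw [Pt.ev_prod _ _ fun l _ => (h l).1]
    exact Finset.prod_congr rfl fun l _ => (h l).2⟩

variable {b}

theorem Un.ne (h : b.Un g m) (ht : t ∈ Bl p n) : (b.Φ t).ev g ≠ 0 :=
  norm_pos_iff.1 ((h t ht).2 ▸ zpow_pos (zero_lt_one.trans H72.one_lt_p) _)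

theorem Mono.ev (h : b.Mono g m A) (ht : t ∈ Bl p n) (h0 : ∀ l, A l ≠ 0 → t l ≠ 0) :
    g ∈ (b.Φ t).O ∧ ‖(b.Φ t).ev g‖ = (p : ℝ) ^ (-m) * ∏ l, ‖t l‖ ^ A l := by
  obtain ⟨h1, h2⟩ := h t ht
  obtain ⟨k1, k2⟩ := b.mon_ev ht h0
  have e : g = g / (∏ l, b.z l ^ A l) * ∏ l, b.z l ^ A l :=
    (div_mul_cancel₀ _ (Finset.prod_ne_zero_iff.2 fun l _ => zpow_ne_zero _ (b.z_ne l))).symm
  refine ⟨e ▸ mul_mem h1 k1, ?_⟩
  rw [e, Pt.ev_mul _ _ h1 _ k1, norm_mul, h2, k2, norm_prod]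
  simp only [norm_zpow]

theorem Mono.ne (h : b.Mono g m A) : g ≠ 0 := fun e =>
  Un.ne h (mem_closedBall_self zero_le_one) (by rw [e, zero_div, Pt.ev_zero])

end Box

end Pool.Agent.MP_5d9b3c_ag.P3K
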