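import Pool.Agent.MP_5d9b3c_ag.H48G.Meas

/-!
Points of a function field over the `p`-adic numbers, boxes, monomial data and box sums.
-/

namespace Pool.Agent.MP_5d9b3c_ag.P3K

open Set Metric MeasureTheory Topology Filter H48G
open scoped ENNReal

noncomputable section

/-- A local subring with fraction field `L` and residue field `ℚ_[p]`. -/
structure Pt (p : ℕ) [Fact p.Prime] (L : Type) [Field L] [Algebra ℚ_[p] L] where
  O : Subalgebra ℚ_[p] L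
  ev : L → ℚ_[p]
  ev_add : ∀ f ∈ O, ∀ g ∈ O, ev (f + g) = ev f + ev g
  ev_mul : ∀ f ∈ O, ∀ g ∈ O, ev (f * g) = ev f * ev g
  ev_alg : ∀ r, ev (algebraMap ℚ_[p] L r) = r
  ev_out : ∀ f, f ∉ O → ev f = 0
  inv_mem : ∀ f ∈ O, ev f ≠ 0 → f⁻¹ ∈ O
  fr : ∀ g : L, ∃ s ∈ O, s ≠ 0 ∧ s * g ∈ O

variable {p : ℕ} [Fact p.Prime] {L k : Type} [Field L] [Algebra ℚ_[p] L] [Field k]
  [Algebra ℚ_[p] k] {n : ℕ}

namespace Pt

theorem ev_one (x : Pt p L) : x.ev 1 = 1 := by simpa using x.ev_alg 1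

theorem ev_zero (x : Pt p L) : x.ev 0 = 0 := by simpa using x.ev_alg 0

theorem ne_zero {x : Pt p L} {g : L} (h : x.ev g ≠ 0) : g ≠ 0 := fun e => h (e ▸ x.ev_zero)

theorem mem_of_ne {x : Pt p L} {g : L} (h : x.ev g ≠ 0) : g ∈ x.O := by
  by_contra h'
  exact h (x.ev_out g h')

theorem ev_eq {x y : Pt p L} (h : x.O ≤ y.O) {g : L} (hg : g ∈ x.O) : y.ev g = x.ev g := by
  by_contra hne
  have hc := x.O.algebraMap_mem (-y.ev g)
  have h1 := add_mem hg hc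
  have h2 : x.ev (g + algebraMap ℚ_[p] L (-y.ev g)) ≠ 0 := by
    rw [x.ev_add _ hg _ hc, x.ev_alg, ← sub_eq_add_neg]
    exact sub_ne_zero.2 (Ne.symm hne)
  have h3 := y.ev_mul _ (h h1) _ (h (x.inv_mem _ h1 h2))
  rw [mul_inv_cancel₀ (ne_zero h2), y.ev_one, y.ev_add _ (h hg) _ (h hc), y.ev_alg, add_neg_cancel,
    zero_mul] at h3
  exact one_ne_zero h3

theorem ext' {x y : Pt p L} (h : x.O = y.O) : x = y := by
  have : x.ev = y.ev := funext fun g => by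
    by_cases hg : g ∈ x.O
    · exact (ev_eq h.le hg).symm
    · rw [x.ev_out g hg, y.ev_out g (h ▸ hg)]
  cases x
  cases y
  simp_all

/-- Domination. -/
instance : PartialOrder (Pt p L) := PartialOrder.lift O fun _ _ => ext'

instance : TopologicalSpace (Pt p L) :=
  .generateFrom {S | ∃ g U, IsOpen U ∧ S = {x : Pt p L | g ∈ x.O ∧ x.ev g ∈ U}}

/-- Transport along an isomorphism. -/
def map (e : L ≃ₐ[ℚ_[p]] k) (x : Pt p L) : Pt p k where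
  O := x.O.comap e.symm
  ev g := x.ev (e.symm g)
  ev_add f hf g hg := by rw [map_add]; exact x.ev_add _ hf _ hg
  ev_mul f hf g hg := by rw [map_mul]; exact x.ev_mul _ hf _ hg
  ev_alg r := by rw [e.symm.commutes, x.ev_alg]
  ev_out f hf := x.ev_out _ hf
  inv_mem f hf h := by
    show e.symm f⁻¹ ∈ x.O
    rw [map_inv₀]
    exact x.inv_mem _ hf h
  fr g := by
    obtain ⟨s, h1, h2, h3⟩ := x.fr (e.symm g)
    refine ⟨e s, ?_, (map_ne_zero e).2 h2, ?_⟩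
    · show e.symm (e s) ∈ x.O
      rwa [e.symm_apply_apply]
    · show e.symm (e s * g) ∈ x.O
      rwa [map_mul, e.symm_apply_apply]

end Pt

/-- The point `x` is a localisation of `A`. -/
structure LocOf (A : Subalgebra ℚ_[p] L) (x : Pt p L) : Prop where
  le : A ≤ x.O
  frac : ∀ g ∈ x.O, ∃ s ∈ A, x.ev s ≠ 0 ∧ s * g ∈ A

/-- The unit ball. -/
abbrev Bl (p : ℕ) [Fact p.Prime] (n : ℕ) : Set (Fin n → ℚ_[p]) := closedBall 0 1

/-- A chart whose coordinates run through the unit ball. -/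
structure Box (p : ℕ) [Fact p.Prime] (L : Type) [Field L] [Algebra ℚ_[p] L] (n : ℕ) where
  z : Fin n → L
  D : Fin n → Derivation ℚ_[p] L L
  Φ : (Fin n → ℚ_[p]) → Pt p L
  dual : ∀ i j, D i (z j) = if i = j then 1 else 0
  alg : ∀ g : L, IsAlgebraic (Algebra.adjoin ℚ_[p] (range z)) g
  fg : ∃ A : Subalgebra ℚ_[p] L, A.FG ∧ ∀ t ∈ Bl p n, LocOf A (Φ t)
  zm : ∀ t ∈ Bl p n, ∀ i, z i ∈ (Φ t).O
  sec : ∀ t ∈ Bl p n, ∀ i, (Φ t).ev (z i) = t i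
  Dm : ∀ t ∈ Bl p n, ∀ i, ∀ g ∈ (Φ t).O, D i g ∈ (Φ t).O
  mx : ∀ t ∈ Bl p n, ∀ g ∈ (Φ t).O, (Φ t).ev g = 0 → ∃ h : Fin n → L, (∀ i, h i ∈ (Φ t).O) ∧
    g = ∑ i, (z i - algebraMap ℚ_[p] L (t i)) * h i
  cont : ∀ t ∈ Bl p n, ContinuousAt Φ t
  opn : ∀ t ∈ Bl p n, ∀ᶠ x in 𝓝 (Φ t), Φ (fun i => x.ev (z i)) ≤ x
  der : ∀ t ∈ Bl p n, ∀ g ∈ (Φ t).O, HasStrictFDerivAt (𝕜 := ℚ_[p]) (fun s => (Φ s).ev g)
    (∑ i, (Φ t).ev (D i g) • ContinuousLinearMap.proj i) t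

/-- A place of `L` with residue field `k`. -/
structure Plc (p : ℕ) [Fact p.Prime] (L k : Type) [Field L] [Algebra ℚ_[p] L] [Field k]
    [Algebra ℚ_[p] k] where
  O : Subalgebra ℚ_[p] L
  π : L → k
  add : ∀ g ∈ O, ∀ h ∈ O, π (g + h) = π g + π h
  mul : ∀ g ∈ O, ∀ h ∈ O, π (g * h) = π g * π h
  cst : ∀ c, π (algebraMap ℚ_[p] L c) = algebraMap ℚ_[p] k c
  inv_mem : ∀ g ∈ O, π g ≠ 0 → g⁻¹ ∈ O
  surj : ∀ y, ∃ g ∈ O, π g = y

/-- The centre is zero or far from zero in each coordinate. -/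
def Nm (c : Fin n → ℚ_[p]) (e : ℕ) : Prop := ∀ i, c i = 0 ∨ (p : ℝ) ^ (-(e : ℤ)) < ‖c i‖

namespace Box

variable (b : Box p L n)

/-- `g` is a unit of constant order `m`. -/
def Un (g : L) (m : ℤ) : Prop :=
  ∀ t ∈ Bl p n, g ∈ (b.Φ t).O ∧ ‖(b.Φ t).ev g‖ = (p : ℝ) ^ (-m)

/-- `g` is a monomial times a unit of constant order. -/
def Mono (g : L) (m : ℤ) (A : Fin n → ℤ) : Prop := b.Un (g / ∏ l, b.z l ^ A l) m

/-- `g` is regular on the box. -/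
def Reg (g : L) : Prop := ∀ t ∈ Bl p n, g ∈ (b.Φ t).O

/-- The Jacobian determinant. -/
def jac (r : Fin n → L) : L := (Matrix.of fun i l => b.D i (r l)).det

/-- `b'` is the ball of centre `c` and level `e` in `b`. -/
structure IsSub (c : Fin n → ℚ_[p]) (e : ℕ) (b' : Box p L n) : Prop where
  mem : c ∈ Bl p n
  z : ∀ i, b'.z i = (b.z i - algebraMap ℚ_[p] L (c i)) / (p : L) ^ e
  Φ : ∀ t ∈ Bl p n, b'.Φ t = b.Φ (c + (p : ℚ_[p]) ^ e • t)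

/-- The property holds for all small balls with centre `c`. -/
def Ev (c : Fin n → ℚ_[p]) (Q : Box p L n → Prop) : Prop :=
  ∃ e₀ : ℕ, ∀ e, e₀ ≤ e → ∀ b', b.IsSub c e b' → Q b'

/-- `b'` is the image of `b`. -/
structure IsMap (e : L ≃ₐ[ℚ_[p]] k) (b' : Box p k n) : Prop where
  z : ∀ i, b'.z i = e (b.z i)
  Φ : ∀ t ∈ Bl p n, b'.Φ t = (b.Φ t).map e

/-- Every point of `b` dominates a point of `b₀`. -/
def Over (b₀ : Box p L n) : Prop := ∀ t ∈ Bl p n, ∃ s ∈ Bl p n, b₀.Φ s ≤ b.Φ t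

/-- At the point `x` the place `P` is the divisor of `z`. -/
structure OnAt (P : Plc p L k) (z : L) (x : Pt p L) : Prop where
  z0 : P.π z = 0
  le : x.O ≤ P.O
  dv : ∀ g ∈ x.O, P.π g = 0 → g / z ∈ x.O
  fr : ∀ g ∈ P.O, ∃ s ∈ x.O, P.π s ≠ 0 ∧ s * g ∈ x.O

/-- The place `P` is the divisor `z i = 0`. -/
def On (P : Plc p L k) (i : Fin n) : Prop :=
  ∀ t ∈ Bl p n, t i = 0 → OnAt P (b.z i) (b.Φ t)

/-- `f` is the face `z i = 0` of `b`. -/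
structure IsFace (b : Box p L (n + 1)) (P : Plc p L k) (i : Fin (n + 1)) (f : Box p k n) :
    Prop where
  on : b.On P i
  z : ∀ l, f.z l = P.π (b.z (i.succAbove l))
  O : ∀ t ∈ Bl p n, ∀ y, y ∈ (f.Φ t).O ↔ ∃ g ∈ (b.Φ (i.insertNth 0 t)).O, P.π g = y
  ev : ∀ t ∈ Bl p n, ∀ g ∈ (b.Φ (i.insertNth 0 t)).O,
    (f.Φ t).ev (P.π g) = (b.Φ (i.insertNth 0 t)).ev g

/-- The volume of a set of points for the form `j d r`. -/
def vol (j : L) (r : Fin n → L) (S : Set (Pt p L)) : ℝ≥0∞ :=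
  ∫⁻ t in Bl p n ∩ b.Φ ⁻¹' S, ‖(b.Φ t).ev (j * b.jac r)‖ₑ ∂mN p n

end Box

/-- The points where the functions `h` have the orders `a`. -/
def Lv {I : Type} (h : I → L) (a : I → ℤ) : Set (Pt p L) :=
  {x | ∀ i, h i ∈ x.O ∧ ‖x.ev (h i)‖ = (p : ℝ) ^ (-a i)}

/-- Monomial data of a form and of a family of functions. -/
structure MD (I : Type) (n : ℕ) where
  c : ℤ
  ν : Fin n → ℤ
  m : I → ℤ
  A : I → Fin n → ℤ

/-- The box has the data `d` for the form `j d r` and the functions `h`. -/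
structure Box.Adp {I : Type} (b : Box p L n) (j : L) (r : Fin n → L) (h : I → L) (d : MD I n) :
    Prop where
  frm : b.Mono (j * b.jac r) d.c fun l => d.ν l - 1
  fn : ∀ i, b.Mono (h i) (d.m i) (d.A i)

namespace MD

variable {I : Type} [Fintype I] (d : MD I n) {K : Type} [CommRing K] [Algebra ℂ K]

/-- The level sets have finite volume. -/
structure Tame : Prop where
  sgn : ∀ i, (∀ l, 0 ≤ d.A i l) ∨ ∀ l, d.A i l ≤ 0
  pos : ∀ l, (∀ i, d.A i l = 0) → 0 < d.ν l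

/-- The denominators. -/
def den (p : ℕ) (χ : I → Kˣ) (l : Fin n) : K :=
  1 - algebraMap ℂ K ((p : ℂ) ^ (-d.ν l)) * (∏ i, χ i ^ d.A i l : Kˣ)

/-- The denominators are units. -/
def ND (p : ℕ) (χ : I → Kˣ) : Prop := ∀ l, IsUnit (d.den p χ l)

/-- The regularised integral over a box. -/
def val (p : ℕ) (χ : I → Kˣ) : K :=
  algebraMap ℂ K ((p : ℂ) ^ (-d.c)) * (∏ i, χ i ^ d.m i : Kˣ) *
    ∏ l, algebraMap ℂ K (1 - (p : ℂ)⁻¹) * Ring.inverse (d.den p χ l)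

open Classical in
/-- The volume of a level set. -/
def ser (p : ℕ) (a : I → ℤ) : ℝ≥0∞ :=
  ∑' u : Fin n → ℕ, if ∀ i, a i = d.m i + ∑ l, d.A i l * u l then
    ENNReal.ofReal ((p : ℝ) ^ (-d.c) * ∏ l, (1 - (p : ℝ)⁻¹) * (p : ℝ) ^ (-(d.ν l * u l))) else 0

end MD

section Fam

variable {ι ι' : Type} (b : ι → Box p L n) (b' : ι' → Box p L n)

/-- The boxes are disjoint. -/
def Dis : Prop := ∀ i j, ∀ t ∈ Bl p n, ∀ s ∈ Bl p n, (b i).Φ t = (b j).Φ s → i = j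

/-- No point dominates points of two boxes. -/
def Sep : Prop :=
  ∀ i j, ∀ t ∈ Bl p n, ∀ s ∈ Bl p n, ∀ x, (b i).Φ t ≤ x → (b j).Φ s ≤ x → i = j

/-- Almost all points of the first family belong to the second one. -/
def Sb : Prop :=
  ∀ i, ∀ᵐ t ∂(mN p n).restrict (Bl p n), ∃ j, ∃ s ∈ Bl p n, (b' j).Φ s = (b i).Φ t

/-- Equivalent families. -/
def Eqv : Prop := Sb b b' ∧ Sb b' b

/-- General points of the first family dominate points of the second one. -/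
def Lies : Prop := ∃ Y : Finset L, 0 ∉ Y ∧ ∀ i, ∀ t ∈ Bl p n,
  (∀ y ∈ Y, ((b i).Φ t).ev y ≠ 0) → ∃ j, ∃ s ∈ Bl p n, (b' j).Φ s ≤ (b i).Φ t

/-- The functions in `X₀` have integral values. -/
def Itg (X₀ : Set L) : Prop :=
  ∀ i, ∀ t ∈ Bl p n, ∀ c ∈ X₀, c ∈ ((b i).Φ t).O ∧ ‖((b i).Φ t).ev c‖ ≤ 1

/-- General points where `X₀` has integral values dominate points of the family. -/
def Cov (X₀ : Set L) : Prop := ∃ Y : Finset L, 0 ∉ Y ∧ ∀ x : Pt p L, (∀ y ∈ Y, x.ev y ≠ 0) →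
  (∀ c ∈ X₀, c ∈ x.O ∧ ‖x.ev c‖ ≤ 1) → ∃ i, ∃ t ∈ Bl p n, (b i).Φ t ≤ x

/-- The family is adapted and tame, with invertible denominators. -/
def Fit {I : Type} [Fintype I] {K : Type} [CommRing K] [Algebra ℂ K] (j : L) (r : Fin n → L)
    (h : I → L) (χ : I → Kˣ) (d : ι → MD I n) : Prop :=
  ∀ i, (b i).Adp j r h (d i) ∧ (d i).Tame ∧ (d i).ND p χ

end Fam

end

end Pool.Agent.MP_5d9b3c_ag.P3K
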