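import Pool.Agent.MP_5d9b3c_ag.P3K.Spec
import Pool.Agent.MP_5d9b3c_ag.P3K.Cmp

/-! General points; equivalence of families; refinements. -/

namespace Pool.Agent.MP_5d9b3c_ag.P3K

open Set Metric MeasureTheory Topology Filter H48G
open scoped ENNReal

variable {p : ℕ} [Fact p.Prime] {L : Type} [Field L] [Algebra ℚ_[p] L] {n : ℕ}

theorem Pt.ev_aeval (x : Pt p L) {σ : Type} {z : σ → L} (hz : ∀ i, z i ∈ x.O)
    (P : MvPolynomial σ ℚ_[p]) : MvPolynomial.aeval z P ∈ x.O ∧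
      x.ev (MvPolynomial.aeval z P) = MvPolynomial.eval (fun i => x.ev (z i)) P := by
  induction P using MvPolynomial.induction_on with
  | C c => simpa using And.intro (x.O.algebraMap_mem c) (x.ev_alg c)
  | add P Q hP hQ =>
    rw [map_add, map_add]
    exact ⟨add_mem hP.1 hQ.1, by rw [x.ev_add _ hP.1 _ hQ.1, hP.2, hQ.2]⟩
  | mul_X P i hP =>
    rw [map_mul, map_mul, MvPolynomial.aeval_X, MvPolynomial.eval_X]
    exact ⟨mul_mem hP.1 (hz i), by rw [x.ev_mul _ hP.1 _ (hz i), hP.2]⟩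

namespace LocOf

variable {A A' : Subalgebra ℚ_[p] L} {x y : Pt p L}

theorem fr (h : LocOf A x) (g : L) : ∃ s ∈ A, s ≠ 0 ∧ s * g ∈ A := by
  obtain ⟨s, h1, h2, h3⟩ := x.fr g
  obtain ⟨u, u1, u2, u3⟩ := h.frac s h1
  obtain ⟨v, v1, v2, v3⟩ := h.frac _ h3
  refine ⟨v * (u * s), mul_mem v1 u3, mul_ne_zero (Pt.ne_zero v2) (mul_ne_zero (Pt.ne_zero u2) h2),
    ?_⟩
  have : v * (u * s) * g = u * (v * (s * g)) := by ring
  exact this ▸ mul_mem u1 v3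

/-- A common denominator. -/
theorem den (h : LocOf A x) (T : Finset L) : ∃ s ∈ A, s ≠ 0 ∧ ∀ g ∈ T, s * g ∈ A := by
  induction T using Finset.cons_induction with
  | empty => exact ⟨1, one_mem _, one_ne_zero, by simp⟩
  | cons g T _ ih =>
    obtain ⟨s, s1, s2, s3⟩ := ih
    obtain ⟨u, u1, u2, u3⟩ := h.fr g
    refine ⟨s * u, mul_mem s1 u1, mul_ne_zero s2 u2, fun a ha => ?_⟩
    rcases Finset.mem_cons.1 ha with rfl | ha
    · exact mul_assoc s u a ▸ mul_mem s1 u3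
    · exact mul_right_comm s a u ▸ mul_mem (s3 a ha) u1

theorem le_dom (h : LocOf A x) {w : Pt p L} (hA : A ≤ y.O) (h1 : x ≤ w) (h2 : y ≤ w) : x ≤ y :=
  fun g hg => by
    obtain ⟨s, s1, s2, s3⟩ := h.frac g hg
    have : y.ev s ≠ 0 := by rwa [← Pt.ev_eq h2 (hA s1), Pt.ev_eq h1 (h.le s1)]
    simpa [Pt.ne_zero s2] using Pt.div_mem (hA s3) this

theorem gen (hA : A.FG) (h : LocOf A' y) : ∃ s ∈ A', s ≠ 0 ∧
    ∀ y : Pt p L, A' ≤ y.O → y.ev s ≠ 0 → A ≤ y.O := by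
  obtain ⟨T, rfl⟩ := hA
  obtain ⟨s, s1, s2, s3⟩ := h.den T
  exact ⟨s, s1, s2, fun y k1 k2 => Algebra.adjoin_le fun g hg => by
    simpa [s2] using Pt.div_mem (k1 (s3 g hg)) k2⟩

end LocOf

theorem bl_zero : (0 : Fin n → ℚ_[p]) ∈ Bl p n := mem_closedBall_self zero_le_one

theorem Box.null (b : Box p L n) {g : L} (h0 : g ≠ 0) (hg : b.Reg g) :
    ∀ᵐ t ∂(mN p n).restrict (Bl p n), (b.Φ t).ev g ≠ 0 := by
  obtain ⟨a, ha, c, hc⟩ : ∃ a ∈ Algebra.adjoin ℚ_[p] (range b.z), ∃ c, a ≠ 0 ∧ a = g * c ∧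
      b.Reg c := by
    obtain ⟨P, hP, e⟩ := b.alg g
    obtain ⟨Q, q1, q2⟩ := Polynomial.exists_eq_pow_rootMultiplicity_mul_and_not_dvd P hP 0
    rw [q1, map_mul, map_zero, sub_zero, map_pow, Polynomial.aeval_X] at e
    have e' := (mul_eq_zero.1 e).resolve_left (pow_ne_zero _ h0)
    rw [map_zero, sub_zero, Polynomial.X_dvd_iff] at q2
    rw [← Polynomial.X_mul_divX_add Q, map_add, map_mul, Polynomial.aeval_X, Polynomial.aeval_C] at e'
    refine ⟨_, (Q.coeff 0).2, -Polynomial.aeval g Q.divX, fun h => q2 (Subtype.ext h),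
      by rw [mul_neg]; exact eq_neg_of_add_eq_zero_right e', fun t ht => neg_mem ?_⟩
    rw [Polynomial.aeval_eq_sum_range]
    exact sum_mem fun i _ => mul_mem (Algebra.adjoin_le (range_subset_iff.2 (b.zm t ht))
      (Q.divX.coeff i).2) (pow_mem (hg t ht) i)
  rw [Algebra.adjoin_range_eq_range_aeval] at ha
  obtain ⟨P, rfl⟩ := ha
  have hP : P ≠ 0 := fun h => hc.1 (by rw [h, map_zero])
  filter_upwards [ae_restrict_mem isClosed_closedBall.measurableSet,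
    ae_restrict_of_ae (compl_mem_ae_iff.2 (null_poly P hP))] with t ht k e
  have := ((b.Φ t).ev_aeval (b.zm t ht) P).2
  rw [show MvPolynomial.aeval b.z P = g * c from hc.2.1, Pt.ev_mul _ _ (hg t ht) _ (hc.2.2 t ht), e,
    zero_mul, funext (b.sec t ht)] at this
  exact k this.symm

theorem rNUL : RNUL := fun b g h0 => by
  obtain ⟨A, -, hA⟩ := b.fg
  obtain ⟨s, s1, s2, s3⟩ := (hA 0 bl_zero).fr g
  filter_upwards [b.null s2 fun t ht => (hA t ht).le s1,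
    b.null (mul_ne_zero s2 h0) fun t ht => (hA t ht).le s3] with t k1 k2 e
  rw [Box.ev_unit k1, e, mul_zero] at k2
  exact k2 rfl

theorem rGEN : RGEN := fun b b' => by
  obtain ⟨A, a1, a2⟩ := b.fg
  obtain ⟨A', c1, c2⟩ := b'.fg
  obtain ⟨u, u1, u2, u3⟩ := (c2 0 bl_zero).gen a1
  obtain ⟨v, v1, v2, v3⟩ := (a2 0 bl_zero).gen c1
  refine ⟨u * v, mul_ne_zero u2 v2, fun t ht s hs x hx h1 h2 => ?_⟩
  have k1 := (c2 s hs).le u1
  have k2 := (a2 t ht).le v1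
  rw [x.ev_mul _ (h2 k1) _ (h1 k2), Pt.ev_eq h2 k1, Pt.ev_eq h1 k2] at hx
  exact le_antisymm ((a2 t ht).le_dom (u3 _ (c2 s hs).le (left_ne_zero_of_mul hx)) h1 h2)
    ((c2 s hs).le_dom (v3 _ (a2 t ht).le (right_ne_zero_of_mul hx)) h2 h1)

/-- Almost everywhere domination is equality. -/
theorem Box.ae_eq (b : Box p L n) {ι : Type} [Finite ι] (c : ι → Box p L n) :
    ∀ᵐ t ∂(mN p n).restrict (Bl p n), t ∈ Bl p n ∧
      ∀ j, ∀ s ∈ Bl p n, (c j).Φ s ≤ b.Φ t → (c j).Φ s = b.Φ t := by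
  refine (ae_restrict_mem isClosed_closedBall.measurableSet).and (ae_all_iff.2 fun j => ?_)
  obtain ⟨σ, h1, h2⟩ := rGEN b (c j)
  filter_upwards [ae_restrict_mem isClosed_closedBall.measurableSet, rNUL b σ h1] with t ht k s hs e
  exact (h2 t ht s hs _ k le_rfl e).symm

theorem rLIE : RLIE := fun b b' ⟨Y, h0, h⟩ i => by
  filter_upwards [(b i).ae_eq b', (ae_ball_iff Y.countable_toSet).2 fun y hy =>
    rNUL (b i) y fun e => h0 (e ▸ hy)] with t k1 k2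
  obtain ⟨j, s, hs, e⟩ := h i t k1.1 k2
  exact ⟨j, s, hs, k1.2 j s hs e⟩

variable {ι ι' : Type} {b : ι → Box p L n} {b' : ι' → Box p L n} {π : ι' → ι} {X₀ : Set L}

theorem Itg.lies (h : Itg b X₀) (h' : Cov b' X₀) : Lies b b' :=
  h'.imp fun _ k => ⟨k.1, fun i t ht e => k.2 _ e (h i t ht)⟩

theorem rCOV : RCOV := fun _ _ _ h1 h2 h3 h4 => ⟨rLIE _ _ (h1.lies h4), rLIE _ _ (h3.lies h2)⟩

theorem rFIB : RFIB := fun b b' π hs hd ho i => ⟨fun _ => by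
    filter_upwards [hs i, (b i).ae_eq fun j => b (π j)] with t ⟨j, s, k1, k2⟩ k3
    obtain ⟨u, u1, u2⟩ := ho j s k1
    exact ⟨⟨j, hd _ _ u u1 t k3.1 (k3.2 j u u1 (k2 ▸ u2))⟩, s, k1, k2⟩,
  rLIE _ _ ⟨∅, by simp, fun ⟨j, e⟩ t ht _ => ⟨(), by subst e; exact ho j t ht⟩⟩⟩

theorem Eqv.symm (h : Eqv b b') : Eqv b' b := ⟨h.2, h.1⟩

theorem Sb.of_sub (h : ∀ i, ∀ t ∈ Bl p n, ∃ j, ∃ s ∈ Bl p n, (b' j).Φ s = (b i).Φ t) : Sb b b' :=
  fun i => (ae_restrict_mem isClosed_closedBall.measurableSet).mono (h i)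

theorem Eqv.refl (b : ι → Box p L n) : Eqv b b :=
  ⟨Sb.of_sub fun i t ht => ⟨i, t, ht, rfl⟩, Sb.of_sub fun i t ht => ⟨i, t, ht, rfl⟩⟩

theorem Box.le_inj (c : Box p L n) {t s : Fin n → ℚ_[p]} (ht : t ∈ Bl p n) (hs : s ∈ Bl p n)
    {x : Pt p L} (h1 : c.Φ t ≤ x) (h2 : c.Φ s ≤ x) : t = s := funext fun i => by
  rw [← c.sec t ht, ← c.sec s hs, ← Pt.ev_eq h1 (c.zm t ht i), ← Pt.ev_eq h2 (c.zm s hs i)]

theorem Sep.dis (h : Sep b) : Dis b := fun i j t ht s hs e => h i j t ht s hs _ e.le le_rfl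

theorem Sep.comp (h : Sep b) (hπ : Function.Injective π) : Sep fun j => b (π j) :=
  fun _ _ t ht s hs x h1 h2 => hπ (h _ _ t ht s hs x h1 h2)

theorem Dis.comp (h : Dis b) (hπ : Function.Injective π) : Dis fun j => b (π j) :=
  fun _ _ t ht s hs e => hπ (h _ _ t ht s hs e)

theorem sep_one [Subsingleton ι] : Sep b := fun _ _ _ _ _ _ _ _ _ => Subsingleton.elim _ _

theorem Itg.of_dom (h : Itg b X₀) (ho : ∀ j, (b' j).Over (b (π j))) : Itg b' X₀ :=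
  fun j t ht c hc => (ho j t ht).elim fun s k =>
    ⟨k.2 (h _ s k.1 c hc).1, Pt.ev_eq k.2 (h _ s k.1 c hc).1 ▸ (h _ s k.1 c hc).2⟩

theorem rTRS : RTRS := fun {p} _ {L} _ _ {n} _ _ _ _ b b' b'' h h' i => by
  have key : ∀ j, ∀ᵐ t ∂(mN p n).restrict (Bl p n), t ∈ (b i).ov (b' j) →
      ∃ k, ∃ s ∈ Bl p n, (b'' k).Φ s = (b i).Φ t := fun j => by
    let S : Set (Pt p L) := {x | ¬∃ k, ∃ s ∈ Bl p n, (b'' k).Φ s = x}
    have hm : MeasurableSet ((b i).ov (b' j) \ ⋃ k, (b i).ov (b'' k)) :=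
      (Box.open_ov _ _).measurableSet.diff (isOpen_iUnion fun _ => Box.open_ov _ _).measurableSet
    have e := (b' j).int_ov (b i) 1 (b i).z (S.indicator 1)
    rw [lintegral_congr_ae (μ := (mN p n).restrict ((b' j).ov (b i))) (g := 0) (by
      filter_upwards [ae_restrict_of_ae_restrict_of_subset (fun _ k => k.1) (h' j)] with s hs
      simp [indicator_of_notMem (s := S) (not_not.2 hs)]), lintegral_zero_fun,
      setLIntegral_congr_fun (Box.open_ov _ _).measurableSet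
        (g := ((b i).ov (b' j) \ ⋃ k, (b i).ov (b'' k)).indicator 1) (fun t ht => ?_),
      lintegral_indicator_one hm, Measure.restrict_eq_self _ sdiff_subset] at e
    · filter_upwards [ae_restrict_of_ae (compl_mem_ae_iff.2 e)] with t k1 k2
      by_contra k3
      exact k1 ⟨k2, fun k4 => (mem_iUnion.1 k4).elim fun k k5 => k3 ⟨k, k5.2⟩⟩
    · simp only [Box.jac_self, mul_one, Pt.ev_one, enorm_one]
      by_cases k : (b i).Φ t ∈ S
      · rw [indicator_of_mem k, indicator_of_mem (show t ∈ _ \ _ from ⟨ht, fun k4 =>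
          (mem_iUnion.1 k4).elim fun l k5 => k ⟨l, k5.2⟩⟩)]
        rfl
      · rw [indicator_of_notMem k, indicator_of_notMem fun k4 => (not_not.1 k).elim fun l k5 =>
          k4.2 (mem_iUnion.2 ⟨l, ht.1, k5⟩)]
  filter_upwards [h i, ae_all_iff.2 key, ae_restrict_mem isClosed_closedBall.measurableSet]
    with t ⟨j, k1⟩ k2 k3
  exact k2 j ⟨k3, k1⟩

theorem Eqv.trans {ι'' : Type} {b'' : ι'' → Box p L n} [Finite ι'] (h : Eqv b b')
    (h' : Eqv b' b'') : Eqv b b'' := ⟨rTRS _ _ _ h.1 h'.1, rTRS _ _ _ h'.2 h.2⟩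

namespace Rfn

variable (h : Rfn b b' π)
include h

theorem dom (j : ι') : (b' j).Over (b (π j)) := fun t ht =>
  (h.sub j t ht).imp fun _ k => ⟨k.1, k.2.le⟩

theorem dis' (hd : Dis b) : Dis b' := fun i j t ht s hs e => by
  obtain ⟨u, u1, u2⟩ := h.sub i t ht
  obtain ⟨v, v1, v2⟩ := h.sub j s hs
  exact h.dis i j (hd _ _ u u1 v v1 (by rw [u2, v2, e])) t ht s hs e

theorem sep (hd : Sep b) : Sep b' := fun i j t ht s hs x h1 h2 => by
  obtain ⟨u, u1, u2⟩ := h.sub i t ht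
  obtain ⟨v, v1, v2⟩ := h.sub j s hs
  have e := hd _ _ u u1 v v1 x (u2 ▸ h1) (v2 ▸ h2)
  refine h.dis i j e t ht s hs ?_
  rw [← u2, ← v2, e, (b (π j)).le_inj u1 v1 (e ▸ u2 ▸ h1) (v2 ▸ h2)]

theorem itg (hd : Itg b X₀) : Itg b' X₀ := hd.of_dom h.dom

theorem cov' (hd : Cov b X₀) : Cov b' X₀ := hd.imp fun _ k => ⟨k.1, fun x h1 h2 => by
  obtain ⟨i, t, ht, e⟩ := k.2 x h1 h2
  obtain ⟨j, -, s, hs, e'⟩ := h.cov i t ht
  exact ⟨j, s, hs, e' ▸ e⟩⟩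

theorem eqv : Eqv b b' := ⟨Sb.of_sub fun i t ht => (h.cov i t ht).imp fun _ k => k.2,
  Sb.of_sub fun j t ht => ⟨π j, h.sub j t ht⟩⟩

/-- The part of a refinement over one box. -/
theorem fib (i : ι) : Rfn (fun _ : Unit => b i) (fun j : {j // π j = i} => b' j) fun _ => () :=
  ⟨fun ⟨j, e⟩ t ht => by subst e; exact h.sub j t ht, fun _ s hs => (h.cov i s hs).elim fun j k =>
    ⟨⟨j, k.1⟩, rfl, k.2⟩, fun j l _ t ht s hs e =>
      Subtype.ext (h.dis _ _ (j.2.trans l.2.symm) t ht s hs e)⟩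

theorem trans {ι'' : Type} {b'' : ι'' → Box p L n} {π' : ι'' → ι'} (h' : Rfn b' b'' π') :
    Rfn b b'' fun j => π (π' j) :=
  ⟨fun j t ht => (h'.sub j t ht).elim fun s k => (h.sub _ s k.1).imp fun _ k' =>
      ⟨k'.1, k'.2.trans k.2⟩, fun i s hs => by
    obtain ⟨j, rfl, t, ht, e⟩ := h.cov i s hs
    obtain ⟨l, rfl, u, hu, e'⟩ := h'.cov j t ht
    exact ⟨l, rfl, u, hu, e'.trans e⟩, fun i j e t ht s hs e' => by
    obtain ⟨u, u1, u2⟩ := h'.sub i t ht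
    obtain ⟨v, v1, v2⟩ := h'.sub j s hs
    exact h'.dis i j (h.dis _ _ e u u1 v v1 (by rw [u2, v2, e'])) t ht s hs e'⟩

end Rfn

/-- Refinements of the members of a family form a refinement of the family. -/
theorem Rfn.sigma {κ : ι → Type} {c : ∀ i, κ i → Box p L n}
    (h : ∀ i, Rfn (fun _ : Unit => b i) (c i) fun _ => ()) :
    Rfn b (fun j : Σ i, κ i => c j.1 j.2) Sigma.fst :=
  ⟨fun j => (h j.1).sub j.2, fun i s hs => ((h i).cov () s hs).elim fun j k => ⟨⟨i, j⟩, rfl, k.2⟩, by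
    rintro ⟨i, j⟩ ⟨i', j'⟩ (rfl : i = i') t ht s hs e
    rw [(h i).dis j j' rfl t ht s hs e]⟩

end Pool.Agent.MP_5d9b3c_ag.P3K
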