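import Pool.Agent.MP_5d9b3c_ag.P3K.Spec
import Pool.Agent.MP_5d9b3c_ag.P3K.Mono
import Pool.Agent.MP_5d9b3c_ag.P3D.Res

/-! From box sums to the Poincare series. -/

namespace Pool.Agent.MP_5d9b3c_ag.P3K

open Set Metric MeasureTheory Topology Filter H72 H48G
open scoped ENNReal

namespace IGU

open Polynomial in
theorem cancel {K : Type} [CommRing K] [Algebra ℂ K] {O : Subalgebra ℂ K} (ε : O →ₐ[ℂ] ℂ)
    (ξ r : O) {A : PowerSeries ℂ} (N : ℕ) : ∀ D P : ℂ[X], D.natDegree = N →
      (D : PowerSeries ℂ) * A = P → IsUnit (aeval (ξ : K) D) →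
      (r : K) * aeval (ξ : K) D = aeval (ξ : K) P →
      ∃ D P : ℂ[X], D.eval (ε ξ) ≠ 0 ∧ (D : PowerSeries ℂ) * A = P := by
  have ev : ∀ P : ℂ[X], ε (aeval ξ P) = P.eval (ε ξ) := fun P => by
    rw [← aeval_algHom_apply, coe_aeval_eq_eval]
  have co : ∀ P : ℂ[X], aeval (ξ : K) P = (aeval ξ P : O) := fun P =>
    aeval_algHom_apply O.val ξ P
  induction N using Nat.strong_induction_on with
  | _ N ih =>
    intro D P e h3 hu h4
    by_cases h : D.eval (ε ξ) = 0
    · have h5 : r * aeval ξ D = aeval ξ P := Subtype.ext (by rw [← co, ← h4, co]; rfl)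
      replace h5 := congrArg ε h5
      rw [map_mul, ev, ev, h, mul_zero] at h5
      have h0 : D ≠ 0 := by
        rintro rfl
        rw [map_zero, isUnit_zero_iff] at hu
        have : (0 : O) = 1 := Subtype.ext hu
        simpa using congrArg ε this
      obtain ⟨D', rfl⟩ := dvd_iff_isRoot.2 h
      obtain ⟨P', rfl⟩ := dvd_iff_isRoot.2 h5.symm
      have h6 := right_ne_zero_of_mul h0
      rw [map_mul] at hu
      refine ih _ ?_ D' P' rfl ?_ (isUnit_of_mul_isUnit_right hu) ?_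
      · rw [← e, natDegree_mul (X_sub_C_ne_zero _) h6, natDegree_X_sub_C]
        omega
      · rw [coe_mul, coe_mul, mul_assoc] at h3
        exact mul_left_cancel₀ (fun h7 => X_sub_C_ne_zero (ε ξ)
          (coe_injective ℂ (h7.trans coe_zero.symm))) h3
      · rw [map_mul, map_mul, mul_left_comm] at h4
        exact (isUnit_of_mul_isUnit_left hu).mul_left_cancel h4
    · exact ⟨D, P, h, h3⟩

/-- A value in `O` means that the series has no pole at the image of `ξ`. -/
theorem rv_ser {K : Type} [CommRing K] [Algebra ℂ K] (ξ : Kˣ) {O : Subalgebra ℂ K}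
    (ε : O →ₐ[ℂ] ℂ) (hξ : (ξ : K) ∈ O) {a : (Unit → ℤ) → ℂ} (h0 : ∀ e, e default < 0 → a e = 0)
    {r : K} (h : Rv (chr fun _ => ξ) a r) (hr : r ∈ O) :
    ∃ D P : Polynomial ℂ, D.eval (ε ⟨ξ, hξ⟩) ≠ 0 ∧
      (D : PowerSeries ℂ) * (PowerSeries.mk fun m => a fun _ => m) = P := by
  obtain ⟨D, P, h1, h2, h3⟩ := h
  obtain ⟨N, E, hE⟩ := P3D.exists_pol D
  obtain ⟨N', E', hE'⟩ := P3D.exists_pol P
  set t : AddMonoidAlgebra ℂ (Unit → ℤ) := AddMonoidAlgebra.single (fun _ => 1) 1 with ht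
  set χ := chr fun _ : Unit => ξ with hχ
  have e1 : Polynomial.aeval t (Polynomial.X ^ N' * E) = t ^ (N + N') * D := by
    rw [map_mul, map_pow, Polynomial.aeval_X, hE]
    ring
  have e2 : Polynomial.aeval t (Polynomial.X ^ N * E') = t ^ (N + N') * P := by
    rw [map_mul, map_pow, Polynomial.aeval_X, hE']
    ring
  have e3 : evc χ t = ξ := by
    rw [ht, evc_single, map_one, one_mul]
    simp [hχ, chr]
  have e4 : ∀ F : Polynomial ℂ, Polynomial.aeval (ξ : K) F = evc χ (Polynomial.aeval t F) :=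
    fun F => by rw [← Polynomial.aeval_algHom_apply, e3]
  refine cancel ε ⟨ξ, hξ⟩ ⟨r, hr⟩ _ (Polynomial.X ^ N' * E) (Polynomial.X ^ N * E') rfl ?_ ?_ ?_
  · have h4 := P3D.op_pol (a := (1 : AddMonoidAlgebra ℂ (Unit → ℤ)).coeff) (fun e he => by
      rw [AddMonoidAlgebra.one_def, AddMonoidAlgebra.coeff_single]
      exact Finsupp.single_eq_of_ne fun h => by simp [h] at he) (Polynomial.X ^ N * E')
    rw [op_coe, mul_one] at h4
    rw [← P3D.op_pol h0, e1, map_mul, Module.End.mul_apply, h1, op_coe, ← e2, h4]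
    refine (congrArg _ (PowerSeries.ext fun m => ?_)).trans (mul_one _)
    rw [PowerSeries.coeff_mk, AddMonoidAlgebra.one_def, AddMonoidAlgebra.coeff_single,
      PowerSeries.coeff_one, Finsupp.single_apply]
    exact if_congr (by simp [funext_iff, eq_comm]) rfl rfl
  · rw [e4, e1, map_mul, map_pow, e3]
    exact (ξ.isUnit.pow _).mul h2
  · rw [e4, e4, e1, e2, map_mul, map_mul, ← h3]
    ring

theorem coef_lim {N : ℕ → ℂ} (hN : Tendsto N atTop (𝓝 0)) (Q : Polynomial ℂ) :
    Tendsto (fun m => PowerSeries.coeff m ((Q : PowerSeries ℂ) * PowerSeries.mk N)) atTop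
      (𝓝 0) := by
  induction Q using Polynomial.induction_on' with
  | add P P' h h' => simpa [add_mul] using h.add h'
  | monomial e b =>
    have := (hN.comp (tendsto_sub_atTop_nat e)).const_mul b
    rw [mul_zero] at this
    refine this.congr' ((eventually_ge_atTop e).mono fun m hm => ?_)
    rw [← Polynomial.C_mul_X_pow_eq_monomial, Polynomial.coe_mul, Polynomial.coe_C,
      Polynomial.coe_pow, Polynomial.coe_X, mul_assoc]
    simp only [PowerSeries.coeff_C_mul, PowerSeries.coeff_X_pow_mul', if_pos hm,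
      PowerSeries.coeff_mk, Function.comp_apply]

/-- Summation of a series of differences. -/
theorem undiff {N a : ℕ → ℂ} (hN : Tendsto N atTop (𝓝 0)) (h : ∀ m, N m = a m + N (m + 1))
    {Q P : Polynomial ℂ} (e : (Q : PowerSeries ℂ) * PowerSeries.mk a = P) :
    ∃ R : Polynomial ℂ, (Q : PowerSeries ℂ) * PowerSeries.mk N = R := by
  have e1 : PowerSeries.mk N = PowerSeries.C (N 0) +
      PowerSeries.X * (PowerSeries.mk N - PowerSeries.mk a) := by
    ext m
    rcases m with _ | m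
    · simp
    · rw [map_add, PowerSeries.coeff_succ_X_mul, map_sub, PowerSeries.coeff_mk,
        PowerSeries.coeff_mk, PowerSeries.coeff_mk, PowerSeries.coeff_C, if_neg m.succ_ne_zero,
        h m]
      ring
  set W := (Q : PowerSeries ℂ) * PowerSeries.mk N with hW
  have e2 : W = ((Q * Polynomial.C (N 0) - Polynomial.X * P : Polynomial ℂ) : PowerSeries ℂ) +
      PowerSeries.X * W := by
    rw [Polynomial.coe_sub, Polynomial.coe_mul, Polynomial.coe_mul, Polynomial.coe_C,
      Polynomial.coe_X, ← e, hW]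
    linear_combination (Q : PowerSeries ℂ) * e1
  set M := (Q * Polynomial.C (N 0) - Polynomial.X * P).natDegree with hM
  have e3 : ∀ m, M ≤ m → PowerSeries.coeff m W = PowerSeries.coeff M W := fun m hm => by
    induction m, hm using Nat.le_induction with
    | base => rfl
    | succ m hm ih =>
      rw [← ih]
      nth_rw 1 [e2]
      rw [map_add, PowerSeries.coeff_succ_X_mul, Polynomial.coeff_coe,
        Polynomial.coeff_eq_zero_of_natDegree_lt (by omega), zero_add]
  have e4 : PowerSeries.coeff M W = 0 := tendsto_nhds_unique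
    (tendsto_const_nhds.congr' ((eventually_ge_atTop M).mono fun m hm => (e3 m hm).symm))
    (coef_lim hN Q)
  refine ⟨W.trunc M, PowerSeries.ext fun m => ?_⟩
  rw [Polynomial.coeff_coe, PowerSeries.coeff_trunc]
  split_ifs with hm
  · rfl
  · rw [e3 m (not_lt.1 hm), e4]

/-- Descent of rationality. -/
theorem descend {S : PowerSeries ℚ} {Q P : Polynomial ℂ} (hQ : Q ≠ 0)
    (h : (Q : PowerSeries ℂ) * S.map (algebraMap ℚ ℂ) = P) :
    ∃ A B : Polynomial ℚ, IsCoprime A B ∧ (B : PowerSeries ℚ) * S = A := by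
  obtain ⟨l, hl⟩ : ∃ l : Module.Dual ℚ ℂ, l Q.leadingCoeff ≠ 0 := by
    by_contra! k
    exact Polynomial.leadingCoeff_ne_zero.2 hQ ((Module.forall_dual_apply_eq_zero_iff ℚ _).1 k)
  have ex : ∀ F : Polynomial ℂ, ∃ F' : Polynomial ℚ, ∀ m, F'.coeff m = l (F.coeff m) := fun F => by
    induction F using Polynomial.induction_on' with
    | add P P' h h' =>
      obtain ⟨F, h⟩ := h
      obtain ⟨F', h'⟩ := h'
      exact ⟨F + F', fun m => by simp [h, h']⟩
    | monomial e b =>
      refine ⟨Polynomial.monomial e (l b), fun m => ?_⟩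
      rw [Polynomial.coeff_monomial, Polynomial.coeff_monomial, apply_ite l, map_zero]
  obtain ⟨B, hB⟩ := ex Q
  obtain ⟨A, hA⟩ := ex P
  have e : (B : PowerSeries ℚ) * S = A := PowerSeries.ext fun m => by
    rw [Polynomial.coeff_coe, hA, ← Polynomial.coeff_coe, ← h, PowerSeries.coeff_mul,
      PowerSeries.coeff_mul, map_sum]
    refine Finset.sum_congr rfl fun u _ => ?_
    rw [Polynomial.coeff_coe, Polynomial.coeff_coe, hB, PowerSeries.coeff_map, mul_comm,
      mul_comm (Q.coeff _), ← Algebra.smul_def, map_smul, smul_eq_mul]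
  have h0 : B ≠ 0 := fun k => hl (by rw [Polynomial.leadingCoeff, ← hB, k, Polynomial.coeff_zero])
  obtain ⟨B', A', c, h1, rfl, rfl⟩ := UniqueFactorizationMonoid.exists_reduced_factors B h0 A
  refine ⟨A', B', h1.isCoprime.symm, ?_⟩
  rw [Polynomial.coe_mul, Polynomial.coe_mul, mul_assoc] at e
  exact mul_left_cancel₀ (fun k => left_ne_zero_of_mul h0
    (Polynomial.coe_injective ℚ (k.trans Polynomial.coe_zero.symm))) e

variable {p : ℕ} [Fact p.Prime] {L : Type} [Field L] [Algebra ℚ_[p] L] {n : ℕ}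

theorem ev_int (y : Pt p L) {x : Fin n → L} (hx : ∀ i, x i ∈ y.O) (f : MvPolynomial (Fin n) ℤ) :
    MvPolynomial.aeval x f ∈ y.O ∧
      y.ev (MvPolynomial.aeval x f) = MvPolynomial.aeval (fun i => y.ev (x i)) f := by
  induction f using MvPolynomial.induction_on with
  | C c => simpa using y.ev_alg c
  | add f g h h' => exact ⟨by rw [map_add]; exact add_mem h.1 h'.1, by
      rw [map_add, map_add, y.ev_add _ h.1 _ h'.1, h.2, h'.2]⟩
  | mul_X f i h =>
    rw [map_mul, map_mul, MvPolynomial.aeval_X, MvPolynomial.aeval_X, y.ev_mul _ h.1 _ (hx i), h.2]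
    exact ⟨mul_mem h.1 (hx i), rfl⟩

theorem norm_le {t : Fin n → ℚ_[p]} (ht : t ∈ Bl p n) (f : MvPolynomial (Fin n) ℤ) :
    ‖MvPolynomial.aeval t f‖ ≤ 1 := by
  induction f using MvPolynomial.induction_on with
  | C c => simpa using Padic.norm_int_le_one c
  | add f g h h' =>
    rw [map_add]
    exact (IsUltrametricDist.norm_add_le_max _ _).trans (max_le h h')
  | mul_X f i h =>
    rw [map_mul, MvPolynomial.aeval_X, norm_mul]
    exact mul_le_one₀ h (norm_nonneg _) (mem_bl.1 ht i)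

theorem cont (f : MvPolynomial (Fin n) ℤ) :
    Continuous fun t : Fin n → ℚ_[p] => ‖MvPolynomial.aeval t f‖ := by
  refine Continuous.norm ?_
  induction f using MvPolynomial.induction_on with
  | C c => simpa using continuous_const
  | add f g h h' => simpa using h.fun_add h'
  | mul_X f i h => simpa using h.fun_mul (continuous_apply i)

/-- The points of the unit ball where `f` is divisible by a power of `p`. -/
def Le (p : ℕ) [Fact p.Prime] (f : MvPolynomial (Fin n) ℤ) (m : ℕ) : Set (Fin n → ℚ_[p]) :=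
  {t ∈ Bl p n | ‖MvPolynomial.aeval t f‖ ≤ rr p ^ m}

theorem meas_Le (f : MvPolynomial (Fin n) ℤ) (m : ℕ) : MeasurableSet (Le p f m) :=
  (isClosed_closedBall.inter (isClosed_le (cont f) continuous_const)).measurableSet

theorem fin_Le (f : MvPolynomial (Fin n) ℤ) (m : ℕ) : mN p n (Le p f m) ≠ ∞ :=
  ((measure_mono (sep_subset _ _)).trans_lt (isCompact_closedBall _ _).measure_lt_top).ne

theorem poin (f : MvPolynomial (Fin n) ℤ) : (poincare f p).map (algebraMap ℚ ℂ) =
    PowerSeries.mk fun m => ((mN p n (Le p f m)).toReal : ℂ) := by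
  ext m
  have := count (p := p) (fun _ : Unit => f) m
  simp only [forall_const] at this
  rw [PowerSeries.coeff_mk, Le, this, poincare, PowerSeries.coeff_map, PowerSeries.coeff_mk]
  simp [rr, ← pow_mul, mul_comm]

theorem lim {f : MvPolynomial (Fin n) ℤ} (hf : f ≠ 0) :
    Tendsto (fun m => ((mN p n (Le p f m)).toReal : ℂ)) atTop (𝓝 0) := by
  have h1 := tendsto_measure_iInter_atTop (μ := mN p n) (s := Le p f)
    (fun m => (meas_Le f m).nullMeasurableSet)
    (fun a b h t ht => ⟨ht.1, ht.2.trans (rr_pow_le.2 h)⟩) ⟨0, fin_Le f 0⟩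
  have h2 : mN p n (⋂ m, Le p f m) = 0 := by
    refine measure_mono_null (fun t ht => ?_) (null_poly (f.map (algebraMap ℤ ℚ_[p]))
      ((map_ne_zero_iff _ (MvPolynomial.map_injective _ (algebraMap ℤ ℚ_[p]).injective_int)).2 hf))
    rw [mem_ofPred_eq, MvPolynomial.eval_map, ← MvPolynomial.aeval_def, ← norm_le_zero_iff]
    exact ge_of_tendsto' (tendsto_pow_atTop_nhds_zero_of_lt_one rr_pos.le rr_lt_one)
      fun m => (mem_iInter.1 ht m).2
  rw [h2] at h1
  have h3 := (ENNReal.tendsto_toReal ENNReal.zero_ne_top).comp h1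
  simpa [Function.comp_def] using (Complex.continuous_ofReal.tendsto _).comp h3

theorem step (f : MvPolynomial (Fin n) ℤ) (m : ℕ) : mN p n (Le p f m) =
    mN p n {t ∈ Bl p n | ‖MvPolynomial.aeval t f‖ = (p : ℝ) ^ (-(m : ℤ))} +
      mN p n (Le p f (m + 1)) := by
  rw [← measure_union (Set.disjoint_left.2 fun t h h' => ?_) (meas_Le f _)]
  · refine congrArg _ (Set.ext fun t => ?_)
    simp only [Le, mem_union, mem_ofPred_eq, ← and_or_left, rr_pow_eq]
    rw [le_iff_eq_or_lt, Padic.norm_le_pow_iff_norm_lt_pow_add_one]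
    simp
  · have := h'.2
    rw [h.2, ← rr_pow_eq, rr_pow_le] at this
    omega

theorem vol_std {b : Box p L n} (f : MvPolynomial (Fin n) ℤ) (a : Unit → ℤ) :
    b.vol 1 b.z (Lv (fun _ => MvPolynomial.aeval b.z f) a) =
      mN p n {t ∈ Bl p n | ‖MvPolynomial.aeval t f‖ = (p : ℝ) ^ (-a ())} := by
  simp only [Box.vol, b.jac_self, one_mul, Pt.ev_one, enorm_one, setLIntegral_one]
  refine congrArg _ (Set.ext fun t => and_congr_right fun ht => ?_)
  obtain ⟨h1, h2⟩ := ev_int (b.Φ t) (b.zm t ht) f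
  simp only [b.sec t ht] at h2
  exact ⟨fun h => h2 ▸ (h ()).2, fun h _ => ⟨h1, h2.symm ▸ h⟩⟩

end IGU

open IGU in
/-- From box sums to the Poincare series. -/
theorem rIGU : RSTD → RCOV → RIGU := by
  intro hS hC p _ L _ _ n ι _ x D f b d hx hD hF hf hd hi hc ha
  obtain ⟨b₀, rfl, -, h3⟩ := hS x D hx hD hF
  have he : Eqv b fun _ : Unit => b₀ := hC b _ _ hi hc (by
    rintro _ t ht _ ⟨l, rfl⟩
    exact ⟨b₀.zm t ht l, by rw [b₀.sec t ht]; exact mem_bl.1 ht l⟩)
    ⟨∅, by simp, fun y _ h => ⟨(), _, mem_bl.2 fun l => (h _ ⟨l, rfl⟩).2,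
      h3 y fun l => h _ ⟨l, rfl⟩⟩⟩
  have hv : ∀ a, ∑ i, (d i).ser p a =
      mN p n {t ∈ Bl p n | ‖MvPolynomial.aeval t f‖ = (p : ℝ) ^ (-a ())} := fun a => by
    simp only [← frm (ha _)]
    rw [cmp hd (fun _ _ _ _ _ _ _ => rfl) he 1 _
      fun c => (c.open_Lv _ a).measurableSet.nullMeasurableSet, Fintype.sum_unique, vol_std]
  have hz : ∀ i, ∀ t ∈ Bl p n, ∀ l, b₀.z l ∈ ((b i).Φ t).O := fun i t ht l =>
    (hi i t ht _ ⟨l, rfl⟩).1
  have hν : ∀ i l, 0 < (d i).ν l := fun i l => by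
    have := (ha i).frm.nonneg (fun t ht => mul_mem (one_mem _) ((b i).jac_mem ht (hz i t ht))) l
    omega
  have hT : ∀ i, (d i).Tame := fun i => ⟨fun u => .inl (((ha i).fn u).nonneg
    fun t ht => (ev_int _ (hz i t ht) f).1), fun l _ => hν i l⟩
  have key : ∀ {K : Type} [CommRing K] [Algebra ℂ K] (ξ : Kˣ) (O : Subalgebra ℂ K)
      (ε : O →ₐ[ℂ] ℂ) (hξ : (ξ : K) ∈ O), (∀ i, (d i).ND p fun _ => ξ) →
      ∑ i, (d i).val p (fun _ => ξ) ∈ O → ∃ Q P : Polynomial ℂ, Q.eval (ε ⟨ξ, hξ⟩) ≠ 0 ∧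
        (Q : PowerSeries ℂ) * (H72.poincare f p).map (algebraMap ℚ ℂ) = P := by
    intro K _ _ ξ O ε hξ h1 h2
    obtain ⟨Q, P, k1, k2⟩ := rv_ser ξ ε hξ (fun e he => by
      have : {t ∈ Bl p n | ‖MvPolynomial.aeval t f‖ = (p : ℝ) ^ (-e ())} = ∅ :=
        Set.eq_empty_of_forall_notMem fun t ht =>
          (norm_le ht.1 f).not_gt (ht.2 ▸ one_lt_zpow₀ one_lt_p (neg_pos.2 he))
      rw [hv, this, measure_empty, ENNReal.toReal_zero, Complex.ofReal_zero])
      (rv_sum Finset.univ fun i _ => ⟨hT i, h1 i⟩) h2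
    rw [poin]
    refine (undiff (lim hf) (fun m => ?_) k2).elim fun R hR => ⟨Q, R, k1, hR⟩
    have := step (p := p) f m
    rw [hv, this, ENNReal.toReal_add (fun k => fin_Le f m (by rw [this, k, top_add]))
      (fin_Le f _), Complex.ofReal_add]
  refine ⟨?_, key⟩
  have hN : ∀ i, (d i).ND p fun _ => (1 : ℂˣ) := fun i l => by
    refine (sub_ne_zero.2 fun k => ?_).isUnit
    have k' := congrArg norm k
    simp only [one_zpow, Finset.prod_const_one, Units.val_one, mul_one, norm_one,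
      Algebra.algebraMap_self, RingHom.id_apply, norm_zpow, Complex.norm_natCast] at k'
    exact (zpow_lt_one_of_neg₀ one_lt_p (neg_neg_of_pos (hν i l))).ne k'.symm
  obtain ⟨Q, P, k1, k2⟩ := key 1 ⊤ Subalgebra.topEquiv.toAlgHom trivial hN trivial
  exact descend (fun k => k1 (by rw [k, Polynomial.eval_zero])) k2

end Pool.Agent.MP_5d9b3c_ag.P3K
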