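import Pool.Agent.MP_5d9b3c_ag.P3K.Spec

/-! The point of a homomorphism. -/

namespace Pool.Agent.MP_5d9b3c_ag.P3K

open Set Metric Topology Filter

noncomputable section

variable {p : ℕ} [Fact p.Prime] {L : Type} [Field L] [Algebra ℚ_[p] L] {n : ℕ}

namespace LOC

variable {A : Subalgebra ℚ_[p] L} (φ : A →ₐ[ℚ_[p]] ℚ_[p])

/-- `r` is the value of `g`. -/
def Vl (g : L) (r : ℚ_[p]) : Prop := ∃ s a : A, φ s ≠ 0 ∧ (s : L) * g = a ∧ φ s * r = φ a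

variable {φ} {g g' : L} {r r' : ℚ_[p]}

theorem Vl.uniq (h : Vl φ g r) (h' : Vl φ g r') : r = r' := by
  obtain ⟨s, a, h1, h2, h3⟩ := h
  obtain ⟨s', a', k1, k2, k3⟩ := h'
  have e : s' * a = s * a' := Subtype.ext (by
    rw [Subalgebra.coe_mul, Subalgebra.coe_mul, ← h2, ← k2]; ring)
  have e2 := congrArg φ e
  rw [map_mul, map_mul, ← h3, ← k3] at e2
  exact mul_left_cancel₀ (mul_ne_zero h1 k1) (by linear_combination e2)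

theorem Vl.add (h : Vl φ g r) (h' : Vl φ g' r') : Vl φ (g + g') (r + r') := by
  obtain ⟨s, a, h1, h2, h3⟩ := h
  obtain ⟨s', a', k1, k2, k3⟩ := h'
  refine ⟨s * s', s' * a + s * a', by rw [map_mul]; exact mul_ne_zero h1 k1, ?_, ?_⟩
  · rw [Subalgebra.coe_add, Subalgebra.coe_mul, Subalgebra.coe_mul, Subalgebra.coe_mul, ← h2, ← k2]
    ring
  · rw [map_add, map_mul, map_mul, map_mul, ← h3, ← k3]
    ring

theorem Vl.mul (h : Vl φ g r) (h' : Vl φ g' r') : Vl φ (g * g') (r * r') := by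
  obtain ⟨s, a, h1, h2, h3⟩ := h
  obtain ⟨s', a', k1, k2, k3⟩ := h'
  refine ⟨s * s', a * a', by rw [map_mul]; exact mul_ne_zero h1 k1, ?_, ?_⟩
  · rw [Subalgebra.coe_mul, Subalgebra.coe_mul, ← h2, ← k2]
    ring
  · rw [map_mul, map_mul, ← h3, ← k3]
    ring

theorem Vl.mem (φ : A →ₐ[ℚ_[p]] ℚ_[p]) (a : A) : Vl φ a (φ a) := ⟨1, a, by simp, by simp, by simp⟩

theorem Vl.alg (φ : A →ₐ[ℚ_[p]] ℚ_[p]) (c : ℚ_[p]) : Vl φ (algebraMap ℚ_[p] L c) c := by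
  simpa using Vl.mem φ (algebraMap ℚ_[p] A c)

theorem Vl.inv (h : Vl φ g r) (hr : r ≠ 0) : Vl φ g⁻¹ r⁻¹ := by
  obtain ⟨s, a, h1, h2, h3⟩ := h
  have h4 : φ a ≠ 0 := h3 ▸ mul_ne_zero h1 hr
  have h5 : g ≠ 0 := fun e => h4 (by
    have : a = 0 := Subtype.ext (by rw [← h2, e, mul_zero]; rfl)
    rw [this, map_zero])
  exact ⟨a, s, h4, by rw [← h2, mul_inv_cancel_right₀ h5], by rw [← h3, mul_inv_cancel_right₀ hr]⟩

open Classical in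
theorem Vl.eq (h : Vl φ g r) : (if e : ∃ r, Vl φ g r then e.choose else 0) = r := by
  have e : ∃ r, Vl φ g r := ⟨r, h⟩
  rw [dif_pos e]
  exact e.choose_spec.uniq h

open Classical in
/-- The point of a homomorphism. -/
def pt (φ : A →ₐ[ℚ_[p]] ℚ_[p]) (hA : ∀ g : L, ∃ s ∈ A, s ≠ 0 ∧ s * g ∈ A) : Pt p L where
  O :=
    { carrier := {g | ∃ r, Vl φ g r}
      mul_mem' := fun ⟨_, ha⟩ ⟨_, hb⟩ => ⟨_, ha.mul hb⟩
      add_mem' := fun ⟨_, ha⟩ ⟨_, hb⟩ => ⟨_, ha.add hb⟩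
      algebraMap_mem' := fun c => ⟨c, Vl.alg φ c⟩ }
  ev g := if e : ∃ r, Vl φ g r then e.choose else 0
  ev_add := by
    rintro f ⟨a, ha⟩ g ⟨b, hb⟩
    rw [ha.eq, hb.eq, (ha.add hb).eq]
  ev_mul := by
    rintro f ⟨a, ha⟩ g ⟨b, hb⟩
    rw [ha.eq, hb.eq, (ha.mul hb).eq]
  ev_alg c := (Vl.alg φ c).eq
  ev_out f hf := dif_neg hf
  inv_mem := by
    rintro f ⟨a, ha⟩ h
    rw [ha.eq] at h
    exact ⟨_, ha.inv h⟩
  fr g :=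
    let ⟨s, h1, h2, h3⟩ := hA g
    ⟨s, ⟨_, Vl.mem φ ⟨s, h1⟩⟩, h2, ⟨_, Vl.mem φ ⟨_, h3⟩⟩⟩

end LOC

theorem rLOC : RLOC := by
  intro p _ L _ _ A φ hA
  have h : ∀ a : A, (LOC.pt φ hA).ev a = φ a := fun a => (LOC.Vl.mem φ a).eq
  refine ⟨LOC.pt φ hA, ⟨fun a ha => ⟨_, LOC.Vl.mem φ ⟨a, ha⟩⟩, ?_⟩, h⟩
  rintro g ⟨r, s, a, h1, h2, -⟩
  exact ⟨s, s.2, (h s).symm ▸ h1, h2 ▸ a.2⟩

theorem LocOf.le_of {A : Subalgebra ℚ_[p] L} {x y : Pt p L} (h : LocOf A x) (hA : A ≤ y.O)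
    (hev : ∀ a ∈ A, y.ev a = x.ev a) : x ≤ y := fun g hg => by
  obtain ⟨s, h1, h2, h3⟩ := h.frac g hg
  rw [← hev s h1] at h2
  have h4 := mul_mem (Pt.inv_mem' h2) (hA h3)
  rwa [inv_mul_cancel_left₀ (Pt.ne_zero h2)] at h4

theorem LocOf.eq_of {A : Subalgebra ℚ_[p] L} {x y : Pt p L} (h : LocOf A x) (h' : LocOf A y)
    (hev : ∀ a ∈ A, y.ev a = x.ev a) : x = y :=
  le_antisymm (h.le_of h'.le hev) (h'.le_of h.le fun a ha => (hev a ha).symm)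

end

end Pool.Agent.MP_5d9b3c_ag.P3K
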