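import Pool.Agent.MP_5d9b3c_ag.P3K.Gen
import Pool.Agent.MP_5d9b3c_ag.P3K.Mono

/-! Tameness, change of the value ring, refinement on curves. -/

namespace Pool.Agent.MP_5d9b3c_ag.P3K

open Set Metric Topology Filter

variable {p : ℕ} [Fact p.Prime] {L : Type} [Field L] [Algebra ℚ_[p] L] {n : ℕ}

namespace Box

variable {b : Box p L n} {g : L} {m : ℤ} {A : Fin n → ℤ}

theorem upd_bl (l : Fin n) : (Function.update 1 l 0 : Fin n → ℚ_[p]) ∈ Bl p n :=
  mem_bl.2 fun i => by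
    by_cases e : i = l
    · simp [e]
    · simp [Function.update_of_ne e]

theorem Mono.mem_upd (h : b.Mono g m A) {l : Fin n} (hl : 0 ≤ A l) :
    g ∈ (b.Φ (Function.update 1 l 0)).O := by
  obtain ⟨e, he⟩ := Int.eq_ofNat_of_zero_le hl
  have k := ((h.div ((b.mono_z l).pow e)).ev (upd_bl l) fun i hi => by
    have : i ≠ l := by
      rintro rfl
      exact hi (by simp [he])
    simp [Function.update_of_ne this]).1
  simpa [b.z_ne l] using mul_mem k (pow_mem (b.zm _ (upd_bl l) l) e)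

theorem Mono.nonneg_at (h : b.Mono g m A) {l : Fin n}
    (hg : g ∈ (b.Φ (Function.update 1 l 0)).O) : 0 ≤ A l := by
  by_contra! hl
  have h1 := h.inv.mem_upd (l := l) (neg_nonneg.2 hl.le)
  have h2 := (h.inv.div (b.mono_z l)).mem_upd (l := l) (by simp; omega)
  have h3 := Pt.ev_mul _ _ (mul_mem hg h2) _ (b.zm _ (upd_bl l) l)
  rw [b.sec _ (upd_bl l), Function.update_self, mul_zero, mul_assoc, div_mul_cancel₀ _ (b.z_ne l),
    mul_inv_cancel₀ h.ne, Pt.ev_one] at h3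
  exact one_ne_zero h3

/-- A form whose coefficient and arguments are regular along `z l = 0` has no pole there. -/
theorem nu_pos {j : L} {r : Fin n → L} {c : ℤ} {ν : Fin n → ℤ} {l : Fin n}
    (h : b.Mono (j * b.jac r) c fun l => ν l - 1) (hj : ∃ m A, b.Mono j m A ∧ 0 ≤ A l)
    (hr : ∀ k, ∃ m A, b.Mono (r k) m A ∧ 0 ≤ A l) : 0 < ν l := by
  obtain ⟨_, _, h1, h2⟩ := hj
  have := h.nonneg_at (mul_mem (h1.mem_upd h2) (b.jac_mem (upd_bl l) fun k =>
    (hr k).elim fun _ k => k.elim fun _ k => k.1.mem_upd k.2))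
  omega

theorem nu_pos_reg {j : L} {r : Fin n → L} {c : ℤ} {ν : Fin n → ℤ}
    (h : b.Mono (j * b.jac r) c fun l => ν l - 1) (hj : b.Reg j) (hr : ∀ k, b.Reg (r k))
    (l : Fin n) : 0 < ν l := by
  have := h.nonneg (fun t ht => mul_mem (hj t ht) (b.jac_mem ht fun k => hr k t ht)) l
  omega

theorem Mono.sgn (h : b.Mono g m A) (hg : b.Reg g ∨ b.Reg g⁻¹) : (∀ l, 0 ≤ A l) ∨ ∀ l, A l ≤ 0 :=
  hg.imp h.nonneg fun k l => neg_nonneg.1 (h.inv.nonneg k l)

/-- Tameness when the coefficient and the arguments of the form are among the weights. -/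
theorem Adp.tame {I : Type} {j : L} {r : Fin n → L} {h : I → L} {d : MD I n} (hd : b.Adp j r h d)
    (h1 : ∀ i, b.Reg (h i) ∨ b.Reg (h i)⁻¹) (hj : b.Reg j ∨ ∃ i, h i = j)
    (hr : ∀ k, b.Reg (r k) ∨ ∃ i, h i = r k) : d.Tame := by
  refine ⟨fun i => (hd.fn i).sgn (h1 i), fun l hl => ?_⟩
  have key : ∀ g, (b.Reg g ∨ ∃ i, h i = g) → g ∈ (b.Φ (Function.update 1 l 0)).O := fun g k =>
    k.elim (fun k => k _ (upd_bl l)) fun ⟨i, e⟩ => e ▸ (hd.fn i).mem_upd (hl i).ge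
  have := hd.frm.nonneg_at (mul_mem (key _ hj) (b.jac_mem (upd_bl l) fun k => key _ (hr k)))
  omega

namespace Ev

variable {c : Fin n → ℚ_[p]} {Q Q' : Box p L n → Prop}

theorem imp' (h : b.Ev c Q) (k : ∀ b', Q b' → Q' b') : b.Ev c Q' :=
  h.imp fun _ h e he b' hb => k _ (h e he b' hb)

theorem and' (h : b.Ev c Q) (h' : b.Ev c Q') : b.Ev c fun b' => Q b' ∧ Q' b' := by
  obtain ⟨e, h⟩ := h
  obtain ⟨e', h'⟩ := h'
  exact ⟨max e e', fun f hf b' hb => ⟨h f (le_of_max_le_left hf) b' hb,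
    h' f (le_of_max_le_right hf) b' hb⟩⟩

theorem fin' {α : Type} (T : Finset α) {Q : α → Box p L n → Prop} (h : ∀ a ∈ T, b.Ev c (Q a)) :
    b.Ev c fun b' => ∀ a ∈ T, Q a b' := by
  choose! e he using h
  exact ⟨T.sup e, fun f hf b' hb a ha => he a ha f ((Finset.le_sup ha).trans hf) b' hb⟩

end Ev

end Box

theorem rRF1_of (h1 : RGRM) (h2 : RRFF) (h3 : RDVR) : RRF1 := fun b T hT =>
  h2 b (fun i b' => ∀ g ∈ T i, ∃ m A, b'.Mono g m A) fun i c hc => Box.Ev.fin' _ fun g hg => by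
    obtain ⟨a, ha⟩ := h3 (b i) c g hc fun e => hT i (e ▸ hg)
    exact (h1.mono (b i) (A := fun _ => a) hc (by simpa using ha)).imp' fun _ k =>
      k.imp fun _ k => ⟨_, k⟩

namespace MD

variable {I K K' : Type} [Fintype I] [CommRing K] [Algebra ℂ K] [CommRing K'] [Algebra ℂ K']
  (d : MD I n) (φ : K →ₐ[ℂ] K') {χ : I → Kˣ} {q : ℕ}

theorem den_map (l : Fin n) :
    d.den q (fun i => Units.map (φ : K →* K') (χ i)) l = φ (d.den q χ l) := by
  simp only [den, map_sub, map_one, map_mul, AlgHom.commutes, ← map_zpow, ← map_prod]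
  rfl

theorem ND.map {d : MD I n} (h : d.ND q χ) : d.ND q fun i => Units.map (φ : K →* K') (χ i) :=
  fun l => d.den_map φ l ▸ (h l).map φ

theorem val_map (h : d.ND q χ) :
    d.val q (fun i => Units.map (φ : K →* K') (χ i)) = φ (d.val q χ) := by
  have e : ∀ l, Ring.inverse (φ (d.den q χ l)) = φ (Ring.inverse (d.den q χ l)) := fun l => by
    obtain ⟨u, hu⟩ := h l
    rw [← hu, Ring.inverse_unit]
    exact Ring.inverse_unit (Units.map (φ : K →* K') u)
  simp only [val, den_map, e, map_mul, map_prod, AlgHom.commutes, ← map_zpow]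
  rw [← map_prod]
  rfl

end MD

end Pool.Agent.MP_5d9b3c_ag.P3K
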